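import Pool.Agent.H24.M5.Fin

/-!
# Row An: two equations from a matrix with two powers of one element (project MP_204867_M5)

`P` is the ideal of maximal minors of the matrix with rows `(α, β^j, δ1)` and `(β^l, γ, δ2)`; `n = j + l`; `D = α γ - β^n`,
`m1 = α δ2 - β^l δ1`, `m2 = β^j δ2 - γ δ1`, `P = (D, m1, m2)`.

Put `τ_i = β^(j i) γ^(l - i)` for `i ≤ l` and `τ_i = α^(i - l) β^(l (n - i))` for `l < i ≤ n`, and
`Q = Σ_{i ≤ n} choose(n, i) (-δ1)^(n - i) δ2^i τ_i`.
(1) `γ^j τ_i - β^(j i) γ^(n - i) ∈ (D)` for all `i ≤ n`: for `i ≤ l` it is `0` (`j + (l - i) = n - i`). For `i > l`, with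
`e = i - l ≤ j`: `γ^j α^e β^(l (n - i)) = (α γ)^e γ^(n - i) β^(l (n - i))` (`j = e + (n - i)`) and `(α γ)^e - β^(n e) ∈ (D)`
(`sub_dvd_pow_sub_pow`), `n e + l (n - i) = j i`. Hence `γ^j Q - m2^n ∈ (D)` (binomial theorem for `(β^j δ2 + (-δ1) γ)^n`; `add_pow`).
(2) `α^l τ_i - α^i β^(l (n - i)) ∈ (D)` for all `i ≤ n`: for `i ≥ l` it is `0` (at `i = l` use `τ_l = β^(j l)`, `n - l = j`). For
`i < l`, with `e = l - i`: `α^l β^(j i) γ^e = α^i (α γ)^e β^(j i)`, `n e + j i = l (n - i)`. Hence `α^l Q - m1^n ∈ (D)`.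
(It may be convenient to write `l = i + e` or `i = l + e`, `j = e + f` and use `ring` / `pow_add`, `pow_mul`.)
(3) `α ∉ P` or `γ ∉ P`: by (1), (2) `Q ∈ P` (if `n = 0` then `D = α γ - 1`, `Q = 1`?? In this case `m1^0 = 1`: treat `n = 0` separately:
`j = l = 0`: `P = (α γ - 1, α δ2 - δ1, δ2 - γ δ1)`, and `δ2 - γ δ1 ≡ 0`: `α (δ2 - γ δ1) = (α δ2 - δ1) - (α γ - 1) δ1`, so
`m2 = γ (α m2) - (α γ - 1) m2 ∈ (D, m1)` and `P = (D, m1)`: use `fin_two`.) For `n ≥ 1`: `m1^n, m2^n ∈ P`, so `α^l Q ∈ P` and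
`γ^j Q ∈ P`.
(4) `P ≤ (D, Q).radical` since `m1^n ∈ (D, Q)`, `m2^n ∈ (D, Q)`.
(5) `GenSmooth P D`: `α m2 - β^j m1 + δ1 D = 0` and `γ m1 - β^l m2 - δ2 D = 0` (`ring` after `pow_add`), so `α P ≤ (D, m1)` and
`γ P ≤ (D, m2)`: `genSmooth_of` with `d = α` or `d = γ`.
-/

set_option autoImplicit false

namespace STCI.M5

open STCI.LG

universe u

variable {A : Type u} [CommRing A] [IsDomain A] [IsNoetherianRing A] [UniqueFactorizationMonoid A]

/-- The coefficients `τ_i`. -/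
noncomputable def An_tau {B : Type u} [CommRing B] (α β γ : B) (j l i : ℕ) : B :=
  if i ≤ l then β ^ (j * i) * γ ^ (l - i) else α ^ (i - l) * β ^ (l * (j + l - i))

/-- The second equation `Q`. -/
noncomputable def An_Q {B : Type u} [CommRing B] (α β γ δ1 δ2 : B) (j l : ℕ) : B :=
  ∑ i ∈ Finset.range (j + l + 1), ((j + l).choose i : B) * ((-δ1) ^ (j + l - i) * δ2 ^ i *
    An_tau α β γ j l i)

theorem An_sub {B : Type u} [CommRing B] (α β γ : B) (n e : ℕ) :
    α * γ - β ^ n ∣ (α * γ) ^ e - β ^ (n * e) := by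
  rw [pow_mul]
  exact sub_dvd_pow_sub_pow _ _ e

theorem An_one {B : Type u} [CommRing B] (α β γ : B) (j l i : ℕ) (hi : i ≤ j + l) :
    α * γ - β ^ (j + l) ∣ γ ^ j * An_tau α β γ j l i - β ^ (j * i) * γ ^ (j + l - i) := by
  by_cases h : i ≤ l
  · obtain ⟨c, rfl⟩ := Nat.exists_eq_add_of_le h
    have e1 : i + c - i = c := by omega
    have e2 : j + (i + c) - i = j + c := by omega
    have e : γ ^ j * An_tau α β γ j (i + c) i - β ^ (j * i) * γ ^ (j + (i + c) - i) = 0 := by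
      rw [An_tau, if_pos h, e1, e2, pow_add]
      ring
    rw [e]
    exact dvd_zero _
  · obtain ⟨e, rfl⟩ := Nat.exists_eq_add_of_le (le_of_not_ge h)
    obtain ⟨f, rfl⟩ : ∃ f, j = e + f := ⟨j - e, by omega⟩
    have e1 : l + e - l = e := by omega
    have e2 : e + f + l - (l + e) = f := by omega
    have key : γ ^ (e + f) * An_tau α β γ (e + f) l (l + e) -
        β ^ ((e + f) * (l + e)) * γ ^ (e + f + l - (l + e)) =
        ((α * γ) ^ e - β ^ ((e + f + l) * e)) * (γ ^ f * β ^ (l * f)) := by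
      rw [An_tau, if_neg h, e1, e2]
      have e3 : (e + f) * (l + e) = (e + f + l) * e + l * f := by ring
      rw [e3, pow_add, pow_add, mul_pow]
      ring
    rw [key]
    exact (An_sub α β γ (e + f + l) e).mul_right _

theorem An_two {B : Type u} [CommRing B] (α β γ : B) (j l i : ℕ) (hi : i ≤ j + l) :
    α * γ - β ^ (j + l) ∣ α ^ l * An_tau α β γ j l i - α ^ i * β ^ (l * (j + l - i)) := by
  by_cases h : i ≤ l
  · obtain ⟨e, rfl⟩ := Nat.exists_eq_add_of_le h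
    have e1 : i + e - i = e := by omega
    have e2 : j + (i + e) - i = j + e := by omega
    have key : α ^ (i + e) * An_tau α β γ j (i + e) i - α ^ i * β ^ ((i + e) * (j + (i + e) - i)) =
        ((α * γ) ^ e - β ^ ((j + (i + e)) * e)) * (α ^ i * β ^ (j * i)) := by
      rw [An_tau, if_pos h, e1, e2]
      have e3 : (i + e) * (j + e) = (j + (i + e)) * e + j * i := by ring
      rw [e3, pow_add, pow_add, mul_pow]
      ring
    rw [key]
    exact (An_sub α β γ (j + (i + e)) e).mul_right _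
  · obtain ⟨e, rfl⟩ := Nat.exists_eq_add_of_le (le_of_not_ge h)
    have e1 : l + e - l = e := by omega
    have key : α ^ l * An_tau α β γ j l (l + e) - α ^ (l + e) * β ^ (l * (j + l - (l + e))) = 0 := by
      rw [An_tau, if_neg h, e1, pow_add]
      ring
    rw [key]
    exact dvd_zero _

theorem An_Q1 {B : Type u} [CommRing B] (α β γ δ1 δ2 : B) (j l : ℕ) :
    α * γ - β ^ (j + l) ∣ γ ^ j * An_Q α β γ δ1 δ2 j l - (β ^ j * δ2 - γ * δ1) ^ (j + l) := by
  have e0 : β ^ j * δ2 - γ * δ1 = β ^ j * δ2 + (-δ1) * γ := by ring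
  rw [e0, add_pow, An_Q, Finset.mul_sum, ← Finset.sum_sub_distrib]
  refine Finset.dvd_sum (fun i hi => ?_)
  have hi' : i ≤ j + l := by
    have := Finset.mem_range.1 hi
    omega
  have e1 : γ ^ j * (((j + l).choose i : B) * ((-δ1) ^ (j + l - i) * δ2 ^ i * An_tau α β γ j l i)) -
      (β ^ j * δ2) ^ i * ((-δ1) * γ) ^ (j + l - i) * ((j + l).choose i : B) =
      (γ ^ j * An_tau α β γ j l i - β ^ (j * i) * γ ^ (j + l - i)) *
        (((j + l).choose i : B) * ((-δ1) ^ (j + l - i) * δ2 ^ i)) := by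
    rw [mul_pow, mul_pow, ← pow_mul]
    ring
  rw [e1]
  exact (An_one α β γ j l i hi').mul_right _

theorem An_Q2 {B : Type u} [CommRing B] (α β γ δ1 δ2 : B) (j l : ℕ) :
    α * γ - β ^ (j + l) ∣ α ^ l * An_Q α β γ δ1 δ2 j l - (α * δ2 - β ^ l * δ1) ^ (j + l) := by
  have e0 : α * δ2 - β ^ l * δ1 = α * δ2 + (-δ1) * β ^ l := by ring
  rw [e0, add_pow, An_Q, Finset.mul_sum, ← Finset.sum_sub_distrib]
  refine Finset.dvd_sum (fun i hi => ?_)
  have hi' : i ≤ j + l := by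
    have := Finset.mem_range.1 hi
    omega
  have e1 : α ^ l * (((j + l).choose i : B) * ((-δ1) ^ (j + l - i) * δ2 ^ i * An_tau α β γ j l i)) -
      (α * δ2) ^ i * ((-δ1) * β ^ l) ^ (j + l - i) * ((j + l).choose i : B) =
      (α ^ l * An_tau α β γ j l i - α ^ i * β ^ (l * (j + l - i))) *
        (((j + l).choose i : B) * ((-δ1) ^ (j + l - i) * δ2 ^ i)) := by
    rw [mul_pow, mul_pow, ← pow_mul]
    ring
  rw [e1]
  exact (An_two α β γ j l i hi').mul_right _

theorem An_mem {B : Type u} [CommRing B] (I : Ideal B) (D x m u : B) (n : ℕ) (hn : n ≠ 0)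
    (h : D ∣ u * x - m ^ n) (hD : D ∈ I) (hm : m ∈ I) : u * x ∈ I := by
  have h1 : u * x - m ^ n ∈ I := I.mem_of_dvd h hD
  have h2 : m ^ n ∈ I := Ideal.pow_mem_of_mem I hm n (Nat.pos_of_ne_zero hn)
  have e : u * x = (u * x - m ^ n) + m ^ n := by ring
  rw [e]
  exact I.add_mem h1 h2

theorem An_rad {B : Type u} [CommRing B] (D x m u : B) (n : ℕ)
    (h : D ∣ u * x - m ^ n) : m ∈ (Ideal.span {D, x}).radical := by
  obtain ⟨c, hc⟩ := h
  refine ⟨n, Ideal.mem_span_pair.2 ⟨-c, u, ?_⟩⟩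
  linear_combination hc

theorem fin_pow (P : Ideal A) [P.IsPrime] (hnp : ∀ ϖ : A, P ≠ Ideal.span {ϖ}) (α β γ δ1 δ2 : A)
    (j l : ℕ) (hne : α ∉ P ∨ γ ∉ P)
    (h : P = Ideal.span {α * γ - β ^ (j + l), α * δ2 - β ^ l * δ1, β ^ j * δ2 - γ * δ1}) :
    ∃ a b : A, a ∈ P ∧ b ∈ P ∧ P ≤ (Ideal.span {a, b}).radical ∧ GenSmooth P a := by
  have hP : P.IsPrime := inferInstance
  by_cases hn : j + l = 0
  · have hj : j = 0 := by omega
    have hl : l = 0 := by omega
    subst hj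
    subst hl
    refine fin_two P hnp (α * γ - β ^ (0 + 0)) (α * δ2 - β ^ 0 * δ1) ?_
    refine h.trans (le_antisymm ?_ ?_)
    · rw [Ideal.span_le]
      rintro z (rfl | rfl | rfl)
      · exact Ideal.subset_span (by simp)
      · exact Ideal.subset_span (by simp)
      · refine Ideal.mem_span_pair.2 ⟨-δ2, γ, ?_⟩
        rw [Nat.add_zero, pow_zero]
        ring
    · rw [Ideal.span_le]
      rintro z (rfl | rfl)
      · exact Ideal.subset_span (by simp)
      · exact Ideal.subset_span (by simp)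
  have hD : α * γ - β ^ (j + l) ∈ P := by
    rw [h]
    exact Ideal.subset_span (by simp)
  have h1 : α * δ2 - β ^ l * δ1 ∈ P := by
    rw [h]
    exact Ideal.subset_span (by simp)
  have h2 : β ^ j * δ2 - γ * δ1 ∈ P := by
    rw [h]
    exact Ideal.subset_span (by simp)
  have q1 := An_mem P _ _ _ _ _ hn (An_Q1 α β γ δ1 δ2 j l) hD h2
  have q2 := An_mem P _ _ _ _ _ hn (An_Q2 α β γ δ1 δ2 j l) hD h1
  have hQ : An_Q α β γ δ1 δ2 j l ∈ P := by
    rcases hne with hα | hγ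
    · exact (hP.mem_or_mem q2).resolve_left (fun h0 => hα (hP.mem_of_pow_mem l h0))
    · exact (hP.mem_or_mem q1).resolve_left (fun h0 => hγ (hP.mem_of_pow_mem j h0))
  refine ⟨α * γ - β ^ (j + l), An_Q α β γ δ1 δ2 j l, hD, hQ, ?_, ?_⟩
  · refine (le_of_eq h).trans ?_
    rw [Ideal.span_le]
    rintro z (rfl | rfl | rfl)
    · exact Ideal.le_radical (Ideal.subset_span (by simp))
    · exact An_rad _ _ _ _ _ (An_Q2 α β γ δ1 δ2 j l)
    · exact An_rad _ _ _ _ _ (An_Q1 α β γ δ1 δ2 j l)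
  · rcases hne with hα | hγ
    · refine genSmooth_of P hnp α _ (α * δ2 - β ^ l * δ1) hα hD h1 ?_
      rw [h]
      refine Fin_three _ _ _ _ _ ?_ ?_ ?_
      · exact Ideal.mul_mem_left _ _ (Ideal.subset_span (by simp))
      · exact Ideal.mul_mem_left _ _ (Ideal.subset_span (by simp))
      · refine Ideal.mem_span_pair.2 ⟨-δ1, β ^ j, ?_⟩
        rw [pow_add]
        ring
    · refine genSmooth_of P hnp γ _ (β ^ j * δ2 - γ * δ1) hγ hD h2 ?_
      rw [h]
      refine Fin_three _ _ _ _ _ ?_ ?_ ?_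
      · exact Ideal.mul_mem_left _ _ (Ideal.subset_span (by simp))
      · refine Ideal.mem_span_pair.2 ⟨δ2, β ^ l, ?_⟩
        rw [pow_add]
        ring
      · exact Ideal.mul_mem_left _ _ (Ideal.subset_span (by simp))

end STCI.M5
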