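import Pool.Agent.H24.M5.Six

/-!
# Row Colon (project MP_204867_M5)

`J = (I : z)` (`Submodule.colon`, or define it by hand). `m = (y, z)`, `f = u y^2 + z t ∈ I ≤ m^2`, `u` a unit, `t ∈ m`.
* `I = (f) + z J`: for `x ∈ I`, `x ∈ m^2 = (y^2, y z, z^2)`, so `x - c y^2 ∈ (z)`, so `x - (c u⁻¹) f ∈ (z) ∩ I = z J`.
* `length (B ⧸ J) + 2 = length (B ⧸ I)`: exact sequence `0 → B/J → B/I → B/(I + (z)) → 0`, the first map is multiplication by `z`
  (injective by the definition of `J`), `Module.length_eq_add_of_exact`. `I + (z) = (y^2, z)`. The length of `B/(y^2, z)` is `2`: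
  `(y^2, z) < m < ⊤`, `y ∉ (y^2, z)` by `lin_indep`-like arguments (`y (1 - c y) ∈ (z)`, so `y ∈ (z)`), and `m/(y^2, z)` is generated by
  `y` and killed by `m` (`Module.length_eq_one_iff`, simple module); only `≤ 5 → ≤ 3` is needed, so in fact only
  `length (B ⧸ (y^2, z)) ≥ 2` is used (`length_lt` twice).
-/

set_option autoImplicit false

namespace STCI.M5

open IsLocalRing

universe u

theorem colon_sq_le {B : Type u} [CommRing B] (y z x : B)
    (hx : x ∈ (Ideal.span {y, z} : Ideal B) ^ 2) : ∃ c w : B, x = c * y ^ 2 + z * w := by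
  rw [pow_two] at hx
  refine Submodule.mul_induction_on hx ?_ ?_
  · intro r hr s hs
    obtain ⟨a, b, rfl⟩ := Ideal.mem_span_pair.1 hr
    obtain ⟨c, d, rfl⟩ := Ideal.mem_span_pair.1 hs
    exact ⟨a * c, a * y * d + b * (c * y + d * z), by ring⟩
  · rintro r s ⟨a, b, rfl⟩ ⟨c, d, rfl⟩
    exact ⟨a + c, b + d, by ring⟩

theorem colon_length {B : Type u} [CommRing B] (I J : Ideal B) (z : B)
    (hJ : ∀ x, x ∈ J ↔ z * x ∈ I) :
    Module.length B (B ⧸ I) =
      Module.length B (B ⧸ J) + Module.length B (B ⧸ (I ⊔ Ideal.span {z})) := by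
  have hle : J ≤ Submodule.comap (LinearMap.mulLeft B z) I := fun x hx => (hJ x).1 hx
  have hle2 : I ≤ Submodule.comap (LinearMap.id : B →ₗ[B] B) (I ⊔ Ideal.span {z}) := fun x hx =>
    Ideal.mem_sup_left hx
  refine Module.length_eq_add_of_exact (Submodule.mapQ J I (LinearMap.mulLeft B z) hle)
    (Submodule.mapQ I (I ⊔ Ideal.span {z}) LinearMap.id hle2) ?_ ?_ ?_
  · rw [← LinearMap.ker_eq_bot, LinearMap.ker_eq_bot']
    intro x hx
    obtain ⟨x, rfl⟩ := Submodule.Quotient.mk_surjective _ x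
    rw [Submodule.mapQ_apply, Submodule.Quotient.mk_eq_zero] at hx
    rw [Submodule.Quotient.mk_eq_zero]
    exact (hJ x).2 hx
  · intro x
    obtain ⟨x, rfl⟩ := Submodule.Quotient.mk_surjective _ x
    exact ⟨Submodule.Quotient.mk x, rfl⟩
  · intro x
    obtain ⟨x, rfl⟩ := Submodule.Quotient.mk_surjective _ x
    rw [Submodule.mapQ_apply, Submodule.Quotient.mk_eq_zero, Set.mem_range]
    constructor
    · intro hx
      have hx' : x ∈ I ⊔ Ideal.span {z} := hx
      obtain ⟨i, hi, w, hw, hiw⟩ := Submodule.mem_sup.1 hx'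
      obtain ⟨c, rfl⟩ := Ideal.mem_span_singleton.1 hw
      refine ⟨Submodule.Quotient.mk c, ?_⟩
      rw [Submodule.mapQ_apply, Submodule.Quotient.eq]
      have : (LinearMap.mulLeft B z) c - x = -i := by
        rw [LinearMap.mulLeft_apply, ← hiw]; ring
      rw [this]
      exact neg_mem hi
    · rintro ⟨c, hc⟩
      obtain ⟨c, rfl⟩ := Submodule.Quotient.mk_surjective _ c
      rw [Submodule.mapQ_apply, Submodule.Quotient.eq] at hc
      have : (LinearMap.id : B →ₗ[B] B) x = z * c - ((LinearMap.mulLeft B z) c - x) := by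
        rw [LinearMap.mulLeft_apply, LinearMap.id_apply]; ring
      rw [this]
      exact Ideal.sub_mem _ (Ideal.mem_sup_right (Ideal.mul_mem_right _ _
        (Ideal.mem_span_singleton_self z))) (Ideal.mem_sup_left hc)

variable {B : Type u} [CommRing B] [IsDomain B] [IsLocalRing B] [IsNoetherianRing B]

theorem colon_step (hB : Reg2 B) (y z u t : B) (h : maximalIdeal B = Ideal.span {y, z})
    (hu : IsUnit u) (ht : t ∈ maximalIdeal B) (I : Ideal B) (hI : I ≤ maximalIdeal B ^ 2)
    (hf : u * y ^ 2 + z * t ∈ I) (hlen : Module.length B (B ⧸ I) ≤ 5) :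
    ∃ J : Ideal B, (∀ x, x ∈ J ↔ z * x ∈ I) ∧
      I = Ideal.span {u * y ^ 2 + z * t} ⊔ Ideal.span {z} * J ∧
      Module.length B (B ⧸ J) ≤ 3 := by
  have hJ : ∀ x, x ∈ (Submodule.comap (LinearMap.mulLeft B z) I : Ideal B) ↔ z * x ∈ I := fun x => Iff.rfl
  refine ⟨(Submodule.comap (LinearMap.mulLeft B z) I : Ideal B), hJ, ?_, ?_⟩
  · apply le_antisymm
    · intro x hx
      have hx2 := hI hx
      rw [h] at hx2
      obtain ⟨c, w, hxw⟩ := colon_sq_le y z x hx2
      obtain ⟨v, hv⟩ := hu.exists_left_inv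
      have h1 : x = (c * v) * (u * y ^ 2 + z * t) + z * (w - c * v * t) := by
        rw [hxw]
        linear_combination (-(c * y ^ 2)) * hv
      have h2 : z * (w - c * v * t) ∈ I := by
        have : z * (w - c * v * t) = x - (c * v) * (u * y ^ 2 + z * t) := by
          linear_combination -h1
        rw [this]
        exact Ideal.sub_mem _ hx (Ideal.mul_mem_left _ _ hf)
      rw [h1]
      exact Ideal.add_mem _ (Ideal.mem_sup_left (Ideal.mul_mem_left _ _
        (Ideal.mem_span_singleton_self _))) (Ideal.mem_sup_right (Ideal.mul_mem_mul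
          (Ideal.mem_span_singleton_self z) ((hJ _).2 h2)))
    · refine sup_le ((Ideal.span_singleton_le_iff_mem _).2 hf) ?_
      rw [Ideal.mul_le]
      intro r hr s hs
      obtain ⟨c, rfl⟩ := Ideal.mem_span_singleton.1 hr
      have : z * c * s = c * (z * s) := by ring
      rw [this]
      exact Ideal.mul_mem_left _ _ ((hJ s).1 hs)
  · have h1 := colon_length I _ z hJ
    have hzm : z ∈ maximalIdeal B := by
      rw [h]
      exact Ideal.subset_span (by simp)
    have hym : y ∈ maximalIdeal B := by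
      rw [h]
      exact Ideal.subset_span (by simp)
    have hle : I ⊔ Ideal.span {z} ≤ maximalIdeal B :=
      sup_le (hI.trans (Ideal.pow_le_self two_ne_zero))
        ((Ideal.span_singleton_le_iff_mem _).2 hzm)
    have hlt : I ⊔ Ideal.span {z} < maximalIdeal B := by
      refine lt_of_le_of_ne hle fun hc => ?_
      rw [← hc] at hym
      obtain ⟨i, hi, w, hw, hiw⟩ := Submodule.mem_sup.1 hym
      obtain ⟨c, rfl⟩ := Ideal.mem_span_singleton.1 hw
      have h2 : (1 : B) * y + (-c) * z ∈ maximalIdeal B ^ 2 := by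
        have : (1 : B) * y + (-c) * z = i := by rw [← hiw]; ring
        rw [this]
        exact hI hi
      exact (Ideal.ne_top_iff_one _).1 (IsLocalRing.maximalIdeal.isMaximal B).ne_top
        (lin_indep hB y z h 1 (-c) h2).1
    have hlt2 : maximalIdeal B < ⊤ := lt_top_iff_ne_top.2 (IsLocalRing.maximalIdeal.isMaximal B).ne_top
    have h2 := length_lt _ _ hlt
    have h3 := length_lt _ _ hlt2
    have h4 : (2 : ℕ∞) ≤ Module.length B (B ⧸ (I ⊔ Ideal.span {z})) := by
      refine le_trans ?_ h2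
      have h5 : (1 : ℕ∞) ≤ Module.length B (B ⧸ maximalIdeal B) := le_trans le_add_self h3
      calc (2 : ℕ∞) = 1 + 1 := by norm_num
        _ ≤ _ := by gcongr
    rw [h1] at hlen
    have h6 : Module.length B (B ⧸ (Submodule.comap (LinearMap.mulLeft B z) I : Ideal B)) + 2 ≤ 3 + 2 := by
      calc _ ≤ Module.length B (B ⧸ (Submodule.comap (LinearMap.mulLeft B z) I : Ideal B)) +
            Module.length B (B ⧸ (I ⊔ Ideal.span {z})) := by gcongr
        _ ≤ 5 := hlen
        _ = 3 + 2 := by norm_num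
    exact (ENat.add_le_add_iff_right (by norm_num)).1 h6

end STCI.M5
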