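import Pool.Agent.H24.LG.Defs

/-!
# Curves with singular points of multiplicity at most five: definitions

`Reg3 A`: the maximal ideal of the local ring `A` is generated by three elements, and no power of it is contained in an ideal generated by
two elements of the maximal ideal. `Reg2 B`: the same with two and one.
-/

set_option autoImplicit false

namespace STCI.M5

open IsLocalRing

universe u

/-- three-dimensional regular, in elementary terms -/
structure Reg3 (A : Type u) [CommRing A] [IsLocalRing A] : Prop where
  gen : ∃ x y z : A, maximalIdeal A = Ideal.span {x, y, z}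
  ht : ∀ a ∈ maximalIdeal A, ∀ b ∈ maximalIdeal A, ∀ n : ℕ,
    ¬ maximalIdeal A ^ n ≤ Ideal.span {a, b}

/-- two-dimensional regular, in elementary terms -/
structure Reg2 (B : Type u) [CommRing B] [IsLocalRing B] : Prop where
  gen : ∃ y z : B, maximalIdeal B = Ideal.span {y, z}
  ht : ∀ a ∈ maximalIdeal B, ∀ n : ℕ, ¬ maximalIdeal B ^ n ≤ Ideal.span {a}

end STCI.M5
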