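import Pool.Agent.H24.LG.Trans

/-!
# Row Desc: from the local ring at `m` back to `R` (project MP_204867_M5)

`A = Localization.AtPrime m`, `φ = algebraMap R A`, `PA = P.map φ`; `LG.mem_of_map : φ x ∈ PA ↔ x ∈ P`.
Proof. Write `a = φ a0 * unit`, `b = φ b0 * unit` (`IsLocalization.mk'_surjective`); `a0, b0 ∈ P`; `(a, b) = (φ a0, φ b0)`, and
`GenSmooth PA (φ a0)`. For a generator `x` of `P` (finitely many): `φ x ∈ (φ a0, φ b0).radical`, so `φ (x^n) ∈ (a0, b0).map φ`, so
`s_x x^n ∈ (a0, b0)`, `s_x ∉ m` (`IsLocalization.mem_map_algebraMap_iff`, `IsLocalization.eq_iff_exists`), so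
`s_x x ∈ (a0, b0).radical`; the product `s` of the `s_x` satisfies `s x ∈ (a0, b0).radical` for all `x ∈ P` (an ideal containing the
generators). `GenSmooth P a0`: if `t ∉ P`, `t a0 ∈ P^2`, then `φ t ∉ PA` and `φ t φ a0 ∈ PA^2`.
-/

set_option autoImplicit false

namespace STCI.M5

open STCI.LG

universe u

theorem desc {R : Type u} [CommRing R] [IsNoetherianRing R] (P m : Ideal R) [P.IsPrime]
    [m.IsPrime] (hPm : P ≤ m) (a b : Localization.AtPrime m)
    (ha : a ∈ P.map (algebraMap R (Localization.AtPrime m)))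
    (hb : b ∈ P.map (algebraMap R (Localization.AtPrime m)))
    (hrad : P.map (algebraMap R (Localization.AtPrime m)) ≤ (Ideal.span {a, b}).radical)
    (hs : GenSmooth (P.map (algebraMap R (Localization.AtPrime m))) a) :
    ∃ a0 b0 : R, CutNear P m a0 b0 ∧ GenSmooth P a0 := by
  obtain ⟨a0, t, rfl⟩ := IsLocalization.exists_mk'_eq m.primeCompl a
  obtain ⟨b0, t', rfl⟩ := IsLocalization.exists_mk'_eq m.primeCompl b
  have key : ∀ (x : R) (u : m.primeCompl),
      IsLocalization.mk' (Localization.AtPrime m) x u ∈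
        P.map (algebraMap R (Localization.AtPrime m)) → x ∈ P := by
    intro x u hx
    rw [IsLocalization.mk'_mem_map_algebraMap_iff] at hx
    obtain ⟨r, hr, h1⟩ := hx
    exact (Ideal.IsPrime.mem_or_mem inferInstance h1).resolve_left fun h2 => hr (hPm h2)
  have ha0 : a0 ∈ P := key a0 t ha
  have hb0 : b0 ∈ P := key b0 t' hb
  have hspan : Ideal.span {IsLocalization.mk' (Localization.AtPrime m) a0 t,
      IsLocalization.mk' (Localization.AtPrime m) b0 t'} ≤
      (Ideal.span {a0, b0}).map (algebraMap R (Localization.AtPrime m)) := by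
    rw [Ideal.span_le]
    intro z hz
    rcases hz with rfl | rfl
    · rw [SetLike.mem_coe, IsLocalization.mk'_mem_map_algebraMap_iff]
      exact ⟨1, m.primeCompl.one_mem, by
        rw [one_mul]; exact Ideal.subset_span (Or.inl rfl)⟩
    · rw [SetLike.mem_coe, IsLocalization.mk'_mem_map_algebraMap_iff]
      exact ⟨1, m.primeCompl.one_mem, by
        rw [one_mul]; exact Ideal.subset_span (Or.inr rfl)⟩
  have hloc : ∀ x ∈ P, ∃ s : R, s ∉ m ∧ s * x ∈ (Ideal.span {a0, b0} : Ideal R).radical := by
    intro x hx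
    obtain ⟨n, hn⟩ := hrad (Ideal.mem_map_of_mem _ hx)
    have h1 := hspan hn
    rw [← map_pow] at h1
    obtain ⟨s, hs1, hs2⟩ := (map_mem_iff _ m _).1 h1
    refine ⟨s, hs1, n + 1, ?_⟩
    have h2 : (s * x) ^ (n + 1) = (s ^ n * x) * (s * x ^ n) := by ring
    rw [h2]
    exact Ideal.mul_mem_left _ _ hs2
  obtain ⟨S, hS⟩ : P.FG := IsNoetherian.noetherian P
  have hex : ∃ s : R, s ∉ m ∧ ∀ x ∈ P, s * x ∈ (Ideal.span {a0, b0} : Ideal R).radical := by
    classical
    have h1 : ∀ S' : Finset R, S' ⊆ S → ∃ s : R, s ∉ m ∧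
        ∀ x ∈ S', s * x ∈ (Ideal.span {a0, b0} : Ideal R).radical := by
      intro S'
      induction S' using Finset.induction_on with
      | empty =>
        intro _
        exact ⟨1, fun h => (Ideal.IsPrime.ne_top (I := m) inferInstance)
          ((Ideal.eq_top_iff_one m).2 h), by simp⟩
      | insert y S' hy ih =>
        intro hsub
        obtain ⟨s, hs, h2⟩ := ih ((Finset.subset_insert _ _).trans hsub)
        have hyP : y ∈ P := by
          rw [← hS]
          exact Ideal.subset_span (hsub (Finset.mem_insert_self _ _))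
        obtain ⟨s', hs', h3⟩ := hloc y hyP
        refine ⟨s * s', fun h => (Ideal.IsPrime.mem_or_mem inferInstance h).elim hs hs', ?_⟩
        intro x hx
        rcases Finset.mem_insert.1 hx with rfl | hx
        · rw [mul_assoc]
          exact Ideal.mul_mem_left _ _ h3
        · rw [mul_comm s s', mul_assoc]
          exact Ideal.mul_mem_left _ _ (h2 x hx)
    obtain ⟨s, hs, h2⟩ := h1 S subset_rfl
    refine ⟨s, hs, ?_⟩
    intro x hx
    rw [← hS] at hx
    induction hx using Submodule.span_induction with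
    | mem x hx => exact h2 x hx
    | zero => rw [mul_zero]; exact Ideal.zero_mem _
    | add x y _ _ hx hy => rw [mul_add]; exact Ideal.add_mem _ hx hy
    | smul c x _ hx =>
      rw [smul_eq_mul, ← mul_assoc, mul_comm s c, mul_assoc]
      exact Ideal.mul_mem_left _ _ hx
  refine ⟨a0, b0, ⟨ha0, hb0, hex⟩, ?_⟩
  intro r hr hra
  refine hs (algebraMap R _ r) (fun h => hr ((mem_of_map P m hPm r).1 h)) ?_
  rw [← Ideal.map_pow]
  have h1 : algebraMap R (Localization.AtPrime m) r *
      IsLocalization.mk' (Localization.AtPrime m) a0 t =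
      IsLocalization.mk' (Localization.AtPrime m) (r * a0) t := by
    rw [← IsLocalization.mul_mk'_eq_mk'_of_mul]
  rw [h1, IsLocalization.mk'_mem_map_algebraMap_iff]
  exact ⟨1, m.primeCompl.one_mem, by rwa [one_mul]⟩

end STCI.M5
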