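import Pool.Agent.H24.LG.Chain

/-!
# Row Fin: two equations from a symmetric presentation (project MP_204867_M5)

`P` is a non-principal prime ideal of the factorial noetherian domain `A`.
* `principal_of`: if `d ∉ P`, `g ∈ P`, `d P ≤ (g)` then `P` is principal: `g ≠ 0` (else `P = 0 = (0)`), a prime factor `ϖ` of `g` is in `P`,
  `d ∉ (ϖ)` since `(ϖ) ≤ P`, so `P = (ϖ)`.
* `genSmooth_of`: `d ∉ P`, `d P ≤ (f, g)`, `f, g ∈ P`. If `t f ∈ P^2`, `t ∉ P`, then `d t P ≤ (t f, g) ≤ (g, g) + P^2`, so by `LG.nak_at`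
  (with `w = g`) there is `d' ∉ P` with `d' P ≤ (g, g) = (g)`; contradiction by `principal_of`.
* `fin_sym`. Step 1: we may assume `α ∉ P` or `γ ∉ P`. Suppose `α, γ ∈ P`. Then `β^2 = α γ - (α γ - β^2) ∈ P`, so `β ∈ P`. Replace
  `(α, β, γ)` by `(α + δ1^2, β + δ1 δ2, γ + δ2^2)`: the ideal `(α γ - β^2, α δ2 - β δ1, β δ2 - γ δ1)` does not change, since
  `α' γ' - β'^2 = α γ - β^2 + δ2 (α δ2 - β δ1) - δ1 (β δ2 - γ δ1)`, `α' δ2 - β' δ1 = α δ2 - β δ1`, `β' δ2 - γ' δ1 = β δ2 - γ δ1`.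
  If still `α', γ' ∈ P` then `δ1, δ2 ∈ P`, and then all entries are in `P`, so `P ≤ P^2`, `P = 0` by Nakayama (or: `LG.nak_at` with
  `g = w = 0`, `d = 1` and `principal_of`), contradiction.
  Step 2: `D = α γ - β^2`, `Q = γ δ1^2 - 2 β δ1 δ2 + α δ2^2`, `m1 = α δ2 - β δ1`, `m2 = β δ2 - γ δ1`. `α Q = m1^2 + D δ1^2`,
  `γ Q = m2^2 + D δ2^2`. So `Q ∈ P`, and `m1, m2` are in the radical of `(D, Q)`; so `P ≤ (D, Q).radical`. `a = D`, `b = Q`.
  `GenSmooth P D`: `α m2 - β m1 + δ1 D = 0` and `γ m1 - β m2 - δ2 D = 0` (check the signs with `ring`), so if `α ∉ P` then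
  `α P ≤ (D, m1)` and if `γ ∉ P` then `γ P ≤ (D, m2)`: `genSmooth_of`.
* `fin_two`: `P = (f, g)`: `a = f`, `b = g`.
-/

set_option autoImplicit false

namespace STCI.M5

open STCI.LG

universe u

variable {A : Type u} [CommRing A] [IsDomain A] [IsNoetherianRing A] [UniqueFactorizationMonoid A]

theorem principal_of (P : Ideal A) [P.IsPrime] (d g : A) (hd : d ∉ P) (hg : g ∈ P)
    (h : ∀ x ∈ P, d * x ∈ Ideal.span {g}) : ∃ ϖ : A, P = Ideal.span {ϖ} := by
  have hP : P.IsPrime := inferInstance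
  have _ : IsNoetherianRing A := inferInstance
  by_cases hg0 : g = 0
  · refine ⟨0, le_antisymm ?_ ?_⟩
    · intro x hx
      have h2 := h x hx
      rw [hg0, Ideal.mem_span_singleton, zero_dvd_iff] at h2
      rcases mul_eq_zero.1 h2 with h3 | h3
      · exact absurd (h3 ▸ P.zero_mem) hd
      · rw [h3]
        exact Ideal.zero_mem _
    · rw [Ideal.span_singleton_le_iff_mem]
      exact P.zero_mem
  · obtain ⟨π, hπ, hπP, hπg⟩ : ∃ π : A, Prime π ∧ π ∈ P ∧ π ∣ g := by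
      obtain ⟨f, hf, hfg⟩ := UniqueFactorizationMonoid.exists_prime_factors g hg0
      obtain ⟨u, hu⟩ := hfg
      have h2 : f.prod ∈ P := by
        have h3 : f.prod * (u : A) ∈ P := by rw [hu]; exact hg
        exact (hP.mem_or_mem h3).resolve_right
          (fun h => hP.ne_top (Ideal.eq_top_of_isUnit_mem _ h u.isUnit))
      obtain ⟨π, h3, h4⟩ := (hP.multiset_prod_mem_iff_exists_mem f).1 h2
      exact ⟨π, hf π h3, h4, (Multiset.dvd_prod h3).trans ⟨u, hu.symm⟩⟩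
    refine ⟨π, le_antisymm ?_ ?_⟩
    · intro x hx
      have h5 := hπg.trans (Ideal.mem_span_singleton.1 (h x hx))
      rcases hπ.dvd_or_dvd h5 with h6 | h6
      · exact absurd (P.mem_of_dvd h6 hπP) hd
      · exact Ideal.mem_span_singleton.2 h6
    · rw [Ideal.span_singleton_le_iff_mem]
      exact hπP

theorem genSmooth_of (P : Ideal A) [P.IsPrime] (hnp : ∀ ϖ : A, P ≠ Ideal.span {ϖ}) (d f g : A)
    (hd : d ∉ P) (hf : f ∈ P) (hg : g ∈ P) (h : ∀ x ∈ P, d * x ∈ Ideal.span {f, g}) :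
    GenSmooth P f := by
  have hP : P.IsPrime := inferInstance
  have _ := hf
  intro t ht hmem
  have htd : t * d ∉ P := fun h0 => (hP.mem_or_mem h0).elim ht hd
  obtain ⟨d', hd', h2⟩ := nak_at P g g (t * d) hg hg htd (fun p hp => by
    obtain ⟨a, b, hab⟩ := Ideal.mem_span_pair.1 (h p hp)
    have e : t * d * p = t * b * g + a * (t * f) := by
      rw [mul_assoc, ← hab]
      ring
    rw [e]
    refine Ideal.add_mem _ (Ideal.mem_sup_left (Ideal.mul_mem_left _ _ (Ideal.subset_span (by simp))))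
      (Ideal.mem_sup_right (Ideal.mul_mem_left _ _ hmem)))
  have e : (Ideal.span {g, g} : Ideal A) = Ideal.span {g} := by simp
  rw [e] at h2
  obtain ⟨ϖ, hϖ⟩ := principal_of P d' g hd' hg h2
  exact hnp ϖ hϖ

theorem Fin_three {B : Type u} [CommRing B] (I : Ideal B) (x y z d : B)
    (hx : d * x ∈ I) (hy : d * y ∈ I) (hz : d * z ∈ I) :
    ∀ p ∈ Ideal.span ({x, y, z} : Set B), d * p ∈ I := by
  intro p hp
  refine Submodule.span_induction (p := fun p _ => d * p ∈ I) ?_ ?_ ?_ ?_ hp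
  · rintro a (rfl | rfl | rfl)
    · exact hx
    · exact hy
    · exact hz
  · rw [mul_zero]
    exact I.zero_mem
  · intro a b _ _ ha hb
    rw [mul_add]
    exact I.add_mem ha hb
  · intro c a _ ha
    have e : d * (c • a) = c * (d * a) := by
      rw [smul_eq_mul]
      ring
    rw [e]
    exact I.mul_mem_left _ ha

theorem Fin_nil (P : Ideal A) [P.IsPrime] (hnp : ∀ ϖ : A, P ≠ Ideal.span {ϖ}) (h : P ≤ P ^ 2) : False := by
  have h1 : (1 : A) ∉ P := (Ideal.ne_top_iff_one P).1 (Ideal.IsPrime.ne_top ‹_›)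
  obtain ⟨d', hd', h2⟩ := nak_at P 0 0 1 P.zero_mem P.zero_mem h1 (fun p hp => by
    rw [one_mul]
    exact Ideal.mem_sup_right (h hp))
  have e : (Ideal.span {0, 0} : Ideal A) = Ideal.span {0} := by simp
  rw [e] at h2
  obtain ⟨ϖ, hϖ⟩ := principal_of P d' 0 hd' P.zero_mem h2
  exact hnp ϖ hϖ

theorem Fin_core (P : Ideal A) [P.IsPrime] (hnp : ∀ ϖ : A, P ≠ Ideal.span {ϖ}) (α β γ δ1 δ2 : A)
    (h : P = Ideal.span {α * γ - β ^ 2, α * δ2 - β * δ1, β * δ2 - γ * δ1}) (hn : α ∉ P ∨ γ ∉ P) :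
    ∃ a b : A, a ∈ P ∧ b ∈ P ∧ P ≤ (Ideal.span {a, b}).radical ∧ GenSmooth P a := by
  have hD : α * γ - β ^ 2 ∈ P := by
    rw [h]
    exact Ideal.subset_span (by simp)
  have h1 : α * δ2 - β * δ1 ∈ P := by
    rw [h]
    exact Ideal.subset_span (by simp)
  have h2 : β * δ2 - γ * δ1 ∈ P := by
    rw [h]
    exact Ideal.subset_span (by simp)
  have hQ : γ * δ1 ^ 2 - 2 * β * δ1 * δ2 + α * δ2 ^ 2 ∈ P := by
    have e : γ * δ1 ^ 2 - 2 * β * δ1 * δ2 + α * δ2 ^ 2 =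
        δ2 * (α * δ2 - β * δ1) - δ1 * (β * δ2 - γ * δ1) := by ring
    rw [e]
    exact P.sub_mem (P.mul_mem_left _ h1) (P.mul_mem_left _ h2)
  refine ⟨α * γ - β ^ 2, γ * δ1 ^ 2 - 2 * β * δ1 * δ2 + α * δ2 ^ 2, hD, hQ, ?_, ?_⟩
  · rw [h, Ideal.span_le]
    rintro z (rfl | rfl | rfl)
    · exact Ideal.le_radical (Ideal.subset_span (by simp))
    · refine ⟨2, Ideal.mem_span_pair.2 ⟨-δ1 ^ 2, α, ?_⟩⟩
      ring
    · refine ⟨2, Ideal.mem_span_pair.2 ⟨-δ2 ^ 2, γ, ?_⟩⟩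
      ring
  · rcases hn with hα | hγ
    · refine genSmooth_of P hnp α _ (α * δ2 - β * δ1) hα hD h1 ?_
      rw [h]
      refine Fin_three _ _ _ _ _ ?_ ?_ ?_
      · exact Ideal.mul_mem_left _ _ (Ideal.subset_span (by simp))
      · exact Ideal.mul_mem_left _ _ (Ideal.subset_span (by simp))
      · refine Ideal.mem_span_pair.2 ⟨-δ1, β, ?_⟩
        ring
    · refine genSmooth_of P hnp γ _ (β * δ2 - γ * δ1) hγ hD h2 ?_
      rw [h]
      refine Fin_three _ _ _ _ _ ?_ ?_ ?_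
      · exact Ideal.mul_mem_left _ _ (Ideal.subset_span (by simp))
      · refine Ideal.mem_span_pair.2 ⟨δ2, β, ?_⟩
        ring
      · exact Ideal.mul_mem_left _ _ (Ideal.subset_span (by simp))

theorem fin_sym (P : Ideal A) [P.IsPrime] (hnp : ∀ ϖ : A, P ≠ Ideal.span {ϖ}) (α β γ δ1 δ2 : A)
    (h : P = Ideal.span {α * γ - β ^ 2, α * δ2 - β * δ1, β * δ2 - γ * δ1}) :
    ∃ a b : A, a ∈ P ∧ b ∈ P ∧ P ≤ (Ideal.span {a, b}).radical ∧ GenSmooth P a := by
  have hP : P.IsPrime := inferInstance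
  by_cases hαγ : α ∈ P ∧ γ ∈ P
  · obtain ⟨hα, hγ⟩ := hαγ
    have hD : α * γ - β ^ 2 ∈ P := by
      rw [h]
      exact Ideal.subset_span (by simp)
    have hβ : β ∈ P := by
      refine hP.mem_of_pow_mem 2 ?_
      have e : β ^ 2 = α * γ - (α * γ - β ^ 2) := by ring
      rw [e]
      exact P.sub_mem (P.mul_mem_right _ hα) hD
    by_cases h' : α + δ1 ^ 2 ∈ P ∧ γ + δ2 ^ 2 ∈ P
    · exfalso
      have hδ1 : δ1 ∈ P := by
        refine hP.mem_of_pow_mem 2 ?_
        have := P.sub_mem h'.1 hα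
        rwa [add_sub_cancel_left] at this
      have hδ2 : δ2 ∈ P := by
        refine hP.mem_of_pow_mem 2 ?_
        have := P.sub_mem h'.2 hγ
        rwa [add_sub_cancel_left] at this
      refine Fin_nil P hnp ?_
      have hm : ∀ x ∈ P, ∀ y ∈ P, x * y ∈ P ^ 2 := by
        intro x hx y hy
        rw [pow_two]
        exact Ideal.mul_mem_mul hx hy
      have h0 : Ideal.span {α * γ - β ^ 2, α * δ2 - β * δ1, β * δ2 - γ * δ1} ≤ P ^ 2 := by
        rw [Ideal.span_le]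
        rintro z (rfl | rfl | rfl)
        · exact Ideal.sub_mem _ (hm _ hα _ hγ) (Ideal.pow_mem_pow hβ 2)
        · exact Ideal.sub_mem _ (hm _ hα _ hδ2) (hm _ hβ _ hδ1)
        · exact Ideal.sub_mem _ (hm _ hβ _ hδ2) (hm _ hγ _ hδ1)
      exact (le_of_eq h).trans h0
    · refine Fin_core P hnp (α + δ1 ^ 2) (β + δ1 * δ2) (γ + δ2 ^ 2) δ1 δ2 ?_ (by tauto)
      have e1 : (α + δ1 ^ 2) * δ2 - (β + δ1 * δ2) * δ1 = α * δ2 - β * δ1 := by ring
      have e2 : (β + δ1 * δ2) * δ2 - (γ + δ2 ^ 2) * δ1 = β * δ2 - γ * δ1 := by ring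
      have e3 : (α + δ1 ^ 2) * (γ + δ2 ^ 2) - (β + δ1 * δ2) ^ 2 = (α * γ - β ^ 2) +
          (δ2 * (α * δ2 - β * δ1) - δ1 * (β * δ2 - γ * δ1)) := by ring
      have h1 : α * δ2 - β * δ1 ∈ P := by
        rw [h]
        exact Ideal.subset_span (by simp)
      have h2 : β * δ2 - γ * δ1 ∈ P := by
        rw [h]
        exact Ideal.subset_span (by simp)
      rw [e1, e2]
      apply le_antisymm
      · have h3 : Ideal.span {α * γ - β ^ 2, α * δ2 - β * δ1, β * δ2 - γ * δ1} ≤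
            Ideal.span {(α + δ1 ^ 2) * (γ + δ2 ^ 2) - (β + δ1 * δ2) ^ 2, α * δ2 - β * δ1,
              β * δ2 - γ * δ1} := by
          rw [Ideal.span_le]
          rintro z (rfl | rfl | rfl)
          · have e4 : α * γ - β ^ 2 = (α + δ1 ^ 2) * (γ + δ2 ^ 2) - (β + δ1 * δ2) ^ 2 -
                (δ2 * (α * δ2 - β * δ1) - δ1 * (β * δ2 - γ * δ1)) := by
              rw [e3]
              ring
            rw [e4]
            exact Ideal.sub_mem _ (Ideal.subset_span (by simp))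
              (Ideal.sub_mem _ (Ideal.mul_mem_left _ _ (Ideal.subset_span (by simp)))
                (Ideal.mul_mem_left _ _ (Ideal.subset_span (by simp))))
          · exact Ideal.subset_span (by simp)
          · exact Ideal.subset_span (by simp)
        exact (le_of_eq h).trans h3
      · rw [Ideal.span_le]
        rintro z (rfl | rfl | rfl)
        · rw [e3]
          exact P.add_mem hD (P.sub_mem (P.mul_mem_left _ h1) (P.mul_mem_left _ h2))
        · exact h1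
        · exact h2
  · exact Fin_core P hnp α β γ δ1 δ2 h (by tauto)

theorem fin_two (P : Ideal A) [P.IsPrime] (hnp : ∀ ϖ : A, P ≠ Ideal.span {ϖ}) (f g : A)
    (h : P = Ideal.span {f, g}) :
    ∃ a b : A, a ∈ P ∧ b ∈ P ∧ P ≤ (Ideal.span {a, b}).radical ∧ GenSmooth P a := by
  have hf : f ∈ P := by
    rw [h]
    exact Ideal.subset_span (by simp)
  have hg : g ∈ P := by
    rw [h]
    exact Ideal.subset_span (by simp)
  have h1 : (1 : A) ∉ P := (Ideal.ne_top_iff_one P).1 (Ideal.IsPrime.ne_top ‹_›)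
  refine ⟨f, g, hf, hg, (le_of_eq h).trans Ideal.le_radical, ?_⟩
  refine genSmooth_of P hnp 1 f g h1 hf hg ?_
  intro x hx
  rw [one_mul]
  exact (le_of_eq h) hx

end STCI.M5
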