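import Pool.Agent.H24.M5.HB

/-!
# Row Lift: Hilbert-Burch matrices lift (project MP_204867_M5)

`π : A → B` surjective with kernel `(l)`, `l ∉ P`, `P` prime, `I = π(P)`.
`nak_lift`: if `p ∈ P`'s are such that their images generate `I`, then they generate `P`: for `x ∈ P`, `π x = Σ c_i π p_i`, so
`x - Σ c_i p_i ∈ (l) ∩ P = l P` (`l ∉ P`, `P` prime); so `P ≤ (p) + m P`, and Nakayama (`Submodule.le_of_le_smul_of_le_jacobson_bot`).

`lift`. `I = (f, z^n h1, z^n h2)`, `f = α h1 + β h2`. Take `p1, p2, p3 ∈ P` over `f, z^n h1, z^n h2` (`Ideal.mem_map_iff_of_surjective`); `P = (p1, p2, p3)`.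
Relations lift: if `c1 f + c2 z^n h1 + c3 z^n h2 = 0` in `B` there are `c'_i ∈ A` over `c_i` with `Σ c'_i p_i = 0`: take any lifts `c''_i`;
`Σ c''_i p_i ∈ (l) ∩ P = l P`, so `= l Σ d_i p_i`; `c'_i = c''_i - l d_i`. Apply this to `(z^n, -α, -β)` and `(0, h2, -h1)`: rows
`r1 = (e11, e12, e13)`, `r2 = (e21, e22, e23)` with `r1 · p = r2 · p = 0`. Let
`D1 = e12 e23 - e13 e22`, `D2 = e13 e21 - e11 e23`, `D3 = e11 e22 - e12 e21`. Then `p_i D_j = p_j D_i` (`linear_combination` of the two
relations) and `π D1 = f`, `π D2 = z^n h1`, `π D3 = z^n h2`.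
Claim `D_i ∈ P`. Suppose `D_j ∉ P` for some `j`: `D_j p_i = p_j D_i ∈ (p_j)` for all `i`, so `D_j P ≤ (p_j)`. `p_j ≠ 0` (else `P = 0 = (0)`, as
`D_j ≠ 0`); a prime factor `ϖ` of `p_j` is in `P`; `D_j x ∈ (ϖ)` and `D_j ∉ (ϖ)` (as `(ϖ) ≤ P`), so `P = (ϖ)`, contradiction to `hnp`.
So `D_i ∈ P`, their images generate `I`, and `P = (D1, D2, D3)` by `nak_lift`.
The maximal ideal: `m_A = π⁻¹(m_B)`, `m_B = (z^n, α, β, h1, h2) = (π e11, π e12, π e13, π e22, π e23)`.
(The hypothesis on relations in `HBForm` is not needed here.)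
-/

set_option autoImplicit false

namespace STCI.M5

open IsLocalRing

universe u

variable {A B : Type u} [CommRing A] [IsDomain A] [IsLocalRing A] [IsNoetherianRing A]
  [CommRing B] [IsLocalRing B]

omit [IsDomain A] in
theorem Lift_ker (π : A →+* B) (l : A) (hker : RingHom.ker π = Ideal.span {l}) {x : A}
    (hx : π x = 0) : ∃ c, x = l * c := by
  have h1 : x ∈ RingHom.ker π := hx
  rw [hker, Ideal.mem_span_singleton] at h1
  exact h1

theorem nak_lift (π : A →+* B) (hπ : Function.Surjective π) (l : A)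
    (hker : RingHom.ker π = Ideal.span {l}) (hl : l ∈ maximalIdeal A) (P : Ideal A) [P.IsPrime]
    (hlP : l ∉ P) (Q : Ideal A) (hQP : Q ≤ P) (hQ : P.map π ≤ Q.map π) : P = Q := by
  refine le_antisymm ?_ hQP
  have h0 : P ≤ Q ⊔ maximalIdeal A • P := by
    intro x hx
    have h1 : π x ∈ Q.map π := hQ (Ideal.mem_map_of_mem π hx)
    obtain ⟨q, hq, hqx⟩ := (Ideal.mem_map_iff_of_surjective π hπ).1 h1
    obtain ⟨c, hc⟩ := Lift_ker π l hker (x := x - q) (by rw [map_sub, hqx, sub_self])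
    have h2 : l * c ∈ P := by
      rw [← hc]
      exact P.sub_mem hx (hQP hq)
    have h3 : c ∈ P := ((inferInstance : P.IsPrime).mem_or_mem h2).resolve_left hlP
    have h4 : x = q + l * c := by
      rw [← hc]
      ring
    rw [h4]
    exact Submodule.add_mem_sup hq (Submodule.smul_mem_smul hl h3)
  exact Submodule.le_of_le_smul_of_le_jacobson_bot (IsNoetherian.noetherian P)
    (IsLocalRing.maximalIdeal_le_jacobson ⊥) h0

omit [IsDomain A] [IsLocalRing A] [IsNoetherianRing A] in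
theorem Lift_span {p1 p2 p3 x : A} (h : x ∈ Ideal.span {p1, p2, p3}) :
    ∃ c1 c2 c3, x = c1 * p1 + c2 * p2 + c3 * p3 := by
  rw [Ideal.mem_span_insert] at h
  obtain ⟨a, y, hy, rfl⟩ := h
  rw [Ideal.mem_span_pair] at hy
  obtain ⟨b, c, rfl⟩ := hy
  exact ⟨a, b, c, by ring⟩

omit [IsDomain A] in
theorem Lift_rel (π : A →+* B) (hπ : Function.Surjective π) (l : A)
    (hker : RingHom.ker π = Ideal.span {l}) (P : Ideal A) [P.IsPrime] (hlP : l ∉ P)
    {p1 p2 p3 : A} (hP : P = Ideal.span {p1, p2, p3}) {c1 c2 c3 : B}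
    (h : c1 * π p1 + c2 * π p2 + c3 * π p3 = 0) : ∃ e1 e2 e3 : A, π e1 = c1 ∧ π e2 = c2 ∧
      π e3 = c3 ∧ e1 * p1 + e2 * p2 + e3 * p3 = 0 := by
  obtain ⟨a1, rfl⟩ := hπ c1
  obtain ⟨a2, rfl⟩ := hπ c2
  obtain ⟨a3, rfl⟩ := hπ c3
  have m1 : p1 ∈ P := by rw [hP]; exact Ideal.subset_span (by simp)
  have m2 : p2 ∈ P := by rw [hP]; exact Ideal.subset_span (by simp)
  have m3 : p3 ∈ P := by rw [hP]; exact Ideal.subset_span (by simp)
  obtain ⟨d, hd⟩ := Lift_ker π l hker (x := a1 * p1 + a2 * p2 + a3 * p3)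
    (by rw [map_add, map_add, map_mul, map_mul, map_mul]; exact h)
  have h2 : l * d ∈ P := by
    rw [← hd]
    exact P.add_mem (P.add_mem (P.mul_mem_left _ m1) (P.mul_mem_left _ m2)) (P.mul_mem_left _ m3)
  have h3 : d ∈ P := ((inferInstance : P.IsPrime).mem_or_mem h2).resolve_left hlP
  rw [hP] at h3
  obtain ⟨d1, d2, d3, rfl⟩ := Lift_span h3
  have hl0 : π l = 0 := by
    have : l ∈ RingHom.ker π := by
      rw [hker]
      exact Ideal.mem_span_singleton_self l
    exact this
  refine ⟨a1 - l * d1, a2 - l * d2, a3 - l * d3, ?_, ?_, ?_, ?_⟩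
  · rw [map_sub, map_mul, hl0, zero_mul, sub_zero]
  · rw [map_sub, map_mul, hl0, zero_mul, sub_zero]
  · rw [map_sub, map_mul, hl0, zero_mul, sub_zero]
  · linear_combination hd

omit [IsLocalRing A] [IsNoetherianRing A] in
theorem Lift_no [UniqueFactorizationMonoid A] (P : Ideal A) [hPp : P.IsPrime]
    (hnp : ∀ ϖ : A, P ≠ Ideal.span {ϖ}) {D p : A} (hD : D ∉ P) (hp : p ∈ P)
    (h : ∀ x ∈ P, p ∣ D * x) : False := by
  by_cases hp0 : p = 0
  · apply hnp 0
    refine le_antisymm (fun x hx => ?_) ?_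
    · have h1 := h x hx
      rw [hp0, zero_dvd_iff, mul_eq_zero] at h1
      rcases h1 with h1 | h1
      · exact absurd (by rw [h1]; exact P.zero_mem) hD
      · rw [h1]
        exact Ideal.zero_mem _
    · rw [Ideal.span_le, Set.singleton_subset_iff]
      exact P.zero_mem
  · obtain ⟨ϖ, hϖ, hϖP⟩ : ∃ ϖ ∈ UniqueFactorizationMonoid.factors p, ϖ ∈ P := by
      rw [← hPp.multiset_prod_mem_iff_exists_mem]
      have h1 := (UniqueFactorizationMonoid.factors_prod hp0).symm
      obtain ⟨u, hu⟩ := h1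
      rw [← hu]
      exact P.mul_mem_right _ hp
    have hpr : Prime ϖ := UniqueFactorizationMonoid.prime_of_factor ϖ hϖ
    have hdv : ϖ ∣ p := UniqueFactorizationMonoid.dvd_of_mem_factors hϖ
    apply hnp ϖ
    refine le_antisymm (fun x hx => ?_) ?_
    · rw [Ideal.mem_span_singleton]
      rcases hpr.dvd_or_dvd (hdv.trans (h x hx)) with h1 | h1
      · obtain ⟨c, rfl⟩ := h1
        exact absurd (P.mul_mem_right _ hϖP) hD
      · exact h1
    · rw [Ideal.span_le, Set.singleton_subset_iff]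
      exact hϖP

theorem lift [UniqueFactorizationMonoid A] (π : A →+* B) (hπ : Function.Surjective π) (l : A)
    (hker : RingHom.ker π = Ideal.span {l}) (hl : l ∈ maximalIdeal A) (P : Ideal A) [P.IsPrime]
    (hlP : l ∉ P) (hnp : ∀ ϖ : A, P ≠ Ideal.span {ϖ}) (h : HBForm (P.map π)) :
    ∃ e11 e12 e13 e21 e22 e23 : A,
      P = Ideal.span {e12 * e23 - e13 * e22, e13 * e21 - e11 * e23, e11 * e22 - e12 * e21} ∧
      maximalIdeal A = Ideal.span {e11, e12, e13, e21, e22, e23, l} := by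
  obtain ⟨n, z, h1, h2, α, β, -, -, -, hI, hm⟩ := h
  have hex : ∀ b ∈ P.map π, ∃ p ∈ P, π p = b := fun b hb =>
    (Ideal.mem_map_iff_of_surjective π hπ).1 hb
  obtain ⟨p1, hp1, e1⟩ := hex (α * h1 + β * h2) (by rw [hI]; exact Ideal.subset_span (by simp))
  obtain ⟨p2, hp2, e2⟩ := hex (z ^ n * h1) (by rw [hI]; exact Ideal.subset_span (by simp))
  obtain ⟨p3, hp3, e3⟩ := hex (z ^ n * h2) (by rw [hI]; exact Ideal.subset_span (by simp))
  have hgen : ∀ q1 ∈ P, ∀ q2 ∈ P, ∀ q3 ∈ P, π q1 = α * h1 + β * h2 → π q2 = z ^ n * h1 →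
      π q3 = z ^ n * h2 → P = Ideal.span {q1, q2, q3} := by
    intro q1 hq1 q2 hq2 q3 hq3 i1 i2 i3
    refine nak_lift π hπ l hker hl P hlP _ ?_ ?_
    · rw [Ideal.span_le]
      intro x hx
      simp only [Set.mem_insert_iff, Set.mem_singleton_iff] at hx
      rcases hx with rfl | rfl | rfl <;> assumption
    · rw [hI, Ideal.span_le]
      intro x hx
      simp only [Set.mem_insert_iff, Set.mem_singleton_iff] at hx
      rcases hx with rfl | rfl | rfl
      · rw [← i1]
        exact Ideal.mem_map_of_mem π (Ideal.subset_span (by simp))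
      · rw [← i2]
        exact Ideal.mem_map_of_mem π (Ideal.subset_span (by simp))
      · rw [← i3]
        exact Ideal.mem_map_of_mem π (Ideal.subset_span (by simp))
  have hP := hgen p1 hp1 p2 hp2 p3 hp3 e1 e2 e3
  obtain ⟨e11, e12, e13, j11, j12, j13, R1⟩ := Lift_rel π hπ l hker P hlP hP
    (c1 := z ^ n) (c2 := -α) (c3 := -β) (by rw [e1, e2, e3]; ring)
  obtain ⟨e21, e22, e23, j21, j22, j23, R2⟩ := Lift_rel π hπ l hker P hlP hP
    (c1 := 0) (c2 := h2) (c3 := -h1) (by rw [e1, e2, e3]; ring)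
  have k1 : π (e12 * e23 - e13 * e22) = α * h1 + β * h2 := by
    rw [map_sub, map_mul, map_mul, j12, j13, j22, j23]
    ring
  have k2 : π (e13 * e21 - e11 * e23) = z ^ n * h1 := by
    rw [map_sub, map_mul, map_mul, j13, j21, j11, j23]
    ring
  have k3 : π (e11 * e22 - e12 * e21) = z ^ n * h2 := by
    rw [map_sub, map_mul, map_mul, j11, j12, j21, j22]
    ring
  set D1 : A := e12 * e23 - e13 * e22 with hD1
  set D2 : A := e13 * e21 - e11 * e23 with hD2
  set D3 : A := e11 * e22 - e12 * e21 with hD3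
  have s12 : p1 * D2 = p2 * D1 := by
    rw [hD1, hD2]
    linear_combination e13 * R2 - e23 * R1
  have s13 : p1 * D3 = p3 * D1 := by
    rw [hD1, hD3]
    linear_combination e22 * R1 - e12 * R2
  have s23 : p2 * D3 = p3 * D2 := by
    rw [hD2, hD3]
    linear_combination e11 * R2 - e21 * R1
  have mem1 : D1 ∈ P := by
    by_contra hc
    refine Lift_no P hnp hc hp1 fun x hx => ?_
    rw [hP] at hx
    obtain ⟨c1, c2, c3, rfl⟩ := Lift_span hx
    exact ⟨c1 * D1 + c2 * D2 + c3 * D3, by linear_combination -c2 * s12 - c3 * s13⟩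
  have mem2 : D2 ∈ P := by
    by_contra hc
    refine Lift_no P hnp hc hp2 fun x hx => ?_
    rw [hP] at hx
    obtain ⟨c1, c2, c3, rfl⟩ := Lift_span hx
    exact ⟨c1 * D1 + c2 * D2 + c3 * D3, by linear_combination c1 * s12 - c3 * s23⟩
  have mem3 : D3 ∈ P := by
    by_contra hc
    refine Lift_no P hnp hc hp3 fun x hx => ?_
    rw [hP] at hx
    obtain ⟨c1, c2, c3, rfl⟩ := Lift_span hx
    exact ⟨c1 * D1 + c2 * D2 + c3 * D3, by linear_combination c1 * s13 + c2 * s23⟩
  refine ⟨e11, e12, e13, e21, e22, e23, hgen D1 mem1 D2 mem2 D3 mem3 k1 k2 k3, ?_⟩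
  have hcm : (maximalIdeal B).comap π = maximalIdeal A :=
    IsLocalRing.eq_maximalIdeal (Ideal.comap_isMaximal_of_surjective π hπ)
  have hin : ∀ x, π x ∈ maximalIdeal B → x ∈ maximalIdeal A := by
    intro x hx
    rw [← hcm]
    exact hx
  have t1 : z ^ n ∈ maximalIdeal B := by rw [hm]; exact Ideal.subset_span (by simp)
  have t2 : α ∈ maximalIdeal B := by rw [hm]; exact Ideal.subset_span (by simp)
  have t3 : β ∈ maximalIdeal B := by rw [hm]; exact Ideal.subset_span (by simp)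
  have t4 : h1 ∈ maximalIdeal B := by rw [hm]; exact Ideal.subset_span (by simp)
  have t5 : h2 ∈ maximalIdeal B := by rw [hm]; exact Ideal.subset_span (by simp)
  apply le_antisymm
  · have h5 : maximalIdeal B ≤
        (Ideal.span ({e11, e12, e13, e21, e22, e23, l} : Set A)).map π := by
      have g1 : ∀ x ∈ ({e11, e12, e13, e21, e22, e23, l} : Set A), π x ∈
          (Ideal.span ({e11, e12, e13, e21, e22, e23, l} : Set A)).map π := fun x hx =>
        Ideal.mem_map_of_mem π (Ideal.subset_span hx)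
      nth_rewrite 1 [hm]
      rw [Ideal.span_le]
      intro x hx
      simp only [Set.mem_insert_iff, Set.mem_singleton_iff] at hx
      rcases hx with rfl | rfl | rfl | rfl | rfl
      · rw [← j11]
        exact g1 _ (by simp)
      · have := g1 e12 (by simp)
        rw [j12] at this
        exact (Ideal.neg_mem_iff _).1 this
      · have := g1 e13 (by simp)
        rw [j13] at this
        exact (Ideal.neg_mem_iff _).1 this
      · have := g1 e23 (by simp)
        rw [j23] at this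
        exact (Ideal.neg_mem_iff _).1 this
      · have := g1 e22 (by simp)
        rw [j22] at this
        exact this
    intro x hx
    rw [← hcm] at hx
    obtain ⟨q, hq, hqx⟩ := (Ideal.mem_map_iff_of_surjective π hπ).1 (h5 hx)
    obtain ⟨c, hc⟩ := Lift_ker π l hker (x := x - q) (by rw [map_sub, hqx, sub_self])
    have h6 : x = q + l * c := by
      rw [← hc]
      ring
    rw [h6]
    exact Ideal.add_mem _ hq (Ideal.mul_mem_right _ _ (Ideal.subset_span (by simp)))
  · rw [Ideal.span_le]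
    intro x hx
    simp only [Set.mem_insert_iff, Set.mem_singleton_iff] at hx
    rcases hx with rfl | rfl | rfl | rfl | rfl | rfl | rfl
    · exact hin _ (by rw [j11]; exact t1)
    · exact hin _ (by rw [j12]; exact (Ideal.neg_mem_iff _).2 t2)
    · exact hin _ (by rw [j13]; exact (Ideal.neg_mem_iff _).2 t3)
    · exact hin _ (by rw [j21]; exact Ideal.zero_mem _)
    · exact hin _ (by rw [j22]; exact t5)
    · exact hin _ (by rw [j23]; exact (Ideal.neg_mem_iff _).2 t4)
    · exact hl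

end STCI.M5
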