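import Pool.Agent.H24.M5.SymA

/-!
# Row Sym: symmetric presentations (project MP_204867_M5)

`P = I_2(E)`, `E = (e_ij)` a `2 x 3` matrix over the local ring `A`, with entries generating together with `l` the maximal ideal `m`, and `P`
not contained in `m^3`.

Proof. Let `a` be the ideal generated by the entries. By `three_gen` `a = (g_0, g_1, g_2)`; `e_ij = Σ_k λ_ijk g_k`. Let `κ` be the residue
field and `φ : κ^(2x3) → κ^3`, `φ(c)_k = Σ_ij c_ij res(λ_ijk)`. Apply `rank_lemma`.
(1) `φ c = 0` with independent rows. Lift `c_ij` to `C_ij ∈ A`: `Σ_ij C_ij λ_ijk ∈ m` for each `k`, so `Σ_ij C_ij e_ij ∈ m a`, so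
`Σ_ij C_ij e_ij = Σ_ij μ_ij e_ij` with `μ_ij ∈ m`; replacing `C` by `C - μ`: `Σ_ij C_ij e_ij = 0`, and the residues of the rows of `C` are
still `c 0, c 1`. Put `ρ = C_0`, `ν = - C_1` (vectors in `A^3`): `r_0 · ρ = r_1 · ν`, where `r_0, r_1` are the rows of `E`. As the residues
of `ν, ρ` are linearly independent, there is a third vector `τ` (one of the standard basis vectors) such that the matrix `T` with columns
`ν, ρ, τ` has a unit as determinant. `α = r_0 · ν`, `β = r_0 · ρ = r_1 · ν`, `γ = r_1 · ρ`, `δ1 = r_0 · τ`, `δ2 = r_1 · τ`: these are the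
entries of `E T`, so the maximal minors of `E T` are the maximal minors of `E` times the (invertible) matrix of `2 x 2` minors of `T`, and
generate the same ideal `P`. (`≤`: each minor of `E T` is an explicit combination of the minors of `E`; `≥`: the same with
`E = (E T) T⁻¹`.)
(2) `e ≠ 0` with `φ(e ⊗ v) = 0` for all `v`. Lift `e` to `E0, E1 ∈ A`, one of them a unit, say `E0` (the other case is symmetric). With `v` the
standard basis vectors: `r'_j = E0 e_0j + E1 e_1j ∈ m a` for each `j`. The minors of `E` are `E0⁻¹` times the minors of the matrix with rows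
`r', r_1`, so are in `m a * a ≤ m^3`: contradiction to `hP3`.
-/

set_option autoImplicit false

namespace STCI.M5

open IsLocalRing

universe u

theorem sym_aux1 {A : Type u} [CommRing A]
    (a1 a2 a3 b1 b2 b3 n1 n2 n3 p1 p2 p3 t1 t2 t3 : A)
    (h0 : a1 * p1 + a2 * p2 + a3 * p3 = b1 * n1 + b2 * n2 + b3 * n3)
    (hD : IsUnit ((n2 * p3 - n3 * p2) * t1 + (n3 * p1 - n1 * p3) * t2 + (n1 * p2 - n2 * p1) * t3)) :
    ∃ α β γ δ1 δ2 : A, Ideal.span {a2 * b3 - a3 * b2, a3 * b1 - a1 * b3, a1 * b2 - a2 * b1} =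
      Ideal.span {α * γ - β ^ 2, α * δ2 - β * δ1, β * δ2 - γ * δ1} := by
  obtain ⟨D, hD⟩ := hD
  have hDi : ((D⁻¹ : Aˣ) : A) * ((n2 * p3 - n3 * p2) * t1 + (n3 * p1 - n1 * p3) * t2 +
      (n1 * p2 - n2 * p1) * t3) = 1 := by rw [← hD]; simp
  set d : A := ((D⁻¹ : Aˣ) : A) with hd
  refine ⟨a1 * n1 + a2 * n2 + a3 * n3, a1 * p1 + a2 * p2 + a3 * p3, b1 * p1 + b2 * p2 + b3 * p3,
    a1 * t1 + a2 * t2 + a3 * t3, b1 * t1 + b2 * t2 + b3 * t3, ?_⟩
  set E1 := a2 * b3 - a3 * b2 with hE1
  set E2 := a3 * b1 - a1 * b3 with hE2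
  set E3 := a1 * b2 - a2 * b1 with hE3
  have g1 : (a1 * n1 + a2 * n2 + a3 * n3) * (b1 * p1 + b2 * p2 + b3 * p3) -
      (a1 * p1 + a2 * p2 + a3 * p3) ^ 2 = E1 * (n2 * p3 - n3 * p2) + E2 * (n3 * p1 - n1 * p3) +
      E3 * (n1 * p2 - n2 * p1) := by
    have : (a1 * p1 + a2 * p2 + a3 * p3) ^ 2 = (a1 * p1 + a2 * p2 + a3 * p3) *
      (b1 * n1 + b2 * n2 + b3 * n3) := by rw [pow_two]; nth_rewrite 2 [h0]; rfl
    rw [this, hE1, hE2, hE3]; ring
  have g2 : (a1 * n1 + a2 * n2 + a3 * n3) * (b1 * t1 + b2 * t2 + b3 * t3) -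
      (a1 * p1 + a2 * p2 + a3 * p3) * (a1 * t1 + a2 * t2 + a3 * t3) =
      E1 * (n2 * t3 - n3 * t2) + E2 * (n3 * t1 - n1 * t3) + E3 * (n1 * t2 - n2 * t1) := by
    rw [h0, hE1, hE2, hE3]; ring
  have g3 : (a1 * p1 + a2 * p2 + a3 * p3) * (b1 * t1 + b2 * t2 + b3 * t3) -
      (b1 * p1 + b2 * p2 + b3 * p3) * (a1 * t1 + a2 * t2 + a3 * t3) =
      E1 * (p2 * t3 - p3 * t2) + E2 * (p3 * t1 - p1 * t3) + E3 * (p1 * t2 - p2 * t1) := by
    rw [hE1, hE2, hE3]; ring
  rw [g1, g2, g3]
  clear_value E1 E2 E3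
  apply le_antisymm
  · rw [Ideal.span_le]
    have hI1 : E1 * (n2 * p3 - n3 * p2) + E2 * (n3 * p1 - n1 * p3) + E3 * (n1 * p2 - n2 * p1) ∈
      Ideal.span {E1 * (n2 * p3 - n3 * p2) + E2 * (n3 * p1 - n1 * p3) + E3 * (n1 * p2 - n2 * p1),
        E1 * (n2 * t3 - n3 * t2) + E2 * (n3 * t1 - n1 * t3) + E3 * (n1 * t2 - n2 * t1),
        E1 * (p2 * t3 - p3 * t2) + E2 * (p3 * t1 - p1 * t3) + E3 * (p1 * t2 - p2 * t1)} :=
      Ideal.subset_span (by simp)
    have hI2 : E1 * (n2 * t3 - n3 * t2) + E2 * (n3 * t1 - n1 * t3) + E3 * (n1 * t2 - n2 * t1) ∈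
      Ideal.span {E1 * (n2 * p3 - n3 * p2) + E2 * (n3 * p1 - n1 * p3) + E3 * (n1 * p2 - n2 * p1),
        E1 * (n2 * t3 - n3 * t2) + E2 * (n3 * t1 - n1 * t3) + E3 * (n1 * t2 - n2 * t1),
        E1 * (p2 * t3 - p3 * t2) + E2 * (p3 * t1 - p1 * t3) + E3 * (p1 * t2 - p2 * t1)} :=
      Ideal.subset_span (by simp)
    have hI3 : E1 * (p2 * t3 - p3 * t2) + E2 * (p3 * t1 - p1 * t3) + E3 * (p1 * t2 - p2 * t1) ∈
      Ideal.span {E1 * (n2 * p3 - n3 * p2) + E2 * (n3 * p1 - n1 * p3) + E3 * (n1 * p2 - n2 * p1),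
        E1 * (n2 * t3 - n3 * t2) + E2 * (n3 * t1 - n1 * t3) + E3 * (n1 * t2 - n2 * t1),
        E1 * (p2 * t3 - p3 * t2) + E2 * (p3 * t1 - p1 * t3) + E3 * (p1 * t2 - p2 * t1)} :=
      Ideal.subset_span (by simp)
    generalize hI : Ideal.span {E1 * (n2 * p3 - n3 * p2) + E2 * (n3 * p1 - n1 * p3) +
        E3 * (n1 * p2 - n2 * p1),
        E1 * (n2 * t3 - n3 * t2) + E2 * (n3 * t1 - n1 * t3) + E3 * (n1 * t2 - n2 * t1),
        E1 * (p2 * t3 - p3 * t2) + E2 * (p3 * t1 - p1 * t3) + E3 * (p1 * t2 - p2 * t1)} = I at *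
    rintro x (rfl | rfl | rfl)
    · have e : x = d * (n1 * (x * (p2 * t3 - p3 * t2) + E2 * (p3 * t1 - p1 * t3) +
          E3 * (p1 * t2 - p2 * t1)) - p1 * (x * (n2 * t3 - n3 * t2) + E2 * (n3 * t1 - n1 * t3) +
          E3 * (n1 * t2 - n2 * t1)) + t1 * (x * (n2 * p3 - n3 * p2) + E2 * (n3 * p1 - n1 * p3) +
          E3 * (n1 * p2 - n2 * p1))) := by
        linear_combination (-x) * hDi
      show x ∈ I
      rw [e]
      exact I.mul_mem_left _ (I.add_mem (I.sub_mem (I.mul_mem_left _ hI3) (I.mul_mem_left _ hI2))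
        (I.mul_mem_left _ hI1))
    · have e : x = d * (n2 * (E1 * (p2 * t3 - p3 * t2) + x * (p3 * t1 - p1 * t3) +
          E3 * (p1 * t2 - p2 * t1)) - p2 * (E1 * (n2 * t3 - n3 * t2) + x * (n3 * t1 - n1 * t3) +
          E3 * (n1 * t2 - n2 * t1)) + t2 * (E1 * (n2 * p3 - n3 * p2) + x * (n3 * p1 - n1 * p3) +
          E3 * (n1 * p2 - n2 * p1))) := by
        linear_combination (-x) * hDi
      show x ∈ I
      rw [e]
      exact I.mul_mem_left _ (I.add_mem (I.sub_mem (I.mul_mem_left _ hI3) (I.mul_mem_left _ hI2))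
        (I.mul_mem_left _ hI1))
    · have e : x = d * (n3 * (E1 * (p2 * t3 - p3 * t2) + E2 * (p3 * t1 - p1 * t3) +
          x * (p1 * t2 - p2 * t1)) - p3 * (E1 * (n2 * t3 - n3 * t2) + E2 * (n3 * t1 - n1 * t3) +
          x * (n1 * t2 - n2 * t1)) + t3 * (E1 * (n2 * p3 - n3 * p2) + E2 * (n3 * p1 - n1 * p3) +
          x * (n1 * p2 - n2 * p1))) := by
        linear_combination (-x) * hDi
      show x ∈ I
      rw [e]
      exact I.mul_mem_left _ (I.add_mem (I.sub_mem (I.mul_mem_left _ hI3) (I.mul_mem_left _ hI2))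
        (I.mul_mem_left _ hI1))
  · rw [Ideal.span_le]
    have h1 : E1 ∈ Ideal.span {E1, E2, E3} := Ideal.subset_span (by simp)
    have h2 : E2 ∈ Ideal.span {E1, E2, E3} := Ideal.subset_span (by simp)
    have h3 : E3 ∈ Ideal.span {E1, E2, E3} := Ideal.subset_span (by simp)
    rintro x (rfl | rfl | rfl)
    all_goals
      exact Ideal.add_mem _ (Ideal.add_mem _ (Ideal.mul_mem_right _ _ h1)
        (Ideal.mul_mem_right _ _ h2)) (Ideal.mul_mem_right _ _ h3)

theorem sym {A : Type u} [CommRing A] [IsLocalRing A] [IsNoetherianRing A] (hA : Reg3 A)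
    (P : Ideal A) (hP3 : ¬ P ≤ maximalIdeal A ^ 3) (e11 e12 e13 e21 e22 e23 l : A)
    (hP : P = Ideal.span {e12 * e23 - e13 * e22, e13 * e21 - e11 * e23, e11 * e22 - e12 * e21})
    (hm : maximalIdeal A = Ideal.span {e11, e12, e13, e21, e22, e23, l}) :
    ∃ α β γ δ1 δ2 : A, P = Ideal.span {α * γ - β ^ 2, α * δ2 - β * δ1, β * δ2 - γ * δ1} := by
  classical
  let e : Fin 2 → Fin 3 → A := ![![e11, e12, e13], ![e21, e22, e23]]
  let ef : Fin 2 × Fin 3 → A := fun ij => e ij.1 ij.2
  let a : Ideal A := Ideal.span (Set.range ef)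
  have hea : ∀ i j, e i j ∈ a := fun i j => Ideal.subset_span ⟨(i, j), rfl⟩
  have hma : maximalIdeal A = a ⊔ Ideal.span {l} := by
    rw [hm]
    apply le_antisymm
    · rw [Ideal.span_le]
      have hl : l ∈ a ⊔ Ideal.span {l} :=
        Ideal.mem_sup_right (Ideal.subset_span rfl)
      rintro x (rfl | rfl | rfl | rfl | rfl | rfl | rfl)
      · exact Ideal.mem_sup_left (hea 0 0)
      · exact Ideal.mem_sup_left (hea 0 1)
      · exact Ideal.mem_sup_left (hea 0 2)
      · exact Ideal.mem_sup_left (hea 1 0)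
      · exact Ideal.mem_sup_left (hea 1 1)
      · exact Ideal.mem_sup_left (hea 1 2)
      · exact hl
    · apply sup_le
      · rw [Ideal.span_le]
        rintro _ ⟨⟨i, j⟩, rfl⟩
        apply Ideal.subset_span
        fin_cases i <;> fin_cases j <;> simp [ef, e]
      · apply Ideal.span_mono
        rintro x rfl
        simp
  have ham : a ≤ maximalIdeal A := hma ▸ le_sup_left
  obtain ⟨g, hg⟩ := three_gen hA a l hma
  have hgm : ∀ k, g k ∈ maximalIdeal A := fun k => ham (hg ▸ Ideal.subset_span ⟨k, rfl⟩)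
  have hlam : ∀ i j, ∃ lam : Fin 3 → A, ∑ k, lam k * g k = e i j := by
    intro i j
    have := hea i j
    rw [hg] at this
    exact (Ideal.mem_span_range_iff_exists_fun).1 this
  choose lam hlam using hlam
  let res := residue A
  let φ : (Fin 2 → Fin 3 → ResidueField A) →ₗ[ResidueField A] (Fin 3 → ResidueField A) :=
    { toFun := fun c k => ∑ i, ∑ j, c i j * res (lam i j k)
      map_add' := by
        intro c d; ext k
        simp only [Pi.add_apply, add_mul, Finset.sum_add_distrib]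
      map_smul' := by
        intro r c; ext k
        simp only [Pi.smul_apply, smul_eq_mul, RingHom.id_apply, Finset.mul_sum, mul_assoc] }
  have hφ : ∀ c k, φ c k = ∑ i, ∑ j, c i j * res (lam i j k) := fun _ _ => rfl
  rcases rank_lemma φ with ⟨c, hc0, hcl⟩ | ⟨ee, hee, hev⟩
  · -- case 1
    have hlift : ∀ i j, ∃ C : A, res C = c i j := fun i j => residue_surjective _
    choose C hC using hlift
    have hmk : ∀ k, ∑ i, ∑ j, C i j * lam i j k ∈ maximalIdeal A := by
      intro k
      rw [← residue_eq_zero_iff, map_sum]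
      have := congrFun hc0 k
      rw [hφ] at this
      rw [← show (∑ i, ∑ j, c i j * res (lam i j k)) = 0 from this]
      refine Finset.sum_congr rfl fun i _ => ?_
      rw [map_sum]
      refine Finset.sum_congr rfl fun j _ => ?_
      rw [map_mul, ← hC]
    have hsum : ∑ i, ∑ j, C i j * e i j ∈ maximalIdeal A • Submodule.span A (Set.range ef) := by
      have h1 : ∑ i, ∑ j, C i j * e i j = ∑ k, (∑ i, ∑ j, C i j * lam i j k) • g k := by
        simp only [smul_eq_mul, Finset.sum_mul]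
        rw [Finset.sum_comm]
        simp_rw [← hlam, Finset.mul_sum]
        rw [Finset.sum_comm]
        rw [show (∑ k : Fin 3, ∑ i : Fin 2, ∑ j : Fin 3, C i j * lam i j k * g k) =
          ∑ i : Fin 2, ∑ j : Fin 3, ∑ k : Fin 3, C i j * lam i j k * g k from by
            rw [Finset.sum_comm]
            refine Finset.sum_congr rfl fun i _ => ?_
            rw [Finset.sum_comm]]
        refine Finset.sum_congr rfl fun i _ => Finset.sum_congr rfl fun j _ =>
          Finset.sum_congr rfl fun k _ => ?_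
        ring
      rw [h1]
      refine Submodule.sum_mem _ fun k _ => ?_
      have hgk : g k ∈ Submodule.span A (Set.range ef) := by
        have : g k ∈ a := by rw [hg]; exact Ideal.subset_span ⟨k, rfl⟩
        exact this
      exact Submodule.smul_mem_smul (hmk k) hgk
    obtain ⟨μ, hμm, hμs⟩ := (Submodule.mem_ideal_smul_span_iff_exists_sum _ _ _).1 hsum
    have hμs' : ∑ i, ∑ j, C i j * e i j = ∑ i, ∑ j, μ (i, j) * e i j := by
      rw [← hμs, Finsupp.sum_fintype _ _ (by simp)]
      rw [Fintype.sum_prod_type]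
      rfl
    have hz : ∑ i, ∑ j, (C i j - μ (i, j)) * e i j = 0 := by
      simp only [sub_mul, Finset.sum_sub_distrib]
      rw [hμs', sub_self]
    have hres : ∀ i j, res (C i j - μ (i, j)) = c i j := by
      intro i j
      rw [map_sub, hC, show res (μ (i, j)) = 0 from (residue_eq_zero_iff _).2 (hμm _), sub_zero]
    generalize hD : (fun i j => C i j - μ (i, j)) = D at *
    have hDz : ∑ i, ∑ j, D i j * e i j = 0 := by rw [← hD]; exact hz
    have hDr : ∀ i j, res (D i j) = c i j := by rw [← hD]; exact hres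
    have h0 : e11 * D 0 0 + e12 * D 0 1 + e13 * D 0 2 =
        e21 * (-D 1 0) + e22 * (-D 1 1) + e23 * (-D 1 2) := by
      have := hDz
      simp only [Fin.sum_univ_two, Fin.sum_univ_three] at this
      have e00 : e 0 0 = e11 := rfl
      have e01 : e 0 1 = e12 := rfl
      have e02 : e 0 2 = e13 := rfl
      have e10 : e 1 0 = e21 := rfl
      have e11' : e 1 1 = e22 := rfl
      have e12' : e 1 2 = e23 := rfl
      rw [e00, e01, e02, e10, e11', e12'] at this
      linear_combination this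
    have hunit : ∀ x : A, res x ≠ 0 → IsUnit x := by
      intro x hx
      by_contra hu
      exact hx ((residue_eq_zero_iff _).2 ((mem_maximalIdeal _).2 hu))
    -- one of the minors is nonzero
    have hminor : (c 0 1 * c 1 2 - c 0 2 * c 1 1 ≠ 0) ∨ (c 0 2 * c 1 0 - c 0 0 * c 1 2 ≠ 0) ∨
        (c 0 0 * c 1 1 - c 0 1 * c 1 0 ≠ 0) := by
      by_contra hcon
      push Not at hcon
      obtain ⟨m1, m2, m3⟩ := hcon
      have hli := Fintype.linearIndependent_iff.1 hcl
      by_cases hall : ∀ j, c 0 j = 0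
      · have := hli ![1, 0] (by
          simp only [Fin.sum_univ_two]
          ext j
          simp [hall j]) 0
        simp at this
      · push Not at hall
        obtain ⟨j0, hj0⟩ := hall
        have := hli ![c 1 j0, - c 0 j0] (by
          simp only [Fin.sum_univ_two]
          ext j
          fin_cases j0 <;> fin_cases j <;> simp <;>
            first
            | ring1
            | linear_combination m1
            | linear_combination m2
            | linear_combination m3
            | linear_combination -m1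
            | linear_combination -m2
            | linear_combination -m3) 1
        simp at this
        exact hj0 this
    rcases hminor with h | h | h
    · obtain ⟨α, β, γ, δ1, δ2, hh⟩ := sym_aux1 e11 e12 e13 e21 e22 e23 (-D 1 0) (-D 1 1) (-D 1 2)
        (D 0 0) (D 0 1) (D 0 2) 1 0 0 h0 (hunit _ (by
          simp only [map_add, map_sub, map_mul, map_neg, map_one, map_zero, hDr]
          intro hzz; apply h; linear_combination hzz))
      exact ⟨α, β, γ, δ1, δ2, hP.trans hh⟩
    · obtain ⟨α, β, γ, δ1, δ2, hh⟩ := sym_aux1 e11 e12 e13 e21 e22 e23 (-D 1 0) (-D 1 1) (-D 1 2)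
        (D 0 0) (D 0 1) (D 0 2) 0 1 0 h0 (hunit _ (by
          simp only [map_add, map_sub, map_mul, map_neg, map_one, map_zero, hDr]
          intro hzz; apply h; linear_combination hzz))
      exact ⟨α, β, γ, δ1, δ2, hP.trans hh⟩
    · obtain ⟨α, β, γ, δ1, δ2, hh⟩ := sym_aux1 e11 e12 e13 e21 e22 e23 (-D 1 0) (-D 1 1) (-D 1 2)
        (D 0 0) (D 0 1) (D 0 2) 0 0 1 h0 (hunit _ (by
          simp only [map_add, map_sub, map_mul, map_neg, map_one, map_zero, hDr]
          intro hzz; apply h; linear_combination hzz))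
      exact ⟨α, β, γ, δ1, δ2, hP.trans hh⟩
  · -- case 2
    exfalso
    apply hP3
    have hlift : ∀ i, ∃ C : A, res C = ee i := fun i => residue_surjective _
    choose E hE using hlift
    have hrm : ∀ j, ∑ i, E i * e i j ∈ maximalIdeal A ^ 2 := by
      intro j
      have hk : ∀ k, ∑ i, E i * lam i j k ∈ maximalIdeal A := by
        intro k
        rw [← residue_eq_zero_iff, map_sum]
        have := congrFun (hev (Pi.single j 1)) k
        rw [hφ] at this
        rw [← show (∑ i, ∑ j', ee i * (Pi.single j (1 : ResidueField A) : Fin 3 → ResidueField A) j'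
          * res (lam i j' k)) = 0 from this]
        refine Finset.sum_congr rfl fun i _ => ?_
        rw [map_mul, Finset.sum_eq_single j]
        · rw [Pi.single_eq_same, mul_one, ← hE]
        · intro b _ hb
          rw [Pi.single_eq_of_ne hb, mul_zero, zero_mul]
        · intro h; exact absurd (Finset.mem_univ _) h
      have h1 : ∑ i, E i * e i j = ∑ k, (∑ i, E i * lam i j k) * g k := by
        simp only [Finset.sum_mul]
        rw [Finset.sum_comm]
        refine Finset.sum_congr rfl fun i _ => ?_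
        rw [← hlam, Finset.mul_sum]
        refine Finset.sum_congr rfl fun k _ => ?_
        ring
      rw [h1, pow_two]
      exact Ideal.sum_mem _ fun k _ => Ideal.mul_mem_mul (hk k) (hgm k)
    have hem : ∀ i j, e i j ∈ maximalIdeal A := fun i j => ham (hea i j)
    have h3 : ∀ x y : A, x ∈ maximalIdeal A ^ 2 → y ∈ maximalIdeal A → x * y ∈ maximalIdeal A ^ 3 := by
      intro x y hx hy
      rw [pow_succ]
      exact Ideal.mul_mem_mul hx hy
    have r0 := hrm 0
    have r1 := hrm 1
    have r2 := hrm 2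
    simp only [Fin.sum_univ_two] at r0 r1 r2
    have hunit : IsUnit (E 0) ∨ IsUnit (E 1) := by
      by_contra hcon
      push Not at hcon
      obtain ⟨u0, u1⟩ := hcon
      apply hee
      ext i
      fin_cases i
      · show ee 0 = 0
        rw [← hE]; exact (residue_eq_zero_iff _).2 ((mem_maximalIdeal _).2 u0)
      · show ee 1 = 0
        rw [← hE]; exact (residue_eq_zero_iff _).2 ((mem_maximalIdeal _).2 u1)
    rw [hP, Ideal.span_le]
    have i00 : e 0 0 = e11 := rfl
    have i01 : e 0 1 = e12 := rfl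
    have i02 : e 0 2 = e13 := rfl
    have i10 : e 1 0 = e21 := rfl
    have i11 : e 1 1 = e22 := rfl
    have i12 : e 1 2 = e23 := rfl
    rw [i00, i10] at r0
    rw [i01, i11] at r1
    rw [i02, i12] at r2
    have m00 := hem 0 0
    have m01 := hem 0 1
    have m02 := hem 0 2
    have m10 := hem 1 0
    have m11 := hem 1 1
    have m12 := hem 1 2
    rw [i00] at m00; rw [i01] at m01; rw [i02] at m02
    rw [i10] at m10; rw [i11] at m11; rw [i12] at m12
    rcases hunit with hu | hu
    · have hmem : ∀ x : A, E 0 * x ∈ maximalIdeal A ^ 3 → x ∈ maximalIdeal A ^ 3 := by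
        intro x hx
        obtain ⟨w, hw⟩ := hu
        have : x = ((w⁻¹ : Aˣ) : A) * (E 0 * x) := by rw [← hw]; simp
        rw [this]; exact Ideal.mul_mem_left _ _ hx
      rintro x (rfl | rfl | rfl) <;> apply hmem
      · have : E 0 * (e12 * e23 - e13 * e22) = (E 0 * e12 + E 1 * e22) * e23 -
          (E 0 * e13 + E 1 * e23) * e22 := by ring
        rw [this]; exact Ideal.sub_mem _ (h3 _ _ r1 m12) (h3 _ _ r2 m11)
      · have : E 0 * (e13 * e21 - e11 * e23) = (E 0 * e13 + E 1 * e23) * e21 -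
          (E 0 * e11 + E 1 * e21) * e23 := by ring
        rw [this]; exact Ideal.sub_mem _ (h3 _ _ r2 m10) (h3 _ _ r0 m12)
      · have : E 0 * (e11 * e22 - e12 * e21) = (E 0 * e11 + E 1 * e21) * e22 -
          (E 0 * e12 + E 1 * e22) * e21 := by ring
        rw [this]; exact Ideal.sub_mem _ (h3 _ _ r0 m11) (h3 _ _ r1 m10)
    · have hmem : ∀ x : A, E 1 * x ∈ maximalIdeal A ^ 3 → x ∈ maximalIdeal A ^ 3 := by
        intro x hx
        obtain ⟨w, hw⟩ := hu
        have : x = ((w⁻¹ : Aˣ) : A) * (E 1 * x) := by rw [← hw]; simp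
        rw [this]; exact Ideal.mul_mem_left _ _ hx
      rintro x (rfl | rfl | rfl) <;> apply hmem
      · have : E 1 * (e12 * e23 - e13 * e22) = (E 0 * e13 + E 1 * e23) * e12 -
          (E 0 * e12 + E 1 * e22) * e13 := by ring
        rw [this]; exact Ideal.sub_mem _ (h3 _ _ r2 m01) (h3 _ _ r1 m02)
      · have : E 1 * (e13 * e21 - e11 * e23) = (E 0 * e11 + E 1 * e21) * e13 -
          (E 0 * e13 + E 1 * e23) * e11 := by ring
        rw [this]; exact Ideal.sub_mem _ (h3 _ _ r0 m02) (h3 _ _ r2 m00)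
      · have : E 1 * (e11 * e22 - e12 * e21) = (E 0 * e12 + E 1 * e22) * e11 -
          (E 0 * e11 + E 1 * e21) * e12 := by ring
        rw [this]; exact Ideal.sub_mem _ (h3 _ _ r1 m00) (h3 _ _ r0 m01)

end STCI.M5
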