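import Pool.Agent.H24.M5.RegA
import Pool.Agent.H24.M5.Lift
import Pool.Agent.H24.M5.Sym
import Pool.Agent.H24.M5.Fin
import Pool.Agent.H24.M5.Desc

/-!
# Curves with singular points of multiplicity at most five: the local theorem
-/

set_option autoImplicit false

namespace STCI.M5

open IsLocalRing STCI.LG

universe u

theorem local_five_quot {A B : Type u} [CommRing A] [IsDomain A] [IsLocalRing A]
    [IsNoetherianRing A] [UniqueFactorizationMonoid A] [CommRing B] [IsDomain B] [IsLocalRing B]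
    [IsNoetherianRing B] (hA : Reg3 A) (π : A →+* B) (hπ : Function.Surjective π) (l : A)
    (hker : RingHom.ker π = Ideal.span {l}) (hl : l ∈ maximalIdeal A)
    (hl2 : l ∉ maximalIdeal A ^ 2) (P : Ideal A) [P.IsPrime] (hPm : P ≠ maximalIdeal A)
    (hnp : ∀ ϖ : A, P ≠ Ideal.span {ϖ})
    (hlen : Module.length B (B ⧸ P.map π) ≤ 5) :
    ∃ a b : A, a ∈ P ∧ b ∈ P ∧ P ≤ (Ideal.span {a, b}).radical ∧ GenSmooth P a := by
  have hB : Reg2 B := reg2_of_surj hA π hπ l hker hl hl2
  have hPle : P ≤ maximalIdeal A := le_maximalIdeal (‹P.IsPrime›).ne_top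
  have hmap : (maximalIdeal A).map π ≤ maximalIdeal B := by
    rw [Ideal.map_le_iff_le_comap]
    intro x hx
    rw [Ideal.mem_comap, mem_maximalIdeal, mem_nonunits_iff]
    intro hu
    have hloc : IsLocalHom π := IsLocalHom.of_surjective π hπ
    exact hx (isUnit_of_map_unit π x hu)
  have hIm : P.map π ≤ maximalIdeal B := (Ideal.map_mono hPle).trans hmap
  have hIt : P.map π ≠ ⊤ := fun h => (maximalIdeal.isMaximal B).ne_top (top_le_iff.1 (h ▸ hIm))
  -- `l ∉ P`
  have hlP : l ∉ P := by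
    intro hlP
    have hfin : Module.length B (B ⧸ P.map π) ≠ ⊤ := fun h => by rw [h] at hlen; exact absurd hlen (by simp)
    rw [Module.length_ne_top_iff] at hfin
    have hPmap : (P.map π).IsPrime :=
      Ideal.map_isPrime_of_surjective hπ (by rw [hker, Ideal.span_singleton_le_iff_mem]; exact hlP)
    have hart : IsArtinianRing (B ⧸ P.map π) := by
      have h1 : IsArtinian B (B ⧸ P.map π) := (isFiniteLength_iff_isNoetherian_isArtinian.1 hfin).2
      exact isArtinian_of_tower B h1
    have hmax : (P.map π).IsMaximal := by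
      have h2 : IsField (B ⧸ P.map π) := IsArtinianRing.isField_of_isDomain _
      exact Ideal.Quotient.maximal_of_isField _ h2
    have h3 : P.map π = maximalIdeal B := eq_maximalIdeal hmax
    apply hPm
    apply le_antisymm hPle
    intro x hx
    have h4 : π x ∈ P.map π := by
      rw [h3]
      exact hmap (Ideal.mem_map_of_mem π hx)
    obtain ⟨y, hy, hyx⟩ := (Ideal.mem_map_iff_of_surjective π hπ).1 h4
    have h5 : x - y ∈ RingHom.ker π := by rw [RingHom.mem_ker, map_sub, hyx, sub_self]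
    rw [hker, Ideal.mem_span_singleton] at h5
    obtain ⟨c, hc⟩ := h5
    have h6 : x = y + l * c := by rw [← hc]; ring
    rw [h6]
    exact Ideal.add_mem _ hy (Ideal.mul_mem_right _ _ hlP)
  rcases hb hB (P.map π) hIt hlen with ⟨f, g, hfg⟩ | hform
  · have hf : f ∈ P.map π := by rw [hfg]; exact mem_pair_left _ _
    have hg : g ∈ P.map π := by rw [hfg]; exact mem_pair_right _ _
    obtain ⟨f', hf', rfl⟩ := (Ideal.mem_map_iff_of_surjective π hπ).1 hf
    obtain ⟨g', hg', rfl⟩ := (Ideal.mem_map_iff_of_surjective π hπ).1 hg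
    have h1 : P = Ideal.span {f', g'} := by
      refine nak_lift π hπ l hker hl P hlP _ (span_pair_le hf' hg') ?_
      rw [hfg, Ideal.map_span, Set.image_pair]
    exact fin_two P hnp f' g' h1
  · obtain ⟨e11, e12, e13, e21, e22, e23, h1, h2⟩ := lift π hπ l hker hl P hlP hnp hform
    have hP3 : ¬ P ≤ maximalIdeal A ^ 3 := by
      intro h
      refine six hB (P.map π) hlen ((Ideal.map_mono h).trans ?_)
      rw [Ideal.map_pow]
      exact Ideal.pow_right_mono hmap 3
    obtain ⟨α, β, γ, δ1, δ2, h3⟩ := sym hA P hP3 e11 e12 e13 e21 e22 e23 l h1 h2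
    exact fin_sym P hnp α β γ δ1 δ2 h3

theorem local_five {A : Type u} [CommRing A] [IsDomain A] [IsLocalRing A]
    [IsNoetherianRing A] [UniqueFactorizationMonoid A] (hA : Reg3 A) (l : A)
    (hl : l ∈ maximalIdeal A) (hl2 : l ∉ maximalIdeal A ^ 2) (P : Ideal A) [P.IsPrime]
    (hPm : P ≠ maximalIdeal A) (hnp : ∀ ϖ : A, P ≠ Ideal.span {ϖ})
    (hlen : Module.length A (A ⧸ (P ⊔ Ideal.span {l})) ≤ 5) :
    ∃ a b : A, a ∈ P ∧ b ∈ P ∧ P ≤ (Ideal.span {a, b}).radical ∧ GenSmooth P a := by
  have hprime : (Ideal.span {l}).IsPrime := isPrime_of_not_sq l hl hl2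
  have hnt : Nontrivial (A ⧸ Ideal.span {l}) := Ideal.Quotient.nontrivial_iff.2 hprime.ne_top
  have hloc : IsLocalRing (A ⧸ Ideal.span {l}) :=
    IsLocalRing.of_surjective' (Ideal.Quotient.mk (Ideal.span {l})) Ideal.Quotient.mk_surjective
  have hmk : Function.Surjective (Ideal.Quotient.mk (Ideal.span {l})) :=
    Ideal.Quotient.mk_surjective
  refine local_five_quot hA (Ideal.Quotient.mk (Ideal.span {l})) hmk l Ideal.mk_ker hl hl2 P hPm
    hnp ?_
  refine le_trans (le_of_eq ?_) hlen
  -- compare lengths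
  have h1 : Module.length A ((A ⧸ Ideal.span {l}) ⧸ P.map (Ideal.Quotient.mk (Ideal.span {l}))) =
      Module.length (A ⧸ Ideal.span {l})
      ((A ⧸ Ideal.span {l}) ⧸ P.map (Ideal.Quotient.mk (Ideal.span {l}))) :=
    Module.length_eq_of_surjective hmk
  have h2 : Module.length A ((A ⧸ Ideal.span {l}) ⧸ P.map (Ideal.Quotient.mk (Ideal.span {l}))) =
      Module.length A (A ⧸ (Ideal.span {l} ⊔ P)) :=
    (DoubleQuot.quotQuotEquivQuotSupₐ A (Ideal.span {l}) P).toLinearEquiv.length_eq
  rw [← h1, h2, sup_comm]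

end STCI.M5
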