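import Pool.Agent.H24.M5.HB

/-!
# Row HBg: ideals of order at most two in a two-dimensional regular local ring (project MP_204867_M5)

Case A: `I` is not contained in `m^2`: as in `hb` (`f ∈ I`, `f ∉ m^2`, `exists_param`, `two_gen`).
Case B: `I ≤ m^2`; take `f ∈ I`, `f ∉ m^3`; `quad_coord`: `f = u y^2 + z t`, `m = (y, z)`. For an ideal `J` with `f ∈ J ≤ m^2` and
`J' = (J : z)` (`x ∈ J' ↔ z x ∈ J`): `f ∈ J'` and `J = (f) + (z) J'` (this is in the proof of `colon_step`, file `Colon.lean`: for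
`x ∈ J`, `x ∈ m^2 = (y^2, y z, z^2)`, so `x - c y^2 ∈ (z)`, `x - (c u⁻¹) f ∈ (z) ∩ J = z J'`). Let `J_0 = I`, `J_(i+1) = (J_i : z)`, i.e.
`x ∈ J_i ↔ z^i x ∈ I`. As `z^N ∈ m^N ≤ I`, `J_N = ⊤`. Let `n` be the least number with `J_n` not contained in `m^2` (`Nat.find`);
`n ≥ 1`. By induction `I = (f) + (z^i) J_i` for `i ≤ n`. If `J_n = ⊤`: `I = (f, z^n)`. Otherwise there is `h1 ∈ J_n`, `h1 ∈ m`,
`h1 ∉ m^2`, and `J_n = (h1, h2)` (`exists_param`, `two_gen`), `h2 ∈ m`. `f = α h1 + β h2`. `I = (f, z^n h1, z^n h2)`. If `α` is a unit: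
`I = (f, z^n h2)`; if `β` is a unit: `I = (f, z^n h1)`. Otherwise `α, β ∈ m` and `z^n ∈ m` as `n ≥ 1`.
-/

set_option autoImplicit false

namespace STCI.M5

open IsLocalRing

universe u

variable {B : Type u} [CommRing B] [IsDomain B] [IsLocalRing B] [IsNoetherianRing B]

theorem HBg_step {y z u t : B} (h : maximalIdeal B = Ideal.span {y, z}) (hu : IsUnit u) (J J' : Ideal B)
    (hJ : J ≤ maximalIdeal B ^ 2) (hf : u * y ^ 2 + z * t ∈ J) (hJ' : ∀ x, x ∈ J' ↔ z * x ∈ J) :
    J = Ideal.span {u * y ^ 2 + z * t} ⊔ Ideal.span {z} * J' := by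
  apply le_antisymm
  · intro x hx
    have hx2 := hJ hx
    rw [h] at hx2
    obtain ⟨c, w, hxw⟩ := colon_sq_le y z x hx2
    obtain ⟨v, hv⟩ := hu.exists_left_inv
    have h1 : x = (c * v) * (u * y ^ 2 + z * t) + z * (w - c * v * t) := by
      rw [hxw]
      linear_combination (-(c * y ^ 2)) * hv
    have h2 : z * (w - c * v * t) ∈ J := by
      have : z * (w - c * v * t) = x - (c * v) * (u * y ^ 2 + z * t) := by
        linear_combination -h1
      rw [this]
      exact Ideal.sub_mem _ hx (Ideal.mul_mem_left _ _ hf)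
    rw [h1]
    exact Ideal.add_mem _ (Ideal.mem_sup_left (Ideal.mul_mem_left _ _
      (Ideal.mem_span_singleton_self _))) (Ideal.mem_sup_right (Ideal.mul_mem_mul
        (Ideal.mem_span_singleton_self z) ((hJ' _).2 h2)))
  · refine sup_le ((Ideal.span_singleton_le_iff_mem _).2 hf) ?_
    rw [Ideal.mul_le]
    intro r hr s hs
    obtain ⟨c, rfl⟩ := Ideal.mem_span_singleton.1 hr
    have : z * c * s = c * (z * s) := by ring
    rw [this]
    exact Ideal.mul_mem_left _ _ ((hJ' s).1 hs)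

theorem HBg_unitA {α β h1 h2 w : B} (hα : IsUnit α) :
    Ideal.span {α * h1 + β * h2, w * h1, w * h2} = Ideal.span {α * h1 + β * h2, w * h2} := by
  apply le_antisymm
  · have k1 : α * h1 + β * h2 ∈ Ideal.span {α * h1 + β * h2, w * h2} :=
      Ideal.subset_span (by simp)
    have k2 : w * h2 ∈ Ideal.span {α * h1 + β * h2, w * h2} := Ideal.subset_span (by simp)
    have k3 : α * (w * h1) ∈ Ideal.span {α * h1 + β * h2, w * h2} := by
      have k4 : α * (w * h1) = w * (α * h1 + β * h2) - β * (w * h2) := by ring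
      rw [k4]
      exact Ideal.sub_mem _ (Ideal.mul_mem_left _ _ k1) (Ideal.mul_mem_left _ _ k2)
    rw [Ideal.span_le]
    intro x hx
    simp only [Set.mem_insert_iff, Set.mem_singleton_iff] at hx
    rcases hx with rfl | rfl | rfl
    · exact k1
    · exact (Ideal.unit_mul_mem_iff_mem _ hα).mp k3
    · exact k2
  · apply Ideal.span_mono
    intro x hx
    simp only [Set.mem_insert_iff, Set.mem_singleton_iff] at hx ⊢
    tauto

theorem HBg_unitB {α β h1 h2 w : B} (hβ : IsUnit β) :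
    Ideal.span {α * h1 + β * h2, w * h1, w * h2} = Ideal.span {α * h1 + β * h2, w * h1} := by
  apply le_antisymm
  · have k1 : α * h1 + β * h2 ∈ Ideal.span {α * h1 + β * h2, w * h1} :=
      Ideal.subset_span (by simp)
    have k2 : w * h1 ∈ Ideal.span {α * h1 + β * h2, w * h1} := Ideal.subset_span (by simp)
    have k3 : β * (w * h2) ∈ Ideal.span {α * h1 + β * h2, w * h1} := by
      have k4 : β * (w * h2) = w * (α * h1 + β * h2) - α * (w * h1) := by ring
      rw [k4]
      exact Ideal.sub_mem _ (Ideal.mul_mem_left _ _ k1) (Ideal.mul_mem_left _ _ k2)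
    rw [Ideal.span_le]
    intro x hx
    simp only [Set.mem_insert_iff, Set.mem_singleton_iff] at hx
    rcases hx with rfl | rfl | rfl
    · exact k1
    · exact k2
    · exact (Ideal.unit_mul_mem_iff_mem _ hβ).mp k3
  · apply Ideal.span_mono
    intro x hx
    simp only [Set.mem_insert_iff, Set.mem_singleton_iff] at hx ⊢
    tauto

theorem hb_gen (hB : Reg2 B) (I : Ideal B) (hI : I ≠ ⊤) (N : ℕ) (hN : maximalIdeal B ^ N ≤ I)
    (h3 : ¬ I ≤ maximalIdeal B ^ 3) :
    (∃ f g : B, I = Ideal.span {f, g}) ∨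
      ∃ w h1 h2 α β : B, w ∈ maximalIdeal B ∧ h1 ∈ maximalIdeal B ∧ h2 ∈ maximalIdeal B ∧
        α ∈ maximalIdeal B ∧ β ∈ maximalIdeal B ∧
        I = Ideal.span {α * h1 + β * h2, w * h1, w * h2} := by
  classical
  by_cases hIm : I ≤ maximalIdeal B ^ 2
  swap
  · left
    obtain ⟨f, hfI, hf2⟩ := Set.not_subset.mp hIm
    have hfm : f ∈ maximalIdeal B := IsLocalRing.le_maximalIdeal hI hfI
    obtain ⟨y, hy⟩ := exists_param hB f hfm hf2
    obtain ⟨g, hg⟩ := two_gen hB y f hy I hfI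
    exact ⟨f, g, hg⟩
  obtain ⟨f, hfI, hf3⟩ := Set.not_subset.mp h3
  obtain ⟨y, z, u, t, h, hu, ht, hfe⟩ := quad_coord hB f (hIm hfI) hf3
  rw [hfe] at hfI
  have hz : z ∈ maximalIdeal B := by rw [h]; exact Ideal.subset_span (by simp)
  set J : ℕ → Ideal B := fun i => (Submodule.comap (LinearMap.mulLeft B (z ^ i)) I : Ideal B) with hJdef
  have hJ : ∀ i x, x ∈ J i ↔ z ^ i * x ∈ I := fun i x => Iff.rfl
  have hJs : ∀ i x, x ∈ J (i + 1) ↔ z * x ∈ J i := by
    intro i x
    rw [hJ, hJ, pow_succ, mul_assoc]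
  have hfJ : ∀ i, u * y ^ 2 + z * t ∈ J i := fun i => (hJ i _).mpr (Ideal.mul_mem_left _ _ hfI)
  have hex : ∃ n, ¬ J n ≤ maximalIdeal B ^ 2 := by
    refine ⟨N, fun hle => ?_⟩
    have h1 : (1 : B) ∈ J N := by
      rw [hJ, mul_one]
      exact hN (Ideal.pow_mem_pow hz N)
    have h2 : (1 : B) ∈ maximalIdeal B := Ideal.pow_le_self two_ne_zero (hle h1)
    exact (Ideal.ne_top_iff_one _).1 (IsLocalRing.maximalIdeal.isMaximal B).ne_top h2
  set n := Nat.find hex with hn
  have hnm : ¬ J n ≤ maximalIdeal B ^ 2 := Nat.find_spec hex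
  have hlt : ∀ i, i < n → J i ≤ maximalIdeal B ^ 2 := by
    intro i hi
    by_contra hc
    exact Nat.find_min hex hi hc
  have hn1 : n ≠ 0 := by
    intro h0
    apply hnm
    rw [h0]
    intro x hx
    rw [hJ, pow_zero, one_mul] at hx
    exact hIm hx
  have hind : ∀ i, i ≤ n → I = Ideal.span {u * y ^ 2 + z * t} ⊔ Ideal.span {z ^ i} * J i := by
    intro i
    induction i with
    | zero =>
      intro _
      have e0 : J 0 = I := by
        ext x
        rw [hJ, pow_zero, one_mul]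
      rw [e0, pow_zero, Ideal.span_singleton_one, Ideal.top_mul]
      exact (sup_eq_right.mpr ((Ideal.span_singleton_le_iff_mem _).2 hfI)).symm
    | succ i ih =>
      intro hi
      have h1 := ih (by omega)
      have h2 := HBg_step h hu (J i) (J (i + 1)) (hlt i (by omega)) (hfJ i) (hJs i)
      have h4 : Ideal.span {z ^ i} * J i = Ideal.span {z ^ i} * Ideal.span {u * y ^ 2 + z * t} ⊔
          Ideal.span {z ^ (i + 1)} * J (i + 1) := by
        conv_lhs => rw [h2]
        rw [Ideal.mul_sup, ← mul_assoc, Ideal.span_singleton_mul_span_singleton (z ^ i) z, ← pow_succ]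
      have h5 : Ideal.span {z ^ i} * Ideal.span {u * y ^ 2 + z * t} ≤ Ideal.span {u * y ^ 2 + z * t} :=
        Ideal.mul_le_right
      conv_lhs => rw [h1]
      rw [h4, ← sup_assoc, sup_eq_left.mpr h5]
  have hIn := hind n (le_refl n)
  by_cases hJt : J n = ⊤
  · left
    refine ⟨u * y ^ 2 + z * t, z ^ n, ?_⟩
    rw [hJt, Ideal.mul_top, ← Ideal.span_insert] at hIn
    exact hIn
  obtain ⟨h1, h1J, h12⟩ := Set.not_subset.mp hnm
  have h1m : h1 ∈ maximalIdeal B := IsLocalRing.le_maximalIdeal hJt h1J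
  obtain ⟨w, hw⟩ := exists_param hB h1 h1m h12
  obtain ⟨h2, hJe⟩ := two_gen hB w h1 hw (J n) h1J
  have h2m : h2 ∈ maximalIdeal B := by
    refine IsLocalRing.le_maximalIdeal hJt ?_
    rw [hJe]
    exact Ideal.subset_span (by simp)
  have hfJn := hfJ n
  rw [hJe] at hfJn
  obtain ⟨α, β, hαβ⟩ := Ideal.mem_span_pair.mp hfJn
  rw [hJe, HB_span3, ← hαβ] at hIn
  by_cases hα : IsUnit α
  · left
    exact ⟨α * h1 + β * h2, z ^ n * h2, hIn.trans (HBg_unitA hα)⟩
  by_cases hβ : IsUnit β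
  · left
    exact ⟨α * h1 + β * h2, z ^ n * h1, hIn.trans (HBg_unitB hβ)⟩
  right
  exact ⟨z ^ n, h1, h2, α, β, Ideal.pow_mem_of_mem _ hz n (Nat.pos_of_ne_zero hn1), h1m, h2m,
    (mem_maximalIdeal α).mpr hα, (mem_maximalIdeal β).mpr hβ, hIn⟩

end STCI.M5
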