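import Pool.Agent.H24.M5.Lift

/-!
# Row LiftB: variant of `lift` (project MP_204867_M5)

Same proof as `lift` in `Lift.lean` (use `nak_lift`, `Lift_rel`, `Lift_no` from there): the rows lifted are `(w, -α, -β)` and
`(0, h2, -h1)`, with `p1, p2, p3` over `α h1 + β h2, w h1, w h2`. The entries are in `m_A` since `π` is a surjective homomorphism of local
rings (`IsLocalHom.of_surjective`): an element which maps into `m_B` is in `m_A`.
-/

set_option autoImplicit false

namespace STCI.M5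

open IsLocalRing

universe u

variable {A B : Type u} [CommRing A] [IsDomain A] [IsLocalRing A] [IsNoetherianRing A]
  [CommRing B] [IsLocalRing B]

theorem liftB [UniqueFactorizationMonoid A] (π : A →+* B) (hπ : Function.Surjective π) (l : A)
    (hker : RingHom.ker π = Ideal.span {l}) (hl : l ∈ maximalIdeal A) (P : Ideal A) [P.IsPrime]
    (hlP : l ∉ P) (hnp : ∀ ϖ : A, P ≠ Ideal.span {ϖ}) (w h1 h2 α β : B)
    (hw : w ∈ maximalIdeal B) (hh1 : h1 ∈ maximalIdeal B) (hh2 : h2 ∈ maximalIdeal B)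
    (hα : α ∈ maximalIdeal B) (hβ : β ∈ maximalIdeal B)
    (h : P.map π = Ideal.span {α * h1 + β * h2, w * h1, w * h2}) :
    ∃ e : Fin 2 → Fin 3 → A, (∀ i j, e i j ∈ maximalIdeal A) ∧
      P = Ideal.span {e 0 1 * e 1 2 - e 0 2 * e 1 1, e 0 2 * e 1 0 - e 0 0 * e 1 2,
        e 0 0 * e 1 1 - e 0 1 * e 1 0} := by
  have hex : ∀ b ∈ P.map π, ∃ p ∈ P, π p = b := fun b hb =>
    (Ideal.mem_map_iff_of_surjective π hπ).1 hb
  obtain ⟨p1, hp1, e1⟩ := hex (α * h1 + β * h2) (by rw [h]; exact Ideal.subset_span (by simp))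
  obtain ⟨p2, hp2, e2⟩ := hex (w * h1) (by rw [h]; exact Ideal.subset_span (by simp))
  obtain ⟨p3, hp3, e3⟩ := hex (w * h2) (by rw [h]; exact Ideal.subset_span (by simp))
  have hgen : ∀ q1 ∈ P, ∀ q2 ∈ P, ∀ q3 ∈ P, π q1 = α * h1 + β * h2 → π q2 = w * h1 →
      π q3 = w * h2 → P = Ideal.span {q1, q2, q3} := by
    intro q1 hq1 q2 hq2 q3 hq3 i1 i2 i3
    refine nak_lift π hπ l hker hl P hlP _ ?_ ?_
    · rw [Ideal.span_le]
      intro x hx
      simp only [Set.mem_insert_iff, Set.mem_singleton_iff] at hx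
      rcases hx with rfl | rfl | rfl <;> assumption
    · rw [h, Ideal.span_le]
      intro x hx
      simp only [Set.mem_insert_iff, Set.mem_singleton_iff] at hx
      rcases hx with rfl | rfl | rfl
      · rw [← i1]
        exact Ideal.mem_map_of_mem π (Ideal.subset_span (by simp))
      · rw [← i2]
        exact Ideal.mem_map_of_mem π (Ideal.subset_span (by simp))
      · rw [← i3]
        exact Ideal.mem_map_of_mem π (Ideal.subset_span (by simp))
  have hP := hgen p1 hp1 p2 hp2 p3 hp3 e1 e2 e3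
  obtain ⟨e11, e12, e13, j11, j12, j13, R1⟩ := Lift_rel π hπ l hker P hlP hP
    (c1 := w) (c2 := -α) (c3 := -β) (by rw [e1, e2, e3]; ring)
  obtain ⟨e21, e22, e23, j21, j22, j23, R2⟩ := Lift_rel π hπ l hker P hlP hP
    (c1 := 0) (c2 := h2) (c3 := -h1) (by rw [e1, e2, e3]; ring)
  have k1 : π (e12 * e23 - e13 * e22) = α * h1 + β * h2 := by
    rw [map_sub, map_mul, map_mul, j12, j13, j22, j23]
    ring
  have k2 : π (e13 * e21 - e11 * e23) = w * h1 := by
    rw [map_sub, map_mul, map_mul, j13, j21, j11, j23]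
    ring
  have k3 : π (e11 * e22 - e12 * e21) = w * h2 := by
    rw [map_sub, map_mul, map_mul, j11, j12, j21, j22]
    ring
  have s12 : p1 * (e13 * e21 - e11 * e23) = p2 * (e12 * e23 - e13 * e22) := by
    linear_combination e13 * R2 - e23 * R1
  have s13 : p1 * (e11 * e22 - e12 * e21) = p3 * (e12 * e23 - e13 * e22) := by
    linear_combination e22 * R1 - e12 * R2
  have s23 : p2 * (e11 * e22 - e12 * e21) = p3 * (e13 * e21 - e11 * e23) := by
    linear_combination e11 * R2 - e21 * R1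
  generalize hD1 : e12 * e23 - e13 * e22 = D1 at *
  generalize hD2 : e13 * e21 - e11 * e23 = D2 at *
  generalize hD3 : e11 * e22 - e12 * e21 = D3 at *
  have mem1 : D1 ∈ P := by
    by_contra hc
    refine Lift_no P hnp hc hp1 fun x hx => ?_
    rw [hP] at hx
    obtain ⟨c1, c2, c3, rfl⟩ := Lift_span hx
    exact ⟨c1 * D1 + c2 * D2 + c3 * D3, by linear_combination -c2 * s12 - c3 * s13⟩
  have mem2 : D2 ∈ P := by
    by_contra hc
    refine Lift_no P hnp hc hp2 fun x hx => ?_
    rw [hP] at hx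
    obtain ⟨c1, c2, c3, rfl⟩ := Lift_span hx
    exact ⟨c1 * D1 + c2 * D2 + c3 * D3, by linear_combination c1 * s12 - c3 * s23⟩
  have mem3 : D3 ∈ P := by
    by_contra hc
    refine Lift_no P hnp hc hp3 fun x hx => ?_
    rw [hP] at hx
    obtain ⟨c1, c2, c3, rfl⟩ := Lift_span hx
    exact ⟨c1 * D1 + c2 * D2 + c3 * D3, by linear_combination c1 * s13 + c2 * s23⟩
  have hcm : (maximalIdeal B).comap π = maximalIdeal A :=
    IsLocalRing.eq_maximalIdeal (Ideal.comap_isMaximal_of_surjective π hπ)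
  have hin : ∀ x, π x ∈ maximalIdeal B → x ∈ maximalIdeal A := by
    intro x hx
    rw [← hcm]
    exact hx
  refine ⟨![![e11, e12, e13], ![e21, e22, e23]], ?_, ?_⟩
  · intro i j
    fin_cases i <;> fin_cases j
    · exact hin e11 (by rw [j11]; exact hw)
    · exact hin e12 (by rw [j12]; exact (Ideal.neg_mem_iff _).2 hα)
    · exact hin e13 (by rw [j13]; exact (Ideal.neg_mem_iff _).2 hβ)
    · exact hin e21 (by rw [j21]; exact Ideal.zero_mem _)
    · exact hin e22 (by rw [j22]; exact hh2)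
    · exact hin e23 (by rw [j23]; exact (Ideal.neg_mem_iff _).2 hh1)
  · show P = Ideal.span {e12 * e23 - e13 * e22, e13 * e21 - e11 * e23, e11 * e22 - e12 * e21}
    rw [hD1, hD2, hD3]
    exact hgen D1 mem1 D2 mem2 D3 mem3 k1 k2 k3

end STCI.M5
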