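import Pool.Agent.H24.M5.RegB

/-!
# Row Lsel: choice of a section (project MP_204867_M5)

(0) If `m = (x, y, z)` then `x^k ∉ (y, z) + m^(k+1)`: otherwise `m^k ≤ (y, z) + m^(k+1)` (`(x, y, z)^k ≤ (y, z) + (x^k)`), so by Nakayama
`m^k ≤ (y, z)`, contradiction to `ht`. Also `y ∉ m^2` (else `m = (x, z) + m^2`, `m = (x, z)`), and in the same way `z ∉ m^2`.
(1) There are `x, y, z` with `m = (x, y, z)`, `k ≤ 2` and a unit `u` with `f - u x^k ∈ (y, z) + m^3`; hence `f ∉ (y, z) + m^3`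
(`m^3 ≤ m^(k+1)`, and (0)). Start with any `m = (x, y, z)`.
Case `f ∉ m^2`: `f = a x + b y + c z` with one of `a, b, c` a unit, say `a`: `m = (f, y, z)`; take `x := f`, `k = 1`, `u = 1`.
Case `f ∈ m^2`: `f = a x^2 + b y^2 + c z^2 + d x y + e x z + g y z`, not all coefficients in `m` (else `f ∈ m^3`). If `a` is a unit fine
(`k = 2`); `b`, `c`: permute. If `a, b, c ∈ m` and `d` is a unit: put `y' = y - x`, `m = (x, y', z)`, and
`f - (a + b + d) x^2 ∈ (y', z)`, `a + b + d` a unit. `e`, `g`: permute.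
(2) `y ∉ P` or `z ∉ P`: suppose `y, z ∈ P`. By (0)-like arguments: `f ∈ P` and `f ∉ (y, z) + m^3`. `f - u x^k ∈ (y, z) + m^3`, and
`m^3 ≤ (y, z) + (x^3)`, so `f - u x^k - c x^3 ∈ (y, z) ≤ P`, so `x^k (u + c x^(3-k)) ∈ P`, where `u + c x^(3-k)` is a unit; `k ≥ 1` (else `1 ∈ P`; in
fact `k` is `1` or `2`), so `x ∈ P` and `P = m`, contradiction.
Take `l = y` or `l = z`.
-/

set_option autoImplicit false

namespace STCI.M5

open IsLocalRing

universe u

theorem Lsel_nak {A : Type u} [CommRing A] [IsLocalRing A] [IsNoetherianRing A] (N I : Ideal A)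
    (h : N ≤ I ⊔ maximalIdeal A * N) : N ≤ I :=
  Submodule.le_of_le_smul_of_le_jacobson_bot (IsNoetherian.noetherian N)
    (IsLocalRing.maximalIdeal_le_jacobson ⊥) h

theorem Lsel_mem {A : Type u} [CommRing A] [IsLocalRing A] {x y z : A}
    (hm : maximalIdeal A = Ideal.span {x, y, z}) :
    x ∈ maximalIdeal A ∧ y ∈ maximalIdeal A ∧ z ∈ maximalIdeal A := by
  refine ⟨?_, ?_, ?_⟩
  · rw [hm]; exact Ideal.subset_span (Or.inl rfl)
  · rw [hm]; exact Ideal.subset_span (Or.inr (Or.inl rfl))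
  · rw [hm]; exact Ideal.subset_span (Or.inr (Or.inr rfl))

/-- `m^n ≤ (y, z) + (x^n)` -/
theorem Lsel_pow {A : Type u} [CommRing A] [IsLocalRing A] {x y z : A}
    (hm : maximalIdeal A = Ideal.span {x, y, z}) (n : ℕ) :
    maximalIdeal A ^ n ≤ Ideal.span {y, z} ⊔ Ideal.span {x ^ n} := by
  induction n with
  | zero =>
    rw [pow_zero, pow_zero]
    have h1 : Ideal.span {(1 : A)} = ⊤ := Ideal.span_singleton_one
    rw [h1]
    exact le_top.trans le_sup_right
  | succ n ih =>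
    rw [pow_succ]
    refine (Ideal.mul_mono_left ih).trans ?_
    rw [Ideal.mul_le]
    intro r hr s hs
    obtain ⟨r1, hr1, r2, hr2, rfl⟩ := Submodule.mem_sup.1 hr
    obtain ⟨c, rfl⟩ := Ideal.mem_span_singleton'.1 hr2
    rw [hm] at hs
    obtain ⟨a1, a2, a3, rfl⟩ := RegB_mem3 hs
    have e : (r1 + c * x ^ n) * (a1 * x + a2 * y + a3 * z) =
        (r1 * (a1 * x + a2 * y + a3 * z) + ((c * x ^ n * a2) * y + (c * x ^ n * a3) * z))
          + (c * a1) * x ^ (n + 1) := by ring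
    rw [e]
    refine Submodule.add_mem_sup (Ideal.add_mem _ (Ideal.mul_mem_right _ _ hr1) ?_)
      (Ideal.mem_span_singleton'.2 ⟨c * a1, rfl⟩)
    exact Ideal.mem_span_pair.2 ⟨_, _, rfl⟩

/-- no power statement: `x ^ n ∉ (y, z) + m^(n+1)` -/
theorem Lsel_not {A : Type u} [CommRing A] [IsLocalRing A] [IsNoetherianRing A] (hA : Reg3 A)
    {x y z : A} (hm : maximalIdeal A = Ideal.span {x, y, z}) (n : ℕ) :
    x ^ n ∉ Ideal.span {y, z} ⊔ maximalIdeal A ^ (n + 1) := by
  intro hx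
  obtain ⟨-, hy, hz⟩ := Lsel_mem hm
  refine hA.ht y hy z hz n (Lsel_nak _ _ ?_)
  rw [← pow_succ']
  refine (Lsel_pow hm n).trans (sup_le le_sup_left ?_)
  rw [Ideal.span_singleton_le_iff_mem]
  exact hx

theorem Lsel_unit {A : Type u} [CommRing A] [IsLocalRing A] [IsNoetherianRing A] (hA : Reg3 A)
    {x y z f a b c : A} {n : ℕ} (hn : n + 1 ≤ 3) (hm : maximalIdeal A = Ideal.span {x, y, z})
    (ha : IsUnit a) (hf : f = a * x ^ n + (b * y + c * z)) :
    f ∉ Ideal.span {y, z} ⊔ maximalIdeal A ^ 3 := by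
  intro h
  have h1 : b * y + c * z ∈ Ideal.span {y, z} ⊔ maximalIdeal A ^ 3 :=
    Ideal.mem_sup_left (Ideal.mem_span_pair.2 ⟨_, _, rfl⟩)
  have h2 : a * x ^ n ∈ Ideal.span {y, z} ⊔ maximalIdeal A ^ 3 := by
    have := Ideal.sub_mem _ h h1
    rwa [hf, add_sub_cancel_right] at this
  have h3 := (Ideal.unit_mul_mem_iff_mem _ ha).mp h2
  have h4 : Ideal.span {y, z} ⊔ maximalIdeal A ^ 3 ≤
      Ideal.span {y, z} ⊔ maximalIdeal A ^ (n + 1) :=
    sup_le_sup_left (Ideal.pow_le_pow_right hn) _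
  exact Lsel_not hA hm n (h4 h3)

theorem Lsel_sq {A : Type u} [CommRing A] (x y z f : A) (hf : f ∈ Ideal.span {x, y, z} ^ 2) :
    ∃ a b c d e g : A,
      f = a * x ^ 2 + b * y ^ 2 + c * z ^ 2 + d * (x * y) + e * (x * z) + g * (y * z) := by
  rw [pow_two] at hf
  refine Submodule.mul_induction_on hf ?_ ?_
  · intro r hr s hs
    obtain ⟨r1, r2, r3, rfl⟩ := RegB_mem3 hr
    obtain ⟨s1, s2, s3, rfl⟩ := RegB_mem3 hs
    exact ⟨r1 * s1, r2 * s2, r3 * s3, r1 * s2 + r2 * s1, r1 * s3 + r3 * s1, r2 * s3 + r3 * s2,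
      by ring⟩
  · rintro r s ⟨a, b, c, d, e, g, rfl⟩ ⟨a', b', c', d', e', g', rfl⟩
    exact ⟨a + a', b + b', c + c', d + d', e + e', g + g', by ring⟩

/-- the conclusion of step (1) -/
def Lsel_Good {A : Type u} [CommRing A] [IsLocalRing A] (f : A) : Prop :=
  ∃ x y z : A, maximalIdeal A = Ideal.span {x, y, z} ∧
    f ∉ Ideal.span {y, z} ⊔ maximalIdeal A ^ 3

theorem Lsel_quad {A : Type u} [CommRing A] [IsLocalRing A] [IsNoetherianRing A] (hA : Reg3 A)
    {x y z f a b c d e g : A} (hm : maximalIdeal A = Ideal.span {x, y, z}) (ha : IsUnit a)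
    (hf : f = a * x ^ 2 + b * y ^ 2 + c * z ^ 2 + d * (x * y) + e * (x * z) + g * (y * z)) :
    Lsel_Good f := by
  refine ⟨x, y, z, hm, Lsel_unit hA (n := 2) (b := b * y + d * x + g * z) (c := c * z + e * x)
    (by norm_num) hm ha ?_⟩
  rw [hf]; ring

theorem Lsel_mix {A : Type u} [CommRing A] [IsLocalRing A] [IsNoetherianRing A] (hA : Reg3 A)
    {x y z f a b c d e g : A} (hm : maximalIdeal A = Ideal.span {x, y, z})
    (ha : a ∈ maximalIdeal A) (hb : b ∈ maximalIdeal A) (hd : IsUnit d)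
    (hf : f = a * x ^ 2 + b * y ^ 2 + c * z ^ 2 + d * (x * y) + e * (x * z) + g * (y * z)) :
    Lsel_Good f := by
  have hu : IsUnit (a + b + d) := by
    by_contra hcon
    have h1 : a + b + d ∈ maximalIdeal A := (mem_maximalIdeal _).2 hcon
    have h2 : d ∈ maximalIdeal A := by
      have := Ideal.sub_mem _ h1 (Ideal.add_mem _ ha hb)
      rwa [add_sub_cancel_left] at this
    exact (mem_maximalIdeal _).1 h2 hd
  have hm' : maximalIdeal A = Ideal.span {x, y - x, z} := by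
    rw [hm]
    have e1 : ({x, y, z} : Set A) = {y, x, z} := Set.insert_comm x y {z}
    have e2 : ({x, y - x, z} : Set A) = {y - x, x, z} := Set.insert_comm x (y - x) {z}
    rw [e1, e2]
    exact RegB_span3 (α := 1) (β := -1) (γ := 0) isUnit_one (by ring)
  refine Lsel_quad hA (a := a + b + d) (b := b) (c := c) (d := 2 * b + d) (e := e + g) (g := g)
    hm' hu ?_
  rw [hf]; ring

theorem Lsel_good {A : Type u} [CommRing A] [IsLocalRing A] [IsNoetherianRing A] (hA : Reg3 A)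
    (f : A) (hf : f ∈ maximalIdeal A) (hf3 : f ∉ maximalIdeal A ^ 3) : Lsel_Good f := by
  by_cases hf2 : f ∈ maximalIdeal A ^ 2
  · obtain ⟨x, y, z, hm⟩ := hA.gen
    obtain ⟨hx, hy, hz⟩ := Lsel_mem hm
    rw [hm] at hf2
    obtain ⟨a, b, c, d, e, g, h⟩ := Lsel_sq x y z f hf2
    have m1 : maximalIdeal A = Ideal.span {y, x, z} := by rw [hm, Set.insert_comm x y {z}]
    have m2 : maximalIdeal A = Ideal.span {z, x, y} := by
      rw [hm, Set.pair_comm y z, Set.insert_comm x z]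
    have m3 : maximalIdeal A = Ideal.span {x, z, y} := by rw [hm, Set.pair_comm y z]
    have m4 : maximalIdeal A = Ideal.span {y, z, x} := by rw [m1, Set.pair_comm x z]
    by_cases ha : IsUnit a
    · exact Lsel_quad hA hm ha h
    by_cases hb : IsUnit b
    · exact Lsel_quad hA (a := b) (b := a) (c := c) (d := d) (e := g) (g := e) m1 hb
        (by rw [h]; ring)
    by_cases hc : IsUnit c
    · exact Lsel_quad hA (a := c) (b := a) (c := b) (d := e) (e := g) (g := d) m2 hc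
        (by rw [h]; ring)
    have ha' := (mem_maximalIdeal a).2 ha
    have hb' := (mem_maximalIdeal b).2 hb
    have hc' := (mem_maximalIdeal c).2 hc
    by_cases hd : IsUnit d
    · exact Lsel_mix hA hm ha' hb' hd h
    by_cases he : IsUnit e
    · exact Lsel_mix hA (a := a) (b := c) (c := b) (d := e) (e := d) (g := g) m3 ha' hc' he
        (by rw [h]; ring)
    by_cases hg : IsUnit g
    · exact Lsel_mix hA (a := b) (b := c) (c := a) (d := g) (e := d) (g := e) m4 hb' hc' hg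
        (by rw [h]; ring)
    exfalso
    apply hf3
    have hd' := (mem_maximalIdeal d).2 hd
    have he' := (mem_maximalIdeal e).2 he
    have hg' := (mem_maximalIdeal g).2 hg
    have key : ∀ {r s t : A}, r ∈ maximalIdeal A → s ∈ maximalIdeal A → t ∈ maximalIdeal A →
        r * (s * t) ∈ maximalIdeal A ^ 3 := by
      intro r s t hr hs ht
      have h1 : s * t ∈ maximalIdeal A ^ 2 := by
        rw [pow_two]; exact Ideal.mul_mem_mul hs ht
      have h2 := Ideal.mul_mem_mul hr h1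
      rwa [← pow_succ'] at h2
    rw [h, pow_two x, pow_two y, pow_two z]
    exact Ideal.add_mem _ (Ideal.add_mem _ (Ideal.add_mem _ (Ideal.add_mem _ (Ideal.add_mem _
      (key ha' hx hx) (key hb' hy hy)) (key hc' hz hz)) (key hd' hx hy)) (key he' hx hz))
      (key hg' hy hz)
  · obtain ⟨y, z, hm⟩ := RegB_gen hA f hf hf2
    exact ⟨f, y, z, hm, Lsel_unit hA (n := 1) (a := 1) (b := 0) (c := 0) (by norm_num) hm
      isUnit_one (by ring)⟩

theorem Lsel_notsq {A : Type u} [CommRing A] [IsLocalRing A] [IsNoetherianRing A] (hA : Reg3 A)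
    {x y z : A} (hm : maximalIdeal A = Ideal.span {x, y, z}) : x ∉ maximalIdeal A ^ 2 := by
  intro hx
  apply Lsel_not hA hm 1
  rw [pow_one]
  exact Ideal.mem_sup_right hx

theorem exists_section {A : Type u} [CommRing A] [IsLocalRing A] [IsNoetherianRing A]
    (hA : Reg3 A) (P : Ideal A) [P.IsPrime] (hPm : P < maximalIdeal A) (f : A)
    (hf : f ∈ P) (hf3 : f ∉ maximalIdeal A ^ 3) :
    ∃ l ∈ maximalIdeal A, l ∉ maximalIdeal A ^ 2 ∧ l ∉ P ∧
      f ∉ Ideal.span {l} ⊔ maximalIdeal A ^ 3 := by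
  obtain ⟨x, y, z, hm, hno⟩ := Lsel_good hA f (hPm.le hf) hf3
  obtain ⟨hx, hy, hz⟩ := Lsel_mem hm
  have m1 : maximalIdeal A = Ideal.span {y, x, z} := by rw [hm, Set.insert_comm x y {z}]
  have m2 : maximalIdeal A = Ideal.span {z, x, y} := by
    rw [hm, Set.pair_comm y z, Set.insert_comm x z]
  have hy2 := Lsel_notsq hA m1
  have hz2 := Lsel_notsq hA m2
  by_cases hyP : y ∈ P
  · by_cases hzP : z ∈ P
    · exfalso
      have hxP : x ∉ P := by
        intro hxP
        apply hPm.not_ge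
        rw [hm, Ideal.span_le]
        rintro w (rfl | rfl | rfl)
        · exact hxP
        · exact hyP
        · exact hzP
      have hstep : ∀ g ∈ P, ∃ c ∈ P, ∃ b1 b2 : A, g = c * x + (b1 * y + b2 * z) := by
        intro g hg
        have hgm := hPm.le hg
        rw [hm] at hgm
        obtain ⟨c, b1, b2, h⟩ := RegB_mem3 hgm
        refine ⟨c, ?_, b1, b2, by rw [h, add_assoc]⟩
        have h1 : c * x ∈ P := by
          have h2 : b1 * y + b2 * z ∈ P :=
            P.add_mem (P.mul_mem_left _ hyP) (P.mul_mem_left _ hzP)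
          have h3 := P.sub_mem hg h2
          rwa [h, add_assoc, add_sub_cancel_right] at h3
        exact ((inferInstance : P.IsPrime).mem_or_mem h1).resolve_right hxP
      obtain ⟨c1, hc1, b1, b1', h1⟩ := hstep f hf
      obtain ⟨c2, hc2, b2, b2', h2⟩ := hstep c1 hc1
      obtain ⟨c3, hc3, b3, b3', h3⟩ := hstep c2 hc2
      apply hno
      have e : f = ((b1 + b2 * x + b3 * x ^ 2) * y + (b1' + b2' * x + b3' * x ^ 2) * z)
          + c3 * x ^ 3 := by
        rw [h1, h2, h3]; ring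
      rw [e]
      exact Submodule.add_mem_sup (Ideal.mem_span_pair.2 ⟨_, _, rfl⟩)
        (Ideal.mul_mem_left _ _ (Ideal.pow_mem_pow hx 3))
    · have h4 : Ideal.span {z} ⊔ maximalIdeal A ^ 3 ≤ Ideal.span {y, z} ⊔ maximalIdeal A ^ 3 :=
        sup_le_sup_right (Ideal.span_mono (by simp)) _
      exact ⟨z, hz, hz2, hzP, fun h => hno (h4 h)⟩
  · have h4 : Ideal.span {y} ⊔ maximalIdeal A ^ 3 ≤ Ideal.span {y, z} ⊔ maximalIdeal A ^ 3 :=
      sup_le_sup_right (Ideal.span_mono (by simp)) _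
    exact ⟨y, hy, hy2, hyP, fun h => hno (h4 h)⟩

end STCI.M5
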