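import Pool.Agent.H24.M5.Sym

/-!
# Row SymB: variant of `sym` (project MP_204867_M5)

`P = I_2(e)`, all `e i j ∈ m`, and `f ∈ P` is such that `f - c h^2 ∉ m^3` for all `c` and all `h ∈ m`.
(1) There are two entries `e, e'` of the matrix which are independent modulo `m^2`: `a e + b e' ∈ m^2 → a ∈ m ∧ b ∈ m`. Otherwise there
is `h ∈ m` with `e i j - λ_ij h ∈ m^2` for all `i, j` (if all entries are in `m^2` take `h = 0`, `λ = 0`; otherwise take for `h` an entry
which is not in `m^2`; for another entry `e'` there are `a, b` not both in `m` with `a h + b e' ∈ m^2`; `b` is a unit, else `a h ∈ m^2` with `a`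
a unit; so `e' + b⁻¹ a h ∈ m^2`). Then every minor is `≡ μ h^2` modulo `m^3`, so every element of `P` is `c h^2` modulo `m^3`:
contradiction for `f`.
(2) There is `l` with `m = (e, e', l)`: `m = (x, y, z)` (`gen`), `e = a1 x + a2 y + a3 z` with one `a_i` a unit (else `e ∈ m^2`), say
`a1`: `m = (e, y, z)`; `e' = b1 e + b2 y + b3 z`; `b2` or `b3` is a unit (else `e' - b1 e ∈ m^2`, contradiction to independence), say `b2`:
`m = (e, e', z)`.
(3) `SymA_two` (file `SymA.lean`) gives `g : Fin 3 → A` with `(entries) = (g)`.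
(4) Now follow the proof of `sym` in `Sym.lean` from the point where `g` is available (it may be useful to copy it): in the second case
of `rank_lemma` one gets `P ≤ m^3`, contradiction to `hf` with `c = 0`.
-/

set_option autoImplicit false

namespace STCI.M5

open IsLocalRing

universe u

theorem SymB_exch {A : Type u} [CommRing A] [IsLocalRing A] {x y z w a b c : A}
    (hm : maximalIdeal A = Ideal.span {x, y, z}) (hw : w = a * x + b * y + c * z) (ha : IsUnit a) :
    maximalIdeal A = Ideal.span {w, y, z} := by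
  have hx : x ∈ Ideal.span {x, y, z} := Ideal.subset_span (by simp)
  have hy : y ∈ Ideal.span {x, y, z} := Ideal.subset_span (by simp)
  have hz : z ∈ Ideal.span {x, y, z} := Ideal.subset_span (by simp)
  have hw' : w ∈ Ideal.span {w, y, z} := Ideal.subset_span (by simp)
  have hy' : y ∈ Ideal.span {w, y, z} := Ideal.subset_span (by simp)
  have hz' : z ∈ Ideal.span {w, y, z} := Ideal.subset_span (by simp)
  rw [hm]
  apply le_antisymm
  · rw [Ideal.span_le]
    rintro t (rfl | rfl | rfl)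
    · obtain ⟨v, rfl⟩ := ha
      have e : t = (↑v⁻¹ : A) * (w - b * y - c * z) := by
        have h1 : w - b * y - c * z = (↑v : A) * t := by
          rw [hw]; ring
        rw [h1, ← mul_assoc, Units.inv_mul, one_mul]
      show t ∈ Ideal.span {w, y, z}
      have h2 : (↑v⁻¹ : A) * (w - b * y - c * z) ∈ Ideal.span {w, y, z} :=
        Ideal.mul_mem_left _ _ (Ideal.sub_mem _ (Ideal.sub_mem _ hw' (Ideal.mul_mem_left _ _ hy'))
          (Ideal.mul_mem_left _ _ hz'))
      rwa [← e] at h2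
    · exact hy'
    · exact hz'
  · rw [Ideal.span_le]
    rintro t (rfl | rfl | rfl)
    · show t ∈ Ideal.span {x, y, z}
      rw [hw]
      exact Ideal.add_mem _ (Ideal.add_mem _ (Ideal.mul_mem_left _ _ hx)
        (Ideal.mul_mem_left _ _ hy)) (Ideal.mul_mem_left _ _ hz)
    · exact hy
    · exact hz

theorem SymB_two {A : Type u} [CommRing A] [IsLocalRing A] {e e' y z : A}
    (hm : maximalIdeal A = Ideal.span {e, y, z}) (he' : e' ∈ maximalIdeal A)
    (hi : ∀ a b : A, a * e + b * e' ∈ maximalIdeal A ^ 2 → a ∈ maximalIdeal A ∧ b ∈ maximalIdeal A) :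
    ∃ l, maximalIdeal A = Ideal.span {e, e', l} := by
  have hy : y ∈ maximalIdeal A := by rw [hm]; exact Ideal.subset_span (by simp)
  have hz : z ∈ maximalIdeal A := by rw [hm]; exact Ideal.subset_span (by simp)
  have h1 : e' ∈ Ideal.span {e, y, z} := hm ▸ he'
  obtain ⟨b1, t, ht, e1⟩ := Ideal.mem_span_insert.1 h1
  obtain ⟨b2, b3, e2⟩ := Ideal.mem_span_pair.1 ht
  have ee : e' = b1 * e + b2 * y + b3 * z := by rw [e1, ← e2]; ring
  have hm2 : maximalIdeal A = Ideal.span {y, e, z} := by rw [hm, Set.insert_comm]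
  have hm3 : maximalIdeal A = Ideal.span {z, e, y} := by
    rw [hm]
    congr 1
    ext w
    simp only [Set.mem_insert_iff, Set.mem_singleton_iff]
    tauto
  by_cases hb2 : IsUnit b2
  · refine ⟨z, ?_⟩
    have := SymB_exch (w := e') (a := b2) (b := b1) (c := b3) hm2 (by rw [ee]; ring) hb2
    rw [this, Set.insert_comm]
  by_cases hb3 : IsUnit b3
  · refine ⟨y, ?_⟩
    have := SymB_exch (w := e') (a := b3) (b := b1) (c := b2) hm3 (by rw [ee]; ring) hb3
    rw [this, Set.insert_comm]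
  exfalso
  have h2 : (-b1) * e + 1 * e' ∈ maximalIdeal A ^ 2 := by
    have h3 : (-b1) * e + 1 * e' = b2 * y + b3 * z := by rw [ee]; ring
    rw [h3, pow_two]
    exact Ideal.add_mem _ (Ideal.mul_mem_mul ((mem_maximalIdeal b2).2 hb2) hy)
      (Ideal.mul_mem_mul ((mem_maximalIdeal b3).2 hb3) hz)
  exact (mem_maximalIdeal (1 : A)).1 (hi _ _ h2).2 isUnit_one

theorem SymB_three {A : Type u} [CommRing A] [IsLocalRing A] {e e' x y z : A}
    (hm : maximalIdeal A = Ideal.span {x, y, z}) (he : e ∈ maximalIdeal A)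
    (he' : e' ∈ maximalIdeal A)
    (hi : ∀ a b : A, a * e + b * e' ∈ maximalIdeal A ^ 2 → a ∈ maximalIdeal A ∧ b ∈ maximalIdeal A) :
    ∃ l, maximalIdeal A = Ideal.span {e, e', l} := by
  have hx : x ∈ maximalIdeal A := by rw [hm]; exact Ideal.subset_span (by simp)
  have hy : y ∈ maximalIdeal A := by rw [hm]; exact Ideal.subset_span (by simp)
  have hz : z ∈ maximalIdeal A := by rw [hm]; exact Ideal.subset_span (by simp)
  have h1 : e ∈ Ideal.span {x, y, z} := hm ▸ he
  obtain ⟨b1, t, ht, e1⟩ := Ideal.mem_span_insert.1 h1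
  obtain ⟨b2, b3, e2⟩ := Ideal.mem_span_pair.1 ht
  have ee : e = b1 * x + b2 * y + b3 * z := by rw [e1, ← e2]; ring
  have hm2 : maximalIdeal A = Ideal.span {y, x, z} := by rw [hm, Set.insert_comm]
  have hm3 : maximalIdeal A = Ideal.span {z, x, y} := by
    rw [hm]
    congr 1
    ext w
    simp only [Set.mem_insert_iff, Set.mem_singleton_iff]
    tauto
  by_cases hb1 : IsUnit b1
  · exact SymB_two (SymB_exch hm ee hb1) he' hi
  by_cases hb2 : IsUnit b2
  · exact SymB_two (SymB_exch (w := e) (a := b2) (b := b1) (c := b3) hm2 (by rw [ee]; ring) hb2)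
      he' hi
  by_cases hb3 : IsUnit b3
  · exact SymB_two (SymB_exch (w := e) (a := b3) (b := b1) (c := b2) hm3 (by rw [ee]; ring) hb3)
      he' hi
  exfalso
  have h2 : (1 : A) * e + 0 * e' ∈ maximalIdeal A ^ 2 := by
    have h3 : (1 : A) * e + 0 * e' = b1 * x + b2 * y + b3 * z := by rw [ee]; ring
    rw [h3, pow_two]
    exact Ideal.add_mem _ (Ideal.add_mem _ (Ideal.mul_mem_mul ((mem_maximalIdeal b1).2 hb1) hx)
      (Ideal.mul_mem_mul ((mem_maximalIdeal b2).2 hb2) hy))
      (Ideal.mul_mem_mul ((mem_maximalIdeal b3).2 hb3) hz)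
  exact (mem_maximalIdeal (1 : A)).1 (hi _ _ h2).1 isUnit_one

/-- the minors modulo `m ^ 3` when all entries are multiples of `h` modulo `m ^ 2` -/
theorem SymB_minor {A : Type u} [CommRing A] {m : Ideal A} {h a b c d p q r s : A}
    (hh : h ∈ m) (ha : a - p * h ∈ m ^ 2) (hb : b - q * h ∈ m ^ 2) (hc : c - r * h ∈ m ^ 2)
    (hd : d - s * h ∈ m ^ 2) : (a * b - c * d) - (p * q - r * s) * h ^ 2 ∈ m ^ 3 := by
  have key : ∀ x y t u : A, x - t * h ∈ m ^ 2 → y - u * h ∈ m ^ 2 →
      x * y - t * u * h ^ 2 ∈ m ^ 3 := by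
    intro x y t u hx hy
    have e : x * y - t * u * h ^ 2 = (x - t * h) * (y - u * h) + (u * ((x - t * h) * h) +
        t * ((y - u * h) * h)) := by ring
    rw [e]
    have h1 : (x - t * h) * h ∈ m ^ 3 := by
      rw [pow_succ]; exact Ideal.mul_mem_mul hx hh
    have h2 : (y - u * h) * h ∈ m ^ 3 := by
      rw [pow_succ]; exact Ideal.mul_mem_mul hy hh
    have h3 : (x - t * h) * (y - u * h) ∈ m ^ 3 := by
      have h4 : (x - t * h) * (y - u * h) ∈ m ^ (2 + 2) := by
        rw [pow_add]; exact Ideal.mul_mem_mul hx hy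
      exact Ideal.pow_le_pow_right (by norm_num) h4
    exact Ideal.add_mem _ h3 (Ideal.add_mem _ (Ideal.mul_mem_left _ _ h1)
      (Ideal.mul_mem_left _ _ h2))
  have h1 := key a b p q ha hb
  have h2 := key c d r s hc hd
  have e : (a * b - c * d) - (p * q - r * s) * h ^ 2 =
      (a * b - p * q * h ^ 2) - (c * d - r * s * h ^ 2) := by ring
  rw [e]
  exact Ideal.sub_mem _ h1 h2

theorem symB {A : Type u} [CommRing A] [IsLocalRing A] [IsNoetherianRing A] (hA : Reg3 A)
    (P : Ideal A) (e : Fin 2 → Fin 3 → A) (he : ∀ i j, e i j ∈ maximalIdeal A)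
    (hP : P = Ideal.span {e 0 1 * e 1 2 - e 0 2 * e 1 1, e 0 2 * e 1 0 - e 0 0 * e 1 2,
        e 0 0 * e 1 1 - e 0 1 * e 1 0})
    (f : A) (hfP : f ∈ P) (hf : ∀ c, ∀ h ∈ maximalIdeal A, f - c * h ^ 2 ∉ maximalIdeal A ^ 3) :
    ∃ α β γ δ1 δ2 : A, P = Ideal.span {α * γ - β ^ 2, α * δ2 - β * δ1, β * δ2 - γ * δ1} := by
  classical
  have hP3 : ¬ P ≤ maximalIdeal A ^ 3 := by
    intro hle
    have := hf 0 0 (Ideal.zero_mem _)
    rw [zero_mul, sub_zero] at this
    exact this (hle hfP)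
  -- not all entries are multiples of one element modulo `m ^ 2`
  have hno : ∀ h ∈ maximalIdeal A, ¬ ∀ i j, ∃ t, e i j - t * h ∈ maximalIdeal A ^ 2 := by
    intro h hh hall
    choose t ht using hall
    rw [hP] at hfP
    obtain ⟨c1, s1, hs1, e1⟩ := Ideal.mem_span_insert.1 hfP
    obtain ⟨c2, c3, e2⟩ := Ideal.mem_span_pair.1 hs1
    have m1 := SymB_minor hh (ht 0 1) (ht 1 2) (ht 0 2) (ht 1 1)
    have m2 := SymB_minor hh (ht 0 2) (ht 1 0) (ht 0 0) (ht 1 2)
    have m3 := SymB_minor hh (ht 0 0) (ht 1 1) (ht 0 1) (ht 1 0)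
    refine hf (c1 * (t 0 1 * t 1 2 - t 0 2 * t 1 1) + c2 * (t 0 2 * t 1 0 - t 0 0 * t 1 2) +
      c3 * (t 0 0 * t 1 1 - t 0 1 * t 1 0)) h hh ?_
    have e3 : f - (c1 * (t 0 1 * t 1 2 - t 0 2 * t 1 1) + c2 * (t 0 2 * t 1 0 - t 0 0 * t 1 2) +
        c3 * (t 0 0 * t 1 1 - t 0 1 * t 1 0)) * h ^ 2 =
        c1 * ((e 0 1 * e 1 2 - e 0 2 * e 1 1) - (t 0 1 * t 1 2 - t 0 2 * t 1 1) * h ^ 2) +
        c2 * ((e 0 2 * e 1 0 - e 0 0 * e 1 2) - (t 0 2 * t 1 0 - t 0 0 * t 1 2) * h ^ 2) +
        c3 * ((e 0 0 * e 1 1 - e 0 1 * e 1 0) - (t 0 0 * t 1 1 - t 0 1 * t 1 0) * h ^ 2) := by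
      rw [e1, ← e2]
      ring
    rw [e3]
    exact Ideal.add_mem _ (Ideal.add_mem _ (Ideal.mul_mem_left _ _ m1) (Ideal.mul_mem_left _ _ m2))
      (Ideal.mul_mem_left _ _ m3)
  -- two independent entries
  have hind : ∃ i j i' j', ∀ a b : A, a * e i j + b * e i' j' ∈ maximalIdeal A ^ 2 →
      a ∈ maximalIdeal A ∧ b ∈ maximalIdeal A := by
    by_contra hcon
    push Not at hcon
    by_cases hall : ∀ i j, e i j ∈ maximalIdeal A ^ 2
    · exact hno 0 (Ideal.zero_mem _) fun i j => ⟨0, by rw [zero_mul, sub_zero]; exact hall i j⟩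
    · push Not at hall
      obtain ⟨i0, j0, h0⟩ := hall
      refine hno (e i0 j0) (he i0 j0) fun i j => ?_
      obtain ⟨a, b, hab, hn⟩ := hcon i0 j0 i j
      have hb : IsUnit b := by
        by_contra hb
        have hbm : b ∈ maximalIdeal A := (mem_maximalIdeal b).2 hb
        have ha : IsUnit a := by
          by_contra ha
          exact hn ((mem_maximalIdeal a).2 ha) hbm
        have h1 : a * e i0 j0 ∈ maximalIdeal A ^ 2 := by
          have h2 : b * e i j ∈ maximalIdeal A ^ 2 := by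
            rw [pow_two]; exact Ideal.mul_mem_mul hbm (he i j)
          have h3 := Ideal.sub_mem _ hab h2
          rwa [add_sub_cancel_right] at h3
        obtain ⟨v, rfl⟩ := ha
        have h4 := Ideal.mul_mem_left _ (↑v⁻¹ : A) h1
        rw [← mul_assoc, Units.inv_mul, one_mul] at h4
        exact h0 h4
      obtain ⟨v, rfl⟩ := hb
      refine ⟨-((↑v⁻¹ : A) * a), ?_⟩
      have h4 := Ideal.mul_mem_left _ (↑v⁻¹ : A) hab
      have h5 : (↑v⁻¹ : A) * (a * e i0 j0 + ↑v * e i j) =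
          e i j - -((↑v⁻¹ : A) * a) * e i0 j0 := by
        rw [mul_add, ← mul_assoc, ← mul_assoc, Units.inv_mul, one_mul]
        ring
      rwa [h5] at h4
  obtain ⟨i, j, i', j', hij⟩ := hind
  obtain ⟨x, y, z, hg⟩ := hA.gen
  obtain ⟨l, hl⟩ := SymB_three hg (he i j) (he i' j') hij
  have hlm : l ∈ maximalIdeal A := by rw [hl]; exact Ideal.subset_span (by simp)
  refine sym hA P hP3 (e 0 0) (e 0 1) (e 0 2) (e 1 0) (e 1 1) (e 1 2) l hP ?_
  have hmem : ∀ i j, e i j ∈ Ideal.span {e 0 0, e 0 1, e 0 2, e 1 0, e 1 1, e 1 2, l} := by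
    intro i j
    apply Ideal.subset_span
    fin_cases i <;> fin_cases j <;> simp
  apply le_antisymm
  · rw [hl, Ideal.span_le]
    rintro t (rfl | rfl | rfl)
    · exact hmem i j
    · exact hmem i' j'
    · exact Ideal.subset_span (by simp)
  · rw [Ideal.span_le]
    rintro t (rfl | rfl | rfl | rfl | rfl | rfl | rfl)
    · exact he 0 0
    · exact he 0 1
    · exact he 0 2
    · exact he 1 0
    · exact he 1 1
    · exact he 1 2
    · exact hlm

end STCI.M5
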