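import Pool.Agent.H24.M5.Glob
import Pool.Agent.H24.M5.An
import Pool.Agent.H24.M5.HBg
import Pool.Agent.H24.M5.LiftB
import Pool.Agent.H24.M5.SymB
import Pool.Agent.H24.M5.Lsel
import Pool.Agent.H24.LG.StabB

/-!
# Curves with small singularities
-/

set_option autoImplicit false

namespace STCI.M5

open IsLocalRing STCI.LG MvPolynomial

universe u

theorem local_double_quot {A B : Type u} [CommRing A] [IsDomain A] [IsLocalRing A]
    [IsNoetherianRing A] [UniqueFactorizationMonoid A] [CommRing B] [IsDomain B] [IsLocalRing B]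
    [IsNoetherianRing B] (hA : Reg3 A) (π : A →+* B) (hπ : Function.Surjective π) (l : A)
    (hker : RingHom.ker π = Ideal.span {l}) (hl : l ∈ maximalIdeal A)
    (hl2 : l ∉ maximalIdeal A ^ 2) (P : Ideal A) [P.IsPrime] (hdim : OneDim P) (hlP : l ∉ P)
    (hnp : ∀ ϖ : A, P ≠ Ideal.span {ϖ}) (f : A) (hfP : f ∈ P)
    (hf3 : f ∉ Ideal.span {l} ⊔ maximalIdeal A ^ 3)
    (hf : ∀ c, ∀ h ∈ maximalIdeal A, f - c * h ^ 2 ∉ maximalIdeal A ^ 3) :
    ∃ a b : A, a ∈ P ∧ b ∈ P ∧ P ≤ (Ideal.span {a, b}).radical ∧ GenSmooth P a := by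
  have hB : Reg2 B := reg2_of_surj hA π hπ l hker hl hl2
  have hPle : P ≤ maximalIdeal A := le_maximalIdeal (‹P.IsPrime›).ne_top
  have hloc : IsLocalHom π := IsLocalHom.of_surjective π hπ
  have hmap : (maximalIdeal A).map π ≤ maximalIdeal B := by
    rw [Ideal.map_le_iff_le_comap]
    intro x hx
    rw [Ideal.mem_comap, mem_maximalIdeal, mem_nonunits_iff]
    intro hu
    exact hx (isUnit_of_map_unit π x hu)
  have hmap' : maximalIdeal B ≤ (maximalIdeal A).map π := by
    intro x hx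
    obtain ⟨y, rfl⟩ := hπ x
    refine Ideal.mem_map_of_mem π ?_
    rw [mem_maximalIdeal, mem_nonunits_iff]
    intro hu
    exact hx (hu.map π)
  have hIm : P.map π ≤ maximalIdeal B := (Ideal.map_mono hPle).trans hmap
  have hIt : P.map π ≠ ⊤ := fun h => (maximalIdeal.isMaximal B).ne_top (top_le_iff.1 (h ▸ hIm))
  have hlmem : ∀ x : A, π x = 0 → x ∈ Ideal.span {l} := fun x hx => by
    rw [← hker]
    exact hx
  obtain ⟨N, hN⟩ := pow_le_sup P hdim l hlP
  have hNB : maximalIdeal B ^ N ≤ P.map π := by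
    refine (Ideal.pow_right_mono hmap' N).trans ?_
    rw [← Ideal.map_pow]
    refine (Ideal.map_mono hN).trans ?_
    rw [Ideal.map_sup]
    refine sup_le le_rfl ?_
    rw [Ideal.map_le_iff_le_comap, Ideal.span_singleton_le_iff_mem, Ideal.mem_comap]
    have h1 : π l = 0 := by
      have h2 : l ∈ RingHom.ker π := by
        rw [hker]
        exact Ideal.mem_span_singleton_self l
      exact h2
    rw [h1]
    exact Ideal.zero_mem _
  have h3 : ¬ P.map π ≤ maximalIdeal B ^ 3 := by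
    intro h
    apply hf3
    have h1 : π f ∈ (maximalIdeal A ^ 3).map π := by
      rw [Ideal.map_pow]
      exact Ideal.pow_right_mono hmap' 3 (h (Ideal.mem_map_of_mem π hfP))
    obtain ⟨y, hy, hyf⟩ := (Ideal.mem_map_iff_of_surjective π hπ).1 h1
    have h2 : f = (f - y) + y := by ring
    rw [h2]
    exact Ideal.add_mem _ (Ideal.mem_sup_left (hlmem _ (by rw [map_sub, hyf, sub_self])))
      (Ideal.mem_sup_right hy)
  rcases hb_gen hB (P.map π) hIt N hNB h3 with ⟨f1, g1, hfg⟩ | ⟨w, h1, h2, α, β, hw, hh1, hh2, hα,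
    hβ, hI⟩
  · have hf1 : f1 ∈ P.map π := by rw [hfg]; exact mem_pair_left _ _
    have hg1 : g1 ∈ P.map π := by rw [hfg]; exact mem_pair_right _ _
    obtain ⟨f', hf', rfl⟩ := (Ideal.mem_map_iff_of_surjective π hπ).1 hf1
    obtain ⟨g', hg', rfl⟩ := (Ideal.mem_map_iff_of_surjective π hπ).1 hg1
    have h1 : P = Ideal.span {f', g'} := by
      refine nak_lift π hπ l hker hl P hlP _ (span_pair_le hf' hg') ?_
      rw [hfg, Ideal.map_span, Set.image_pair]
    exact fin_two P hnp f' g' h1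
  · obtain ⟨e, he, hPe⟩ := liftB π hπ l hker hl P hlP hnp w h1 h2 α β hw hh1 hh2 hα hβ hI
    obtain ⟨α, β, γ, δ1, δ2, h4⟩ := symB hA P e he hPe f hfP hf
    exact fin_sym P hnp α β γ δ1 δ2 h4

theorem local_double {A : Type u} [CommRing A] [IsDomain A] [IsLocalRing A]
    [IsNoetherianRing A] [UniqueFactorizationMonoid A] (hA : Reg3 A) (P : Ideal A) [P.IsPrime]
    (hdim : OneDim P) (hPm : P ≠ maximalIdeal A) (hnp : ∀ ϖ : A, P ≠ Ideal.span {ϖ}) (f : A)
    (hfP : f ∈ P) (hf : ∀ c, ∀ h ∈ maximalIdeal A, f - c * h ^ 2 ∉ maximalIdeal A ^ 3) :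
    ∃ a b : A, a ∈ P ∧ b ∈ P ∧ P ≤ (Ideal.span {a, b}).radical ∧ GenSmooth P a := by
  have hf0 : f ∉ maximalIdeal A ^ 3 := by
    have := hf 0 0 (Ideal.zero_mem _)
    rwa [zero_mul, sub_zero] at this
  obtain ⟨l, hl, hl2, hlP, hlf⟩ := exists_section hA P
    (lt_of_le_of_ne (le_maximalIdeal (‹P.IsPrime›).ne_top) hPm) f hfP hf0
  have hprime : (Ideal.span {l}).IsPrime := isPrime_of_not_sq l hl hl2
  have hnt : Nontrivial (A ⧸ Ideal.span {l}) := Ideal.Quotient.nontrivial_iff.2 hprime.ne_top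
  have hloc : IsLocalRing (A ⧸ Ideal.span {l}) :=
    IsLocalRing.of_surjective' (Ideal.Quotient.mk (Ideal.span {l})) Ideal.Quotient.mk_surjective
  exact local_double_quot hA (Ideal.Quotient.mk (Ideal.span {l})) Ideal.Quotient.mk_surjective l
    Ideal.mk_ker hl hl2 P hdim hlP hnp f hfP hlf hf

/-- The singularity (of the curve with ideal `P` in the three-dimensional regular local ring `A`) is small: either a regular surface
germ meets the curve with multiplicity at most five; or the curve lies on a surface germ which is regular or has a double point whose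
quadratic tangent cone is not a double plane; or the ideal of the curve is generated by the maximal minors of a matrix with rows
`(α, β ^ i, δ1)` and `(β ^ j, γ, δ2)`, with `α` or `γ` not vanishing on the curve. -/
def MildSing {A : Type u} [CommRing A] [IsLocalRing A] (P : Ideal A) : Prop :=
  (∃ l ∈ maximalIdeal A, l ∉ maximalIdeal A ^ 2 ∧
    Module.length A (A ⧸ (P ⊔ Ideal.span {l})) ≤ 5) ∨
  (∃ f ∈ P, ∀ c, ∀ h ∈ maximalIdeal A, f - c * h ^ 2 ∉ maximalIdeal A ^ 3) ∨
  ∃ (α β γ δ1 δ2 : A) (i j : ℕ), (α ∉ P ∨ γ ∉ P) ∧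
    P = Ideal.span {α * γ - β ^ (i + j), α * δ2 - β ^ j * δ1, β ^ i * δ2 - γ * δ1}

theorem local_small {A : Type u} [CommRing A] [IsDomain A] [IsLocalRing A]
    [IsNoetherianRing A] [UniqueFactorizationMonoid A] (hA : Reg3 A) (P : Ideal A) [P.IsPrime]
    (hdim : OneDim P) (hPm : P ≠ maximalIdeal A) (hnp : ∀ ϖ : A, P ≠ Ideal.span {ϖ})
    (h : MildSing P) :
    ∃ a b : A, a ∈ P ∧ b ∈ P ∧ P ≤ (Ideal.span {a, b}).radical ∧ GenSmooth P a := by
  rcases h with ⟨l, hl, hl2, hlen⟩ | ⟨f, hfP, hf⟩ | ⟨α, β, γ, δ1, δ2, i, j, hne, hP⟩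
  · exact local_five hA l hl hl2 P hPm hnp hlen
  · exact local_double hA P hdim hPm hnp f hfP hf
  · exact fin_pow P hnp α β γ δ1 δ2 i j hne hP

theorem twoEq_small (k : Type u) [Field k] (P : Ideal (MvPolynomial (Fin 3) k)) [P.IsPrime]
    (hPmax : ¬ P.IsMaximal)
    (h : ∀ (m : Ideal (MvPolynomial (Fin 3) k)) [m.IsMaximal], P ≤ m →
      MildSing (P.map (algebraMap _ (Localization.AtPrime m)))) : TwoEq P := by
  by_cases hnp : ∀ π, P ≠ Ideal.span {π}
  swap
  · push Not at hnp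
    obtain ⟨π, hπ⟩ := hnp
    refine ⟨π, π, ?_⟩
    rw [Set.pair_eq_singleton, ← hπ]
    exact (‹P.IsPrime›).radical
  rcases UN.principal_or_dimLEOne k P with ⟨π, hπ⟩ | hdim1
  · exact absurd hπ (hnp π)
  refine twoEq_prime k P fun m hm hPm => ?_
  have hPA := isPrime_map P m hPm
  have hdimA := oneDim_map P m hPm (OneDim.of_dimensionLEOne hdim1)
  have hne : P.map (algebraMap _ (Localization.AtPrime m)) ≠
      maximalIdeal (Localization.AtPrime m) := by
    intro h1
    apply hPmax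
    have h2 : P = m := by
      ext x
      rw [← mem_of_map P m hPm, h1, ← IsLocalization.AtPrime.map_eq_maximalIdeal m,
        mem_of_map m m le_rfl]
    rw [h2]
    exact hm
  obtain ⟨a, b, ha, hb, hrad, hs⟩ := local_small (reg3_loc k m)
    (P.map (algebraMap _ (Localization.AtPrime m))) hdimA hne (map_not_principal P m hPm hnp)
    (h m hPm)
  exact desc P m hPm a b ha hb hrad hs

end STCI.M5
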