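import Pool.Agent.H24.M5.Final
import Pool.Agent.H24.LG.Main

/-!
# Curves with singular points of multiplicity at most five
-/

set_option autoImplicit false

namespace STCI.M5

open IsLocalRing STCI.LG MvPolynomial

universe u

theorem map_not_principal {R : Type u} [CommRing R] [IsDomain R] [IsNoetherianRing R]
    [UniqueFactorizationMonoid R] (P m : Ideal R) [P.IsPrime] [m.IsPrime] (hPm : P ≤ m)
    (hnp : ∀ ϖ : R, P ≠ Ideal.span {ϖ}) (ϖ : Localization.AtPrime m) :
    P.map (algebraMap R (Localization.AtPrime m)) ≠ Ideal.span {ϖ} := by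
  intro h
  have hϖ : ϖ ∈ P.map (algebraMap R (Localization.AtPrime m)) := by
    rw [h]
    exact Ideal.mem_span_singleton_self ϖ
  obtain ⟨p, t, rfl⟩ := IsLocalization.exists_mk'_eq m.primeCompl ϖ
  have hp : p ∈ P := by
    rw [← mem_of_map P m hPm, ← IsLocalization.mk'_spec' (Localization.AtPrime m) p t]
    exact Ideal.mul_mem_left _ _ hϖ
  have hspan : P.map (algebraMap R (Localization.AtPrime m)) =
      (Ideal.span {p} : Ideal R).map (algebraMap R (Localization.AtPrime m)) := by
    rw [h, Ideal.map_span, Set.image_singleton, ← IsLocalization.mk'_spec' (Localization.AtPrime m) p t,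
      Ideal.span_singleton_mul_left_unit (IsLocalization.map_units _ t)]
  -- a uniform denominator
  have hkey : ∀ Q : Ideal R, Q.FG → Q ≤ P → ∃ s : R, s ∉ m ∧ ∀ x ∈ Q, s * x ∈ Ideal.span {p} := by
    intro Q hQ
    induction Q, hQ using Submodule.fg_induction with
    | singleton x =>
      intro hx
      have hx1 : algebraMap R (Localization.AtPrime m) x ∈
          (Ideal.span {p} : Ideal R).map (algebraMap R (Localization.AtPrime m)) := by
        rw [← hspan]
        exact Ideal.mem_map_of_mem _ (hx (Ideal.mem_span_singleton_self x))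
      rw [IsLocalization.algebraMap_mem_map_algebraMap_iff m.primeCompl] at hx1
      obtain ⟨s, hs, hsx⟩ := hx1
      refine ⟨s, hs, fun y hy => ?_⟩
      obtain ⟨c, rfl⟩ := Ideal.mem_span_singleton'.1 hy
      have h1 : s * (c * x) = c * (s * x) := by ring
      rw [h1]
      exact Ideal.mul_mem_left _ _ hsx
    | sup Q1 Q2 _ _ h1 h2 =>
      intro hle
      obtain ⟨s1, hs1, h1⟩ := h1 (le_sup_left.trans hle)
      obtain ⟨s2, hs2, h2⟩ := h2 (le_sup_right.trans hle)
      refine ⟨s1 * s2, fun h => ((‹m.IsPrime›).mem_or_mem h).elim hs1 hs2, fun x hx => ?_⟩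
      obtain ⟨y, hy, z, hz, rfl⟩ := Submodule.mem_sup.1 hx
      have h3 : s1 * s2 * (y + z) = s2 * (s1 * y) + s1 * (s2 * z) := by ring
      rw [h3]
      exact Ideal.add_mem _ (Ideal.mul_mem_left _ _ (h1 y hy)) (Ideal.mul_mem_left _ _ (h2 z hz))
  obtain ⟨s, hs, hsP⟩ := hkey P (IsNoetherian.noetherian P) le_rfl
  obtain ⟨ϖ, hϖ⟩ := principal_of P s p (fun h => hs (hPm h)) hp hsP
  exact hnp ϖ hϖ

theorem twoEq_five (k : Type u) [Field k] (P : Ideal (MvPolynomial (Fin 3) k)) [P.IsPrime]
    (hPmax : ¬ P.IsMaximal)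
    (h : ∀ (m : Ideal (MvPolynomial (Fin 3) k)) [m.IsMaximal], P ≤ m →
      ∃ l : Localization.AtPrime m, l ∈ maximalIdeal (Localization.AtPrime m) ∧
        l ∉ maximalIdeal (Localization.AtPrime m) ^ 2 ∧
        Module.length (Localization.AtPrime m) (Localization.AtPrime m ⧸
          (P.map (algebraMap _ (Localization.AtPrime m)) ⊔ Ideal.span {l})) ≤ 5) : TwoEq P := by
  by_cases hnp : ∀ π, P ≠ Ideal.span {π}
  swap
  · push Not at hnp
    obtain ⟨π, hπ⟩ := hnp
    refine ⟨π, π, ?_⟩
    rw [Set.pair_eq_singleton, ← hπ]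
    exact (‹P.IsPrime›).radical
  refine twoEq_prime k P fun m hm hPm => ?_
  obtain ⟨l, hl, hl2, hlen⟩ := h m hPm
  have hPA := isPrime_map P m hPm
  have hne : P.map (algebraMap _ (Localization.AtPrime m)) ≠
      maximalIdeal (Localization.AtPrime m) := by
    intro h1
    apply hPmax
    have h2 : P = m := by
      ext x
      rw [← mem_of_map P m hPm, h1, ← IsLocalization.AtPrime.map_eq_maximalIdeal m, mem_of_map m m le_rfl]
    rw [h2]
    exact hm
  obtain ⟨a, b, ha, hb, hrad, hs⟩ := local_five (reg3_loc k m) l hl hl2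
    (P.map (algebraMap _ (Localization.AtPrime m))) hne (map_not_principal P m hPm hnp) hlen
  exact desc P m hPm a b ha hb hrad hs

end STCI.M5
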