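import Pool.Agent.H24.M5.Colon

/-!
# Row HB: ideals of colength at most five (project MP_204867_M5)

Proof of `hb`.
Case A: `I` is not contained in `m^2`: take `f ∈ I`, `f ∉ m^2` (`f ∈ m` as `I ≠ ⊤`), `m = (y, f)` (`exists_param`), `two_gen` gives
`I = (f, g)`.
Case B: `I ≤ m^2`. By `six` there is `f ∈ I`, `f ∉ m^3`; `quad_coord`: `f = u y^2 + z t`; `colon_step` gives `J`. `f ∉ (z)`: `(z)` is prime
(`isPrime_param`) and `y ∉ (z)` (`not_mem_param`). `f ∈ J` (`z f ∈ I`).
Case B1: `J` is not contained in `m^2`. If `J = ⊤` then `I = (f) + (z)`, two generators. Otherwise there is `h1 ∈ J`, `h1 ∈ m`, `h1 ∉ m^2`,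
`m = (w, h1)`, and `J = (h1, h2)` by `two_gen`. `f = α h1 + β h2`, `I = (f, z h1, z h2)`. If `α` is a unit: `I = (f, z h2)`
(`z h1 = α⁻¹ (z f - β z h2)`); if `β` is a unit `I = (f, z h1)`. Otherwise `α, β ∈ m`; `h2 ∈ m` (`J ≠ ⊤`). Take `n = 1`.
`(h1)` is prime (`isPrime_param`), `h2 ∉ (h1)`: otherwise `J = (h1)`; but `B ⧸ J` has finite length, so `m^N ≤ J` for some `N`,
contradiction to `ht`. So `s h1 + t h2 = 0` gives `t ∈ (h1)`, `t = - c h1`, `s = c h2`.
`K = (z, α, β, h1, h2) ≤ m`; `K = m`: `two_gen`-like: `K = (z, y^j)` or `(z)`; simplest: suppose `y ∉ K`, i.e. `K ≠ m`. Then every element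
`x` of `K` is in `(z, y^2)` (if `x ∉ (z)`, `x - v y^n ∈ (z)` with `v` a unit by `exists_unit_pow`; `y^n ∈ K`, so `n ≠ 1`, and `n ≠ 0` as
`K ≤ m`; so `n ≥ 2`). So `f = α h1 + β h2 ∈ (z, y^4)`, `u y^2 - c y^4 ∈ (z)`, `y^2 (u - c y^2) ∈ (z)`, `u - c y^2` is a unit,
contradiction.
Case B2: `J ≤ m^2`: `J = m^2` by `four`. `t = v y + w z`, `f = α h1 + β h2` with `h1 = y`, `h2 = z`, `α = u y + v z`, `β = w z`, `n = 2`.
`I = (f) + z (y^2, y z, z^2) = (f, z^2 y, z^2 z)` since `u z y^2 = z f - v (z^2 y) - w (z^2 z)`. `s y + t z = 0` gives `s ∈ (z)`, `s = c z`,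
`t = - c y`. `m = (z^2, α, β, y, z)`.
-/

set_option autoImplicit false

namespace STCI.M5

open IsLocalRing

universe u

/-- the ideal of maximal minors of the matrix with rows `(z^n, -α, -β)` and `(0, h2, -h1)`, with entries generating `m` -/
def HBForm {B : Type u} [CommRing B] [IsLocalRing B] (I : Ideal B) : Prop :=
  ∃ (n : ℕ) (z h1 h2 α β : B), (Ideal.span {z}).IsPrime ∧ α * h1 + β * h2 ∉ Ideal.span {z} ∧
    (∀ s t, s * h1 + t * h2 = 0 → ∃ c, s = c * h2 ∧ t = -(c * h1)) ∧
    I = Ideal.span {α * h1 + β * h2, z ^ n * h1, z ^ n * h2} ∧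
    maximalIdeal B = Ideal.span {z ^ n, α, β, h1, h2}

variable {B : Type u} [CommRing B] [IsDomain B] [IsLocalRing B] [IsNoetherianRing B]

theorem HB_pow_le (J : Ideal B) (h : Module.length B (B ⧸ J) ≤ 3) :
    ∃ n, maximalIdeal B ^ n ≤ J := by
  have h1 : Module.length B (B ⧸ J) ≠ ⊤ := ne_top_of_le_ne_top (by decide) h
  have h2 : IsFiniteLength B (B ⧸ J) := Module.length_ne_top_iff.mp h1
  have h3 : IsArtinian B (B ⧸ J) := (isFiniteLength_iff_isNoetherian_isArtinian.mp h2).2
  have h4 : IsArtinianRing (B ⧸ J) := isArtinian_of_tower B h3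
  exact IsLocalRing.exists_maximalIdeal_pow_le_of_isArtinianRing_quotient J

/-- the element `u y^2 + z t` is not divisible by `z` -/
theorem HB_not_mem (hB : Reg2 B) {y z u t : B} (h : maximalIdeal B = Ideal.span {y, z})
    (hu : IsUnit u) : u * y ^ 2 + z * t ∉ Ideal.span {z} := by
  intro hf
  have hp := isPrime_param hB y z h
  have h1 : u * y ^ 2 ∈ Ideal.span {z} := by
    have h2 := Ideal.sub_mem _ hf (Ideal.mul_mem_right t _ (Ideal.mem_span_singleton_self z))
    rwa [add_sub_cancel_right] at h2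
  have h2 : y ^ 2 ∈ Ideal.span {z} := (Ideal.unit_mul_mem_iff_mem _ hu).mp h1
  exact not_mem_param hB y z h (hp.mem_of_pow_mem 2 h2)

theorem HB_z_ne (hB : Reg2 B) {y z : B} (h : maximalIdeal B = Ideal.span {y, z}) : z ≠ 0 := by
  intro hz
  have hy : y ∈ maximalIdeal B := by rw [h]; exact Ideal.subset_span (by simp)
  refine hB.ht y hy 1 ?_
  rw [pow_one, h, hz, Ideal.span_le]
  intro x hx
  rcases hx with rfl | hx
  · exact Ideal.mem_span_singleton_self _
  · rw [Set.mem_singleton_iff] at hx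
    rw [hx]
    exact Ideal.zero_mem _

/-- the case of a colon ideal generated by two elements, one of them a parameter -/
theorem HB_one (hB : Reg2 B) {y z u t h1 h2 w α β : B} (h : maximalIdeal B = Ideal.span {y, z})
    (hu : IsUnit u) (hw : maximalIdeal B = Ideal.span {w, h1})
    (hh2 : h2 ∈ maximalIdeal B) (hα : α ∈ maximalIdeal B) (hβ : β ∈ maximalIdeal B)
    (hnot : h2 ∉ Ideal.span {h1}) (hf : α * h1 + β * h2 = u * y ^ 2 + z * t) (I : Ideal B)
    (hI : I = Ideal.span {α * h1 + β * h2, z * h1, z * h2}) : HBForm I := by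
  have hzp := isPrime_param hB y z h
  have hh1 : h1 ∈ maximalIdeal B := by rw [hw]; exact Ideal.subset_span (by simp)
  have hz : z ∈ maximalIdeal B := by rw [h]; exact Ideal.subset_span (by simp)
  have hy : y ∈ maximalIdeal B := by rw [h]; exact Ideal.subset_span (by simp)
  have h1p := isPrime_param hB w h1 hw
  have h10 : h1 ≠ 0 := HB_z_ne hB hw
  refine ⟨1, z, h1, h2, α, β, hzp, ?_, ?_, ?_, ?_⟩
  · rw [hf]
    exact HB_not_mem hB h hu
  · intro s r hsr
    have a1 : r * h2 ∈ Ideal.span {h1} := by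
      have a2 : r * h2 = -(s * h1) := by linear_combination hsr
      rw [a2]
      exact neg_mem (Ideal.mul_mem_left _ _ (Ideal.mem_span_singleton_self h1))
    have a2 : r ∈ Ideal.span {h1} := (h1p.mem_or_mem a1).resolve_right hnot
    obtain ⟨c, hc⟩ := Ideal.mem_span_singleton.mp a2
    refine ⟨-c, ?_, ?_⟩
    · refine mul_left_cancel₀ h10 ?_
      rw [hc] at hsr
      linear_combination hsr
    · rw [hc]
      ring
  · rw [pow_one]
    exact hI
  · have hK : Ideal.span {z ^ 1, α, β, h1, h2} ≤ maximalIdeal B := by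
      rw [pow_one, Ideal.span_le]
      intro x hx
      simp only [Set.mem_insert_iff, Set.mem_singleton_iff] at hx
      rcases hx with rfl | rfl | rfl | rfl | rfl
      · exact hz
      · exact hα
      · exact hβ
      · exact hh1
      · exact hh2
    have hzK : z ∈ Ideal.span {z ^ 1, α, β, h1, h2} := by
      rw [pow_one]
      exact Ideal.subset_span (by simp)
    refine le_antisymm ?_ hK
    by_contra hcon
    have hyK : y ∉ Ideal.span {z ^ 1, α, β, h1, h2} := by
      intro hyK
      refine hcon ?_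
      rw [h, Ideal.span_le]
      intro x hx
      rcases hx with rfl | hx
      · exact hyK
      · rw [Set.mem_singleton_iff] at hx
        rw [hx]
        exact hzK
    have key : ∀ x ∈ Ideal.span {z ^ 1, α, β, h1, h2}, ∃ a b, x = a * z + b * y ^ 2 := by
      intro x hx
      by_cases hxz : x ∈ Ideal.span {z}
      · obtain ⟨a, ha⟩ := Ideal.mem_span_singleton.mp hxz
        exact ⟨a, 0, by rw [ha]; ring⟩
      · obtain ⟨n, v, hv, hvn⟩ := exists_unit_pow hB y z h x hxz
        have b1 : v * y ^ n ∈ Ideal.span {z ^ 1, α, β, h1, h2} := by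
          have b2 : x - v * y ^ n ∈ Ideal.span {z ^ 1, α, β, h1, h2} :=
            (Ideal.span_singleton_le_iff_mem _).mpr hzK hvn
          have b3 := Ideal.sub_mem _ hx b2
          rwa [sub_sub_cancel] at b3
        have b2 : y ^ n ∈ Ideal.span {z ^ 1, α, β, h1, h2} :=
          (Ideal.unit_mul_mem_iff_mem _ hv).mp b1
        obtain ⟨c, hc⟩ := Ideal.mem_span_singleton.mp hvn
        rcases n with _ | _ | n
        · exfalso
          have b3 := hK b2
          rw [pow_zero] at b3
          exact (Ideal.ne_top_iff_one _).mp (maximalIdeal.isMaximal B).ne_top b3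
        · exfalso
          exact hyK (by simpa only [zero_add, pow_one] using b2)
        · refine ⟨c, v * y ^ n, ?_⟩
          rw [pow_add] at hc
          linear_combination hc
    obtain ⟨a1, a2, ha⟩ := key α (Ideal.subset_span (by simp))
    obtain ⟨b1, b2, hb⟩ := key β (Ideal.subset_span (by simp))
    obtain ⟨c1, c2, hc⟩ := key h1 (Ideal.subset_span (by simp))
    obtain ⟨d1, d2, hd⟩ := key h2 (Ideal.subset_span (by simp))
    have e1 : y ^ 2 * (u - (a2 * c2 + b2 * d2) * y ^ 2) ∈ Ideal.span {z} := by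
      rw [Ideal.mem_span_singleton]
      refine ⟨a1 * (c1 * z + c2 * y ^ 2) + a2 * y ^ 2 * c1 + b1 * (d1 * z + d2 * y ^ 2) +
        b2 * y ^ 2 * d1 - t, ?_⟩
      rw [ha, hb, hc, hd] at hf
      linear_combination -hf
    rcases hzp.mem_or_mem e1 with e2 | e2
    · exact not_mem_param hB y z h (hzp.mem_of_pow_mem 2 e2)
    · have e3 : u - (a2 * c2 + b2 * d2) * y ^ 2 ∈ maximalIdeal B :=
        (Ideal.span_singleton_le_iff_mem _).mpr hz e2
      have e4 : (a2 * c2 + b2 * d2) * y ^ 2 ∈ maximalIdeal B :=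
        Ideal.mul_mem_left _ _ (Ideal.pow_mem_of_mem _ hy 2 (by norm_num))
      have e5 := Ideal.add_mem _ e3 e4
      rw [sub_add_cancel] at e5
      exact (mem_maximalIdeal u).mp e5 hu

/-- the case of the square of the maximal ideal -/
theorem HB_two (hB : Reg2 B) {y z u t : B} (h : maximalIdeal B = Ideal.span {y, z})
    (hu : IsUnit u) (ht : t ∈ maximalIdeal B) (I J : Ideal B) (hf : u * y ^ 2 + z * t ∈ I)
    (hJ : ∀ x, x ∈ J ↔ z * x ∈ I) (hIJ : I = Ideal.span {u * y ^ 2 + z * t} ⊔ Ideal.span {z} * J)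
    (hJm : J = maximalIdeal B ^ 2) : HBForm I := by
  have hzp := isPrime_param hB y z h
  have hz : z ∈ maximalIdeal B := by rw [h]; exact Ideal.subset_span (by simp)
  have hy : y ∈ maximalIdeal B := by rw [h]; exact Ideal.subset_span (by simp)
  have hyz := not_mem_param hB y z h
  have hz0 : z ≠ 0 := HB_z_ne hB h
  have ht' := ht
  rw [h] at ht'
  obtain ⟨v, w, hvw⟩ := Ideal.mem_span_pair.mp ht'
  have hfe : (u * y + v * z) * y + w * z * z = u * y ^ 2 + z * t := by
    rw [← hvw]
    ring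
  refine ⟨2, z, y, z, u * y + v * z, w * z, hzp, ?_, ?_, ?_, ?_⟩
  · rw [hfe]
    exact HB_not_mem hB h hu
  · intro s r hsr
    have a1 : s * y ∈ Ideal.span {z} := by
      have a2 : s * y = -(r * z) := by linear_combination hsr
      rw [a2]
      exact neg_mem (Ideal.mul_mem_left _ _ (Ideal.mem_span_singleton_self z))
    have a2 : s ∈ Ideal.span {z} := (hzp.mem_or_mem a1).resolve_right hyz
    obtain ⟨c, hc⟩ := Ideal.mem_span_singleton.mp a2
    refine ⟨c, by rw [hc]; ring, ?_⟩
    refine mul_left_cancel₀ hz0 ?_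
    rw [hc] at hsr
    linear_combination hsr
  · rw [hfe]
    apply le_antisymm
    · have hfK : u * y ^ 2 + z * t ∈ Ideal.span {u * y ^ 2 + z * t, z ^ 2 * y, z ^ 2 * z} :=
        Ideal.subset_span (by simp)
      have k1 : z ^ 2 * y ∈ Ideal.span {u * y ^ 2 + z * t, z ^ 2 * y, z ^ 2 * z} :=
        Ideal.subset_span (by simp)
      have k2 : z ^ 2 * z ∈ Ideal.span {u * y ^ 2 + z * t, z ^ 2 * y, z ^ 2 * z} :=
        Ideal.subset_span (by simp)
      have k3 : u * (z * y ^ 2) ∈ Ideal.span {u * y ^ 2 + z * t, z ^ 2 * y, z ^ 2 * z} := by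
        have k4 : u * (z * y ^ 2) = z * (u * y ^ 2 + z * t) - v * (z ^ 2 * y) - w * (z ^ 2 * z) := by
          rw [← hvw]
          ring
        rw [k4]
        exact Ideal.sub_mem _ (Ideal.sub_mem _ (Ideal.mul_mem_left _ _ hfK)
          (Ideal.mul_mem_left _ _ k1)) (Ideal.mul_mem_left _ _ k2)
      have k4 : z * y ^ 2 ∈ Ideal.span {u * y ^ 2 + z * t, z ^ 2 * y, z ^ 2 * z} :=
        (Ideal.unit_mul_mem_iff_mem _ hu).mp k3
      rw [hIJ]
      refine sup_le ((Ideal.span_singleton_le_iff_mem _).mpr hfK) ?_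
      rw [Ideal.span_singleton_mul_le_iff]
      intro x hx
      rw [hJm, pow_two] at hx
      refine Submodule.mul_induction_on hx ?_ ?_
      · intro a ha b hb
        rw [h] at ha hb
        obtain ⟨a1, a2, ha'⟩ := Ideal.mem_span_pair.mp ha
        obtain ⟨b1, b2, hb'⟩ := Ideal.mem_span_pair.mp hb
        have k5 : z * (a * b) = a1 * b1 * (z * y ^ 2) + (a1 * b2 + a2 * b1) * (z ^ 2 * y) +
            a2 * b2 * (z ^ 2 * z) := by
          rw [← ha', ← hb']
          ring
        rw [k5]
        exact Ideal.add_mem _ (Ideal.add_mem _ (Ideal.mul_mem_left _ _ k4)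
          (Ideal.mul_mem_left _ _ k1)) (Ideal.mul_mem_left _ _ k2)
      · intro a b ha hb
        rw [mul_add]
        exact Ideal.add_mem _ ha hb
    · have k1 : z ^ 2 * y ∈ I := by
        have k2 : z * y ∈ J := by
          rw [hJm, pow_two]
          exact Ideal.mul_mem_mul hz hy
        have k3 := (hJ _).mp k2
        rwa [← mul_assoc, ← pow_two] at k3
      have k2 : z ^ 2 * z ∈ I := by
        have k2 : z * z ∈ J := by
          rw [hJm, pow_two]
          exact Ideal.mul_mem_mul hz hz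
        have k3 := (hJ _).mp k2
        rwa [← mul_assoc, ← pow_two] at k3
      rw [Ideal.span_le]
      intro x hx
      simp only [Set.mem_insert_iff, Set.mem_singleton_iff] at hx
      rcases hx with rfl | rfl | rfl
      · exact hf
      · exact k1
      · exact k2
  · apply le_antisymm
    · rw [h, Ideal.span_le]
      intro x hx
      rcases hx with rfl | hx
      · exact Ideal.subset_span (by simp)
      · rw [Set.mem_singleton_iff] at hx
        rw [hx]
        exact Ideal.subset_span (by simp)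
    · rw [Ideal.span_le]
      intro x hx
      simp only [Set.mem_insert_iff, Set.mem_singleton_iff] at hx
      rcases hx with rfl | rfl | rfl | rfl | rfl
      · exact Ideal.pow_mem_of_mem _ hz 2 (by norm_num)
      · exact Ideal.add_mem _ (Ideal.mul_mem_left _ _ hy) (Ideal.mul_mem_left _ _ hz)
      · exact Ideal.mul_mem_left _ _ hz
      · exact hy
      · exact hz

theorem HB_span3 (f z h1 h2 : B) :
    Ideal.span {f} ⊔ Ideal.span {z} * Ideal.span {h1, h2} = Ideal.span {f, z * h1, z * h2} := by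
  rw [Ideal.span_insert h1, Ideal.mul_sup, Ideal.span_singleton_mul_span_singleton,
    Ideal.span_singleton_mul_span_singleton, Ideal.span_insert f, Ideal.span_insert (z * h1)]

theorem hb (hB : Reg2 B) (I : Ideal B) (hI : I ≠ ⊤) (hlen : Module.length B (B ⧸ I) ≤ 5) :
    (∃ f g : B, I = Ideal.span {f, g}) ∨ HBForm I := by
  by_cases hIm : I ≤ maximalIdeal B ^ 2
  swap
  · left
    obtain ⟨f, hfI, hf2⟩ := Set.not_subset.mp hIm
    have hfm : f ∈ maximalIdeal B := IsLocalRing.le_maximalIdeal hI hfI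
    obtain ⟨y, hy⟩ := exists_param hB f hfm hf2
    obtain ⟨g, hg⟩ := two_gen hB y f hy I hfI
    exact ⟨f, g, hg⟩
  obtain ⟨f, hfI, hf3⟩ := Set.not_subset.mp (six hB I hlen)
  obtain ⟨y, z, u, t, h, hu, ht, hfe⟩ := quad_coord hB f (hIm hfI) hf3
  rw [hfe] at hfI
  obtain ⟨J, hJ, hIJ, hJlen⟩ := colon_step hB y z u t h hu ht I hIm hfI hlen
  by_cases hJm : J ≤ maximalIdeal B ^ 2
  · right
    exact HB_two hB h hu ht I J hfI hJ hIJ (four hB J hJm hJlen)
  by_cases hJt : J = ⊤
  · left
    refine ⟨u * y ^ 2 + z * t, z, ?_⟩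
    rw [hJt, Ideal.mul_top, ← Ideal.span_insert] at hIJ
    exact hIJ
  have hz : z ∈ maximalIdeal B := by rw [h]; exact Ideal.subset_span (by simp)
  obtain ⟨h1, h1J, h12⟩ := Set.not_subset.mp hJm
  have h1m : h1 ∈ maximalIdeal B := IsLocalRing.le_maximalIdeal hJt h1J
  obtain ⟨w, hw⟩ := exists_param hB h1 h1m h12
  obtain ⟨h2, hJe⟩ := two_gen hB w h1 hw J h1J
  have h2m : h2 ∈ maximalIdeal B := by
    refine IsLocalRing.le_maximalIdeal hJt ?_
    rw [hJe]
    exact Ideal.subset_span (by simp)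
  have hfJ : u * y ^ 2 + z * t ∈ J := (hJ _).mpr (Ideal.mul_mem_left _ _ hfI)
  rw [hJe] at hfJ
  obtain ⟨α, β, hαβ⟩ := Ideal.mem_span_pair.mp hfJ
  rw [hJe, HB_span3, ← hαβ] at hIJ
  by_cases hα : IsUnit α
  · left
    refine ⟨α * h1 + β * h2, z * h2, ?_⟩
    rw [hIJ]
    apply le_antisymm
    · have k1 : α * h1 + β * h2 ∈ Ideal.span {α * h1 + β * h2, z * h2} :=
        Ideal.subset_span (by simp)
      have k2 : z * h2 ∈ Ideal.span {α * h1 + β * h2, z * h2} := Ideal.subset_span (by simp)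
      have k3 : α * (z * h1) ∈ Ideal.span {α * h1 + β * h2, z * h2} := by
        have k4 : α * (z * h1) = z * (α * h1 + β * h2) - β * (z * h2) := by ring
        rw [k4]
        exact Ideal.sub_mem _ (Ideal.mul_mem_left _ _ k1) (Ideal.mul_mem_left _ _ k2)
      rw [Ideal.span_le]
      intro x hx
      simp only [Set.mem_insert_iff, Set.mem_singleton_iff] at hx
      rcases hx with rfl | rfl | rfl
      · exact k1
      · exact (Ideal.unit_mul_mem_iff_mem _ hα).mp k3
      · exact k2
    · apply Ideal.span_mono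
      intro x hx
      simp only [Set.mem_insert_iff, Set.mem_singleton_iff] at hx ⊢
      tauto
  by_cases hβ : IsUnit β
  · left
    refine ⟨α * h1 + β * h2, z * h1, ?_⟩
    rw [hIJ]
    apply le_antisymm
    · have k1 : α * h1 + β * h2 ∈ Ideal.span {α * h1 + β * h2, z * h1} :=
        Ideal.subset_span (by simp)
      have k2 : z * h1 ∈ Ideal.span {α * h1 + β * h2, z * h1} := Ideal.subset_span (by simp)
      have k3 : β * (z * h2) ∈ Ideal.span {α * h1 + β * h2, z * h1} := by
        have k4 : β * (z * h2) = z * (α * h1 + β * h2) - α * (z * h1) := by ring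
        rw [k4]
        exact Ideal.sub_mem _ (Ideal.mul_mem_left _ _ k1) (Ideal.mul_mem_left _ _ k2)
      rw [Ideal.span_le]
      intro x hx
      simp only [Set.mem_insert_iff, Set.mem_singleton_iff] at hx
      rcases hx with rfl | rfl | rfl
      · exact k1
      · exact k2
      · exact (Ideal.unit_mul_mem_iff_mem _ hβ).mp k3
    · apply Ideal.span_mono
      intro x hx
      simp only [Set.mem_insert_iff, Set.mem_singleton_iff] at hx ⊢
      tauto
  right
  refine HB_one hB h hu hw h2m ((mem_maximalIdeal α).mpr hα) ((mem_maximalIdeal β).mpr hβ) ?_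
    hαβ I hIJ
  intro h2s
  obtain ⟨N, hN⟩ := HB_pow_le J hJlen
  refine hB.ht h1 h1m N (hN.trans ?_)
  rw [hJe, Ideal.span_le]
  intro x hx
  rcases hx with rfl | hx
  · exact Ideal.mem_span_singleton_self _
  · rw [Set.mem_singleton_iff] at hx
    rw [hx]
    exact h2s

end STCI.M5
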