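import Pool.Agent.H24.M5.RegB

/-!
# Row Quad: linear and quadratic forms in regular parameters (project MP_204867_M5)

`m = (y, z)` (then also `m = (z, y)`, `Ideal.span_pair_comm`). `m^2 = (y^2, y z, z^2)`, `m^3 = (y^3, y^2 z, y z^2, z^3)`.
* `lin_indep`: `α y + β z ∈ m^2`. Modulo `z`: `α y - c y^2 ∈ (z)`, i.e. `y (α - c y) ∈ (z)`; `(z)` is prime and `y ∉ (z)`
  (`isPrime_param`, `not_mem_param`), so `α ∈ (y, z) = m`. Symmetrically `β ∈ m`.
* `quad_indep`: `α y^2 + β y z + γ z^2 = c0 y^3 + c1 y^2 z + c2 y z^2 + c3 z^3`. Modulo `z`: `y^2 (α - c0 y) ∈ (z)`, so `α ∈ m`; symmetrically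
  `γ ∈ m`. So `β y z ∈ m^3`: `β y z = d0 y^3 + d1 y^2 z + d2 y z^2 + d3 z^3`; `z ∣ d0 y^3` so `d0 = z e0`; `y ∣ d3 z^3` so `d3 = y e3`;
  cancel `y z` (`B` is a domain, `y, z ≠ 0`): `β = e0 y^2 + d1 y + d2 z + e3 z^2 ∈ m`.
* `quad_coord`: `m = (y0, z0)`, `f = α y0^2 + β y0 z0 + γ z0^2`, not all of `α, β, γ` in `m`. If `α` is a unit: `y = y0`, `z = z0`, `u = α`,
  `t = β y0 + γ z0`. If `γ` is a unit exchange the roles. If `α, γ ∈ m` and `β` is a unit: put `y = y0`, `z = z0 - y0`;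
  `f = (α + β + γ) y^2 + z (β y + 2 γ y + γ z)`, `α + β + γ` a unit, `m = (y, z)`.
-/

set_option autoImplicit false

namespace STCI.M5

open IsLocalRing

universe u

variable {B : Type u} [CommRing B] [IsDomain B] [IsLocalRing B] [IsNoetherianRing B]

omit [IsDomain B] [IsLocalRing B] [IsNoetherianRing B] in
theorem quad_step (y z f : B) (n : ℕ) (hf : f ∈ Ideal.span {y, z} ^ (n + 1)) :
    ∃ a ∈ Ideal.span {y, z} ^ n, ∃ b ∈ Ideal.span {y, z} ^ n, f = a * y + b * z := by
  have h1 : Ideal.span {y, z} ^ (n + 1) =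
      Ideal.span {y, z} ^ n * Ideal.span {y} ⊔ Ideal.span {y, z} ^ n * Ideal.span {z} := by
    rw [pow_succ, ← Ideal.mul_sup, ← Ideal.span_insert y {z}]
  rw [h1] at hf
  obtain ⟨p, hp, q, hq, rfl⟩ := Submodule.mem_sup.1 hf
  obtain ⟨a, ha, rfl⟩ := Ideal.mem_mul_span_singleton.1 hp
  obtain ⟨b, hb, rfl⟩ := Ideal.mem_mul_span_singleton.1 hq
  exact ⟨a, ha, b, hb, rfl⟩

omit [IsDomain B] [IsLocalRing B] [IsNoetherianRing B] in
theorem quad_two (y z f : B) (hf : f ∈ Ideal.span {y, z} ^ 2) :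
    ∃ a b c : B, f = a * y ^ 2 + b * (y * z) + c * z ^ 2 := by
  obtain ⟨a, ha, b, hb, rfl⟩ := quad_step y z f 1 hf
  rw [pow_one] at ha hb
  obtain ⟨a1, a2, rfl⟩ := Ideal.mem_span_pair.1 ha
  obtain ⟨b1, b2, rfl⟩ := Ideal.mem_span_pair.1 hb
  exact ⟨a1, a2 + b1, b2, by ring⟩

omit [IsDomain B] [IsLocalRing B] [IsNoetherianRing B] in
theorem quad_three (y z f : B) (hf : f ∈ Ideal.span {y, z} ^ 3) :
    ∃ a b c d : B, f = a * y ^ 3 + b * (y ^ 2 * z) + c * (y * z ^ 2) + d * z ^ 3 := by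
  obtain ⟨p, hp, q, hq, rfl⟩ := quad_step y z f 2 hf
  obtain ⟨a, b, c, rfl⟩ := quad_two y z p hp
  obtain ⟨a', b', c', rfl⟩ := quad_two y z q hq
  exact ⟨a, b + a', c + b', c', by ring⟩

omit [IsDomain B] in
theorem quad_lin (hB : Reg2 B) (y z : B) (h : maximalIdeal B = Ideal.span {y, z}) (α β : B)
    (hαβ : α * y + β * z ∈ maximalIdeal B ^ 2) : α ∈ maximalIdeal B := by
  have hP := isPrime_param hB y z h
  have hy := not_mem_param hB y z h
  rw [h] at hαβ
  obtain ⟨a, b, c, e⟩ := quad_two y z _ hαβ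
  have h1 : y * (α - a * y) ∈ Ideal.span {z} := by
    refine Ideal.mem_span_singleton'.2 ⟨b * y + c * z - β, ?_⟩
    linear_combination -e
  have h2 := (hP.mem_or_mem h1).resolve_left hy
  have hle : Ideal.span {z} ≤ maximalIdeal B := by
    rw [h]
    exact Ideal.span_mono (by simp)
  have hym : y ∈ maximalIdeal B := by
    rw [h]
    exact Ideal.subset_span (by simp)
  have h3 := add_mem (hle h2) (Ideal.mul_mem_left _ a hym)
  rwa [sub_add_cancel] at h3

omit [IsDomain B] in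
theorem quad_al (hB : Reg2 B) (y z : B) (h : maximalIdeal B = Ideal.span {y, z}) (α β γ : B)
    (hαβ : α * y ^ 2 + β * (y * z) + γ * z ^ 2 ∈ maximalIdeal B ^ 3) :
    α ∈ maximalIdeal B := by
  have hP := isPrime_param hB y z h
  have hy := not_mem_param hB y z h
  rw [h] at hαβ
  obtain ⟨a, b, c, d, e⟩ := quad_three y z _ hαβ
  have h1 : y ^ 2 * (α - a * y) ∈ Ideal.span {z} := by
    refine Ideal.mem_span_singleton'.2 ⟨b * y ^ 2 + c * (y * z) + d * z ^ 2 - β * y - γ * z, ?_⟩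
    linear_combination -e
  have h2 := (hP.mem_or_mem h1).resolve_left fun h4 => hy (hP.mem_of_pow_mem 2 h4)
  have hle : Ideal.span {z} ≤ maximalIdeal B := by
    rw [h]
    exact Ideal.span_mono (by simp)
  have hym : y ∈ maximalIdeal B := by
    rw [h]
    exact Ideal.subset_span (by simp)
  have h3 := add_mem (hle h2) (Ideal.mul_mem_left _ a hym)
  rwa [sub_add_cancel] at h3

theorem lin_indep (hB : Reg2 B) (y z : B) (h : maximalIdeal B = Ideal.span {y, z}) (α β : B)
    (hαβ : α * y + β * z ∈ maximalIdeal B ^ 2) : α ∈ maximalIdeal B ∧ β ∈ maximalIdeal B := by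
  refine ⟨quad_lin hB y z h α β hαβ, quad_lin hB z y ?_ β α ?_⟩
  · rw [h, Ideal.span_pair_comm]
  · rwa [add_comm]

theorem quad_indep (hB : Reg2 B) (y z : B) (h : maximalIdeal B = Ideal.span {y, z}) (α β γ : B)
    (hαβ : α * y ^ 2 + β * (y * z) + γ * z ^ 2 ∈ maximalIdeal B ^ 3) :
    α ∈ maximalIdeal B ∧ β ∈ maximalIdeal B ∧ γ ∈ maximalIdeal B := by
  have h' : maximalIdeal B = Ideal.span {z, y} := by rw [h, Ideal.span_pair_comm]
  have hα := quad_al hB y z h α β γ hαβ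
  have hγ := quad_al hB z y h' γ β α (by
    have e : γ * z ^ 2 + β * (z * y) + α * y ^ 2 = α * y ^ 2 + β * (y * z) + γ * z ^ 2 := by ring
    rwa [e])
  refine ⟨hα, ?_, hγ⟩
  have hym : y ∈ maximalIdeal B := by
    rw [h]
    exact Ideal.subset_span (by simp)
  have hzm : z ∈ maximalIdeal B := by
    rw [h]
    exact Ideal.subset_span (by simp)
  have hb : β * (y * z) ∈ maximalIdeal B ^ 3 := by
    have h1 : α * y ^ 2 ∈ maximalIdeal B ^ 3 := by
      rw [show (3 : ℕ) = 1 + 2 from rfl, pow_add, pow_one]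
      exact Ideal.mul_mem_mul hα (Ideal.pow_mem_pow hym 2)
    have h2 : γ * z ^ 2 ∈ maximalIdeal B ^ 3 := by
      rw [show (3 : ℕ) = 1 + 2 from rfl, pow_add, pow_one]
      exact Ideal.mul_mem_mul hγ (Ideal.pow_mem_pow hzm 2)
    have h3 := sub_mem (sub_mem hαβ h1) h2
    have e : α * y ^ 2 + β * (y * z) + γ * z ^ 2 - α * y ^ 2 - γ * z ^ 2 = β * (y * z) := by ring
    rwa [e] at h3
  rw [h] at hb
  obtain ⟨a, b, c, d, e⟩ := quad_three y z _ hb
  have hP := isPrime_param hB y z h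
  have hy := not_mem_param hB y z h
  have hP' := isPrime_param hB z y h'
  have hz := not_mem_param hB z y h'
  have ha : a ∈ Ideal.span {z} := by
    have h1 : a * y ^ 3 ∈ Ideal.span {z} := by
      refine Ideal.mem_span_singleton'.2 ⟨β * y - b * y ^ 2 - c * (y * z) - d * z ^ 2, ?_⟩
      linear_combination e
    exact (hP.mem_or_mem h1).resolve_right fun h4 => hy (hP.mem_of_pow_mem 3 h4)
  have hd : d ∈ Ideal.span {y} := by
    have h1 : d * z ^ 3 ∈ Ideal.span {y} := by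
      refine Ideal.mem_span_singleton'.2 ⟨β * z - a * y ^ 2 - b * (y * z) - c * z ^ 2, ?_⟩
      linear_combination e
    exact (hP'.mem_or_mem h1).resolve_right fun h4 => hz (hP'.mem_of_pow_mem 3 h4)
  obtain ⟨a', rfl⟩ := Ideal.mem_span_singleton'.1 ha
  obtain ⟨d', rfl⟩ := Ideal.mem_span_singleton'.1 hd
  have hy0 : y ≠ 0 := fun h0 => hy (by rw [h0]; exact zero_mem _)
  have hz0 : z ≠ 0 := fun h0 => hz (by rw [h0]; exact zero_mem _)
  have e2 : β = (a' * y + b) * y + (c + d' * z) * z := by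
    refine mul_right_cancel₀ (mul_ne_zero hy0 hz0) ?_
    linear_combination e
  rw [e2]
  exact add_mem (Ideal.mul_mem_left _ _ hym) (Ideal.mul_mem_left _ _ hzm)

theorem quad_coord (hB : Reg2 B) (f : B) (hf : f ∈ maximalIdeal B ^ 2)
    (hf3 : f ∉ maximalIdeal B ^ 3) :
    ∃ y z u t : B, maximalIdeal B = Ideal.span {y, z} ∧ IsUnit u ∧ t ∈ maximalIdeal B ∧
      f = u * y ^ 2 + z * t := by
  obtain ⟨y, z, h⟩ := hB.gen
  have hym : y ∈ maximalIdeal B := by
    rw [h]
    exact Ideal.subset_span (by simp)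
  have hzm : z ∈ maximalIdeal B := by
    rw [h]
    exact Ideal.subset_span (by simp)
  rw [h] at hf
  obtain ⟨α, β, γ, rfl⟩ := quad_two y z f hf
  by_cases hα : α ∈ maximalIdeal B
  · by_cases hγ : γ ∈ maximalIdeal B
    · by_cases hβ : β ∈ maximalIdeal B
      · exfalso
        apply hf3
        rw [show (3 : ℕ) = 1 + 2 from rfl, pow_add, pow_one]
        refine add_mem (add_mem (Ideal.mul_mem_mul hα (Ideal.pow_mem_pow hym 2))
          (Ideal.mul_mem_mul hβ ?_)) (Ideal.mul_mem_mul hγ (Ideal.pow_mem_pow hzm 2))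
        rw [sq]
        exact Ideal.mul_mem_mul hym hzm
      · refine ⟨y, z - y, α + β + γ, β * y + 2 * γ * y + γ * (z - y), ?_, ?_, ?_, by ring⟩
        · rw [h]
          refine le_antisymm (Ideal.span_le.2 ?_) (Ideal.span_le.2 ?_)
          · rintro w (rfl | hw)
            · exact Ideal.subset_span (by simp)
            · rw [Set.mem_singleton_iff.1 hw]
              exact Ideal.mem_span_pair.2 ⟨1, 1, by ring⟩
          · rintro w (rfl | hw)
            · exact Ideal.subset_span (by simp)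
            · rw [Set.mem_singleton_iff.1 hw]
              exact Ideal.mem_span_pair.2 ⟨-1, 1, by ring⟩
        · rw [← notMem_maximalIdeal]
          intro hu
          apply hβ
          have e : β = α + β + γ - α - γ := by ring
          rw [e]
          exact sub_mem (sub_mem hu hα) hγ
        · exact add_mem (add_mem (Ideal.mul_mem_left _ _ hym) (Ideal.mul_mem_left _ _ hym))
            (Ideal.mul_mem_left _ _ (sub_mem hzm hym))
    · refine ⟨z, y, γ, α * y + β * z, ?_, notMem_maximalIdeal.1 hγ, ?_, by ring⟩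
      · rw [h, Ideal.span_pair_comm]
      · exact add_mem (Ideal.mul_mem_left _ _ hym) (Ideal.mul_mem_left _ _ hzm)
  · exact ⟨y, z, α, β * y + γ * z, h, notMem_maximalIdeal.1 hα,
      add_mem (Ideal.mul_mem_left _ _ hym) (Ideal.mul_mem_left _ _ hzm), by ring⟩

end STCI.M5
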