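import Pool.Agent.H24.M5.Defs
import Pool.Agent.H24.LG.NotMax
import Pool.Agent.H24.LG.RegSeq
import Pool.Agent.H24.LG.Copr
import Pool.Agent.H24.LG.Gen

/-!
# Row RegA: the local rings of affine three-space at closed points (project MP_204867_M5)

`R = MvPolynomial (Fin 3) k`, `A = Localization.AtPrime m`, `φ = algebraMap R A`.
* `gen`: as in `STCI.LG.exists_two_gen` (file `Pool/Agent/H24/LG/Gen.lean`, look at its proof): `R` is a regular ring
  (`MvPolynomial.isRegularRing_of_isRegularRing`), so `A` is a regular local ring: `(maximalIdeal A).spanFinrank = ringKrullDim A ≤ 3`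
  (`ringKrullDim A = m.height ≤ ringKrullDim R = 3`). So the maximal ideal is generated by a finite set with at most three elements; pad
  with `0`.
* `ht`: let `ξ, η ∈ maximalIdeal A`, `(maximalIdeal A)^n ≤ (ξ, η)`. Multiplying by units of `A`: `ξ = φ a`, `η = φ b` with `a, b ∈ m`.
  `n ≥ 1` (else `1 ∈ (ξ, η) ≤ maximalIdeal A`). `m^n` is finitely generated: there is `s0 ∉ m` with `s0 * m^n ≤ (a, b)`; so for `x ∈ m`
  `(s0 x)^n ∈ (a, b)`, `s0 x ∈ (a, b).radical`: `CutNear m m a b`. `LG.exists_regSeq k m` gives `u, v, w`. `m` is not principal: if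
  `m = (π)`, then `u = π u'`, `v = π v'`, `v u' = v' u ∈ (u)`, so `u' = u e`, `u = π e u`, `π e = 1` (`u ≠ 0`), so `1 ∈ m`.
  `LG.exists_coprime` (with `P = m`): `a = c a'`, `b = c b'`, `c ∉ m`, `IsRelPrime a' b'`; then `a', b' ∈ m`, `CutNear m m a' b'`
  (`(a, b) ≤ (a', b')`), `a' ≠ 0` (else `b'` is a unit in `m`), `b' z ∈ (a')` implies `z ∈ (a')` (`IsRelPrime.dvd_of_dvd_mul_left`), and
  `LG.not_max` gives `False`. (See the use in `Pool/Agent/H24/LG/Main.lean`, theorem `twoEq_prime`, case `P` maximal.)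
-/

set_option autoImplicit false

namespace STCI.M5

open IsLocalRing MvPolynomial

universe u

theorem RegA_three {A : Type u} [CommRing A] (I : Ideal A) (s : Set A) (hfin : s.Finite) (hc : s.ncard ≤ 3)
    (hs : Ideal.span s = I) : ∃ x y z : A, I = Ideal.span {x, y, z} := by
  rcases Nat.lt_or_ge s.ncard 1 with h0 | h1
  · have h2 : s = ∅ := (Set.ncard_eq_zero hfin).1 (by omega)
    refine ⟨0, 0, 0, ?_⟩
    rw [← hs, h2, Ideal.span_empty]
    simp
  rcases Nat.lt_or_ge s.ncard 2 with h2 | h2
  · obtain ⟨a, ha⟩ := Set.ncard_eq_one.1 (by omega : s.ncard = 1)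
    refine ⟨a, a, a, ?_⟩
    rw [← hs, ha]
    simp
  rcases Nat.lt_or_ge s.ncard 3 with h3 | h3
  · obtain ⟨a, b, _, hab⟩ := Set.ncard_eq_two.1 (by omega : s.ncard = 2)
    refine ⟨a, b, b, ?_⟩
    rw [← hs, hab]
    simp
  · obtain ⟨a, b, c, _, _, _, hab⟩ := Set.ncard_eq_three.1 (by omega : s.ncard = 3)
    exact ⟨a, b, c, by rw [← hs, hab]⟩

theorem RegA_rank (k : Type u) [Field k] (m : Ideal (MvPolynomial (Fin 3) k)) [m.IsMaximal] :
    (IsLocalRing.maximalIdeal (Localization.AtPrime m)).spanFinrank ≤ 3 := by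
  have hreg : IsRegularRing (MvPolynomial (Fin 3) k) := inferInstance
  have h1 := (hreg.isRegularLocalRing_localization m).spanFinrank_maximalIdeal
  rw [IsLocalization.AtPrime.ringKrullDim_eq_height m] at h1
  have h3 := Ideal.height_le_ringKrullDim_of_ne_top (Ideal.IsMaximal.ne_top (I := m) ‹_›)
  rw [MvPolynomial.ringKrullDim_of_isNoetherianRing, ringKrullDim_eq_zero_of_field, Nat.card_eq_fintype_card,
    Fintype.card_fin, zero_add] at h3
  have h4 : m.height ≤ (3 : ℕ) := WithBot.coe_le_coe.1 (h3.trans (le_of_eq (by rfl)))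
  have h5 : ((IsLocalRing.maximalIdeal (Localization.AtPrime m)).spanFinrank : ℕ∞) = m.height := by
    exact_mod_cast h1
  rw [← h5] at h4
  exact_mod_cast h4

theorem RegA_not (k : Type u) [Field k] (m : Ideal (MvPolynomial (Fin 3) k)) [m.IsMaximal]
    (a b : MvPolynomial (Fin 3) k) (hcut : LG.CutNear m m a b) : False := by
  have hmax : m.IsMaximal := ‹_›
  obtain ⟨u, v, w, hu, hv, hw, hu0, hv1, hw1⟩ := LG.exists_regSeq k m
  have hnp : ∀ π, m ≠ Ideal.span {π} := by
    intro π hπ
    have hu2 := hu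
    have hv2 := hv
    rw [hπ, Ideal.mem_span_singleton] at hu2 hv2
    obtain ⟨u', hu'⟩ := hu2
    obtain ⟨v', hv'⟩ := hv2
    have h1 : u' ∈ Ideal.span {u} := by
      apply hv1
      rw [Ideal.mem_span_singleton]
      refine ⟨v', ?_⟩
      rw [hv', hu']
      ring
    rw [Ideal.mem_span_singleton] at h1
    obtain ⟨e, he⟩ := h1
    have h2 : u * (1 - π * e) = 0 := by
      have h3 : u = π * (u * e) := by rw [← he, ← hu']
      linear_combination h3
    have h4 : π * e = 1 := by
      have := (mul_eq_zero.1 h2).resolve_left hu0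
      linear_combination -this
    apply hmax.ne_top
    rw [Ideal.eq_top_iff_one, hπ, Ideal.mem_span_singleton]
    exact ⟨e, h4.symm⟩
  obtain ⟨c, a', b', hc, hca, hcb, hrel⟩ := LG.exists_coprime m m hnp a b hcut
  obtain ⟨haP, hbP, s0, hs0, hcut0⟩ := hcut
  have ha' : a' ∈ m := (hmax.isPrime.mem_or_mem (hca ▸ haP)).resolve_left hc
  have hb' : b' ∈ m := (hmax.isPrime.mem_or_mem (hcb ▸ hbP)).resolve_left hc
  have hcut' : LG.CutNear m m a' b' := by
    refine ⟨ha', hb', s0, hs0, fun x hx => ?_⟩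
    refine Ideal.radical_mono ?_ (hcut0 x hx)
    rw [Ideal.span_le]
    rintro z (rfl | rfl)
    · rw [hca]
      exact Ideal.mul_mem_left _ _ (Ideal.subset_span (by simp))
    · rw [hcb]
      exact Ideal.mul_mem_left _ _ (Ideal.subset_span (by simp))
  have ha0 : a' ≠ 0 := by
    rintro rfl
    have h1 : IsUnit b' := hrel (dvd_zero b') dvd_rfl
    exact hmax.ne_top (Ideal.eq_top_of_isUnit_mem _ hb' h1)
  refine LG.not_max m u v w a' b' hu hv hw (fun z hz => (mul_eq_zero.1 hz).resolve_left hu0) hv1 hw1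
    (fun z hz => (mul_eq_zero.1 hz).resolve_left ha0) ?_ hcut'
  intro z hz
  rw [Ideal.mem_span_singleton] at hz ⊢
  exact hrel.dvd_of_dvd_mul_left hz

theorem reg3_loc (k : Type u) [Field k] (m : Ideal (MvPolynomial (Fin 3) k)) [m.IsMaximal] :
    Reg3 (Localization.AtPrime m) := by
  have hmp : m.IsPrime := inferInstance
  constructor
  · exact RegA_three (IsLocalRing.maximalIdeal (Localization.AtPrime m))
      (Submodule.generators (IsLocalRing.maximalIdeal (Localization.AtPrime m)))
      (Submodule.FG.finite_generators (Ideal.fg_of_isNoetherianRing _))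
      (by
        rw [Submodule.FG.generators_ncard (Ideal.fg_of_isNoetherianRing _)]
        exact RegA_rank k m)
      (Submodule.span_generators _)
  · intro ξ hξ η hη n hle
    obtain ⟨a, ha, hξa⟩ := LG.Gen_clear m ξ hξ
    obtain ⟨b, hb, hηb⟩ := LG.Gen_clear m η hη
    have hJ : IsLocalRing.maximalIdeal (Localization.AtPrime m) ^ n ≤
        (Ideal.span {a, b}).map (algebraMap (MvPolynomial (Fin 3) k) (Localization.AtPrime m)) := by
      refine hle.trans (Ideal.span_le.2 ?_)
      rintro z (rfl | rfl)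
      · refine Ideal.span_le.2 ?_ hξa
        rw [Set.singleton_subset_iff]
        exact Ideal.mem_map_of_mem _ (Ideal.subset_span (by simp))
      · refine Ideal.span_le.2 ?_ hηb
        rw [Set.singleton_subset_iff]
        exact Ideal.mem_map_of_mem _ (Ideal.subset_span (by simp))
    obtain ⟨s0, hs0, hs1⟩ := LG.Gen_prod m (Ideal.span {a, b} : Ideal (MvPolynomial (Fin 3) k)).radical
      (Ideal.fg_of_isNoetherianRing m) (by
        intro p hp
        have h1 : algebraMap (MvPolynomial (Fin 3) k) (Localization.AtPrime m) (p ^ n) ∈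
            (Ideal.span {a, b}).map (algebraMap (MvPolynomial (Fin 3) k) (Localization.AtPrime m)) := by
          rw [map_pow]
          exact hJ (Ideal.pow_mem_pow
            ((IsLocalization.AtPrime.to_map_mem_maximal_iff (Localization.AtPrime m) m p).2 hp) n)
        rw [IsLocalization.algebraMap_mem_map_algebraMap_iff m.primeCompl] at h1
        obtain ⟨d, hd, hdp⟩ := h1
        refine ⟨d, hd, n + 1, ?_⟩
        have e : (d * p) ^ (n + 1) = (d ^ n * p) * (d * p ^ n) := by ring
        rw [e]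
        exact Ideal.mul_mem_left _ _ hdp)
    exact RegA_not k m a b ⟨ha, hb, s0, hs0, hs1⟩

end STCI.M5
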