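import Pool.Agent.H24.M5.Defs

/-!
# Row RegB: regular parameters (project MP_204867_M5)

* `isPrime_of_not_sq`: `l ∈ m`, `l ∉ m^2` in a factorial local domain: `l` is irreducible (`l = u v` with `u, v` nonunits gives `l ∈ m^2`;
  `l ≠ 0`), so prime.
* `reg2_of_surj`: `m_A = (x, y, z)`, `l = α x + β y + γ z`, one of the coefficients is a unit as `l ∉ m^2`, say `α`; then
  `m_A = (l, y, z)` and `m_B = π(m_A) = (π y, π z)` (`IsLocalRing.map_maximalIdeal`-type facts: `π` is surjective between local rings, so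
  `π(m_A) = m_B` and `π⁻¹(m_B) = m_A`). `ht`: lift `a ∈ m_B` to `a' ∈ m_A`; `m_B^n ≤ (a)` gives `m_A^n ≤ (a', l)`.
* `exists_param`: `m = (y0, z0)`, `z = α y0 + β z0` with `α` or `β` a unit.
* `not_mem_param`: if `y ∈ (z)` then `m = (z)`, contradiction to `ht z _ 1`.
* `exists_unit_pow`: `x ∉ (z)`. There is a largest `n` with `x ∈ (y^n, z)`: otherwise `x` is in the intersection of all
  `(y^n, z) ≥ (y, z)^n ⊔ (z)`.. precisely `x ∈ ⋂ (m^n + (z)) = (z)` by Krull's theorem for the noetherian local ring `B ⧸ (z)`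
  (`Ideal.iInf_pow_eq_bot_of_isLocalRing` or `Ideal.isHausdorff`..). `x = u y^n + c z`; `u` is a unit, otherwise `u ∈ (y, z)` and
  `x ∈ (y^(n+1), z)`.
* `isPrime_param`: `x, x' ∉ (z)`: `x x' = u u' y^(n+n')` modulo `z`; if `x x' ∈ (z)` then `y^N ∈ (z)`, so `m^N ≤ (y^N, z) ≤ (z)`,
  contradiction to `ht`. `(z) ≠ ⊤` as `z ∈ m`.
* `two_gen`: `z ∈ I`, `m = (y, z)`: if `I = (z)` take `g = 0`; otherwise let `n` be the least number such that some `x ∈ I`, `x ∉ (z)` has
  `x - u y^n ∈ (z)` with `u` a unit; then `y^n ∈ I` and `I = (z, y^n)`.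
-/

set_option autoImplicit false

namespace STCI.M5

open IsLocalRing

universe u

theorem isPrime_of_not_sq {A : Type u} [CommRing A] [IsDomain A] [IsLocalRing A]
    [UniqueFactorizationMonoid A] (l : A) (hl : l ∈ maximalIdeal A)
    (hl2 : l ∉ maximalIdeal A ^ 2) : (Ideal.span {l}).IsPrime := by
  have h0 : l ≠ 0 := by
    rintro rfl
    exact hl2 (Ideal.zero_mem _)
  rw [Ideal.span_singleton_prime h0, ← UniqueFactorizationMonoid.irreducible_iff_prime]
  refine ⟨fun h => (mem_maximalIdeal l).1 hl h, ?_⟩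
  intro a b hab
  by_contra hcon
  rw [not_or] at hcon
  apply hl2
  rw [hab, pow_two]
  exact Ideal.mul_mem_mul ((mem_maximalIdeal a).2 hcon.1) ((mem_maximalIdeal b).2 hcon.2)

theorem RegB_span3 {A : Type u} [CommRing A] {x y z l α β γ : A} (hα : IsUnit α)
    (hl : l = α * x + β * y + γ * z) : Ideal.span {x, y, z} = Ideal.span {l, y, z} := by
  obtain ⟨v, rfl⟩ := hα
  apply le_antisymm
  · rw [Ideal.span_le]
    rintro w (rfl | rfl | rfl)
    · have e : w = (↑v⁻¹ : A) * l + (-(↑v⁻¹ * β)) * y + (-(↑v⁻¹ * γ)) * z := by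
        rw [hl]
        have h1 : (↑v⁻¹ : A) * v = 1 := v.inv_mul
        linear_combination (-w) * h1
      rw [SetLike.mem_coe, e]
      exact Ideal.add_mem _ (Ideal.add_mem _
        (Ideal.mul_mem_left _ _ (Ideal.subset_span (Or.inl rfl)))
        (Ideal.mul_mem_left _ _ (Ideal.subset_span (Or.inr (Or.inl rfl)))))
        (Ideal.mul_mem_left _ _ (Ideal.subset_span (Or.inr (Or.inr rfl))))
    · exact Ideal.subset_span (Or.inr (Or.inl rfl))
    · exact Ideal.subset_span (Or.inr (Or.inr rfl))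
  · rw [Ideal.span_le]
    rintro w (rfl | rfl | rfl)
    · rw [SetLike.mem_coe, hl]
      exact Ideal.add_mem _ (Ideal.add_mem _
        (Ideal.mul_mem_left _ _ (Ideal.subset_span (Or.inl rfl)))
        (Ideal.mul_mem_left _ _ (Ideal.subset_span (Or.inr (Or.inl rfl)))))
        (Ideal.mul_mem_left _ _ (Ideal.subset_span (Or.inr (Or.inr rfl))))
    · exact Ideal.subset_span (Or.inr (Or.inl rfl))
    · exact Ideal.subset_span (Or.inr (Or.inr rfl))

theorem RegB_mem3 {A : Type u} [CommRing A] {x y z l : A} (h : l ∈ Ideal.span {x, y, z}) :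
    ∃ α β γ : A, l = α * x + β * y + γ * z := by
  rw [Ideal.mem_span_insert] at h
  obtain ⟨α, w, hw, h1⟩ := h
  rw [Ideal.mem_span_pair] at hw
  obtain ⟨β, γ, h2⟩ := hw
  exact ⟨α, β, γ, by rw [h1, ← h2, add_assoc]⟩

/-- the maximal ideal is generated by `l` and two more elements -/
theorem RegB_gen {A : Type u} [CommRing A] [IsLocalRing A] (hA : Reg3 A) (l : A)
    (hl : l ∈ maximalIdeal A) (hl2 : l ∉ maximalIdeal A ^ 2) :
    ∃ y z : A, maximalIdeal A = Ideal.span {l, y, z} := by
  obtain ⟨x, y, z, hm⟩ := hA.gen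
  have hlm := hl
  rw [hm] at hlm
  obtain ⟨α, β, γ, h1⟩ := RegB_mem3 hlm
  by_cases hα : IsUnit α
  · exact ⟨y, z, by rw [hm, RegB_span3 hα h1]⟩
  by_cases hβ : IsUnit β
  · have e : l = β * y + α * x + γ * z := by rw [h1]; ring
    have e2 : ({x, y, z} : Set A) = {y, x, z} := Set.insert_comm x y {z}
    exact ⟨x, z, by rw [hm, e2, RegB_span3 hβ e]⟩
  by_cases hγ : IsUnit γ
  · have e : l = γ * z + α * x + β * y := by rw [h1]; ring
    have e2 : ({x, y, z} : Set A) = {z, x, y} := by
      rw [Set.pair_comm y z, Set.insert_comm x z]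
    exact ⟨x, y, by rw [hm, e2, RegB_span3 hγ e]⟩
  · exfalso
    apply hl2
    have hx : x ∈ maximalIdeal A := by rw [hm]; exact Ideal.subset_span (Or.inl rfl)
    have hy : y ∈ maximalIdeal A := by rw [hm]; exact Ideal.subset_span (Or.inr (Or.inl rfl))
    have hz : z ∈ maximalIdeal A := by rw [hm]; exact Ideal.subset_span (Or.inr (Or.inr rfl))
    rw [h1, pow_two]
    exact Ideal.add_mem _ (Ideal.add_mem _ (Ideal.mul_mem_mul ((mem_maximalIdeal α).2 hα) hx)
      (Ideal.mul_mem_mul ((mem_maximalIdeal β).2 hβ) hy))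
      (Ideal.mul_mem_mul ((mem_maximalIdeal γ).2 hγ) hz)

theorem reg2_of_surj {A B : Type u} [CommRing A] [IsLocalRing A] [CommRing B] [IsLocalRing B]
    (hA : Reg3 A) (π : A →+* B) (hπ : Function.Surjective π) (l : A) (hker : RingHom.ker π =
    Ideal.span {l}) (hl : l ∈ maximalIdeal A) (hl2 : l ∉ maximalIdeal A ^ 2) : Reg2 B := by
  have hcm : (maximalIdeal B).comap π = maximalIdeal A := by
    have h1 : ((maximalIdeal B).comap π).IsMaximal := Ideal.comap_isMaximal_of_surjective π hπ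
    exact IsLocalRing.eq_maximalIdeal h1
  have hmap : (maximalIdeal A).map π = maximalIdeal B := by
    rw [← hcm, Ideal.map_comap_of_surjective π hπ]
  have hpl : π l = 0 := by
    rw [← RingHom.mem_ker, hker]
    exact Ideal.mem_span_singleton_self l
  constructor
  · obtain ⟨y, z, hm⟩ := RegB_gen hA l hl hl2
    refine ⟨π y, π z, ?_⟩
    rw [← hmap, hm, Ideal.map_span, Set.image_insert_eq, Set.image_pair, hpl]
    exact Ideal.span_insert_zero
  · intro a ha n hn
    obtain ⟨a', rfl⟩ := hπ a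
    have ha' : a' ∈ maximalIdeal A := by
      rw [← hcm]
      exact ha
    refine hA.ht a' ha' l hl n ?_
    intro x hx
    have h1 : π x ∈ maximalIdeal B ^ n := by
      rw [← hmap, ← Ideal.map_pow]
      exact Ideal.mem_map_of_mem π hx
    obtain ⟨c, hc⟩ := Ideal.mem_span_singleton'.1 (hn h1)
    obtain ⟨c', rfl⟩ := hπ c
    have h2 : x - c' * a' ∈ Ideal.span {l} := by
      rw [← hker, RingHom.mem_ker, map_sub, map_mul, hc, sub_self]
    obtain ⟨d, hd⟩ := Ideal.mem_span_singleton'.1 h2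
    rw [Ideal.mem_span_pair]
    exact ⟨c', d, by rw [hd]; ring⟩

variable {B : Type u} [CommRing B] [IsLocalRing B] [IsNoetherianRing B]

omit [IsNoetherianRing B] in
theorem exists_param (hB : Reg2 B) (z : B) (hz : z ∈ maximalIdeal B)
    (hz2 : z ∉ maximalIdeal B ^ 2) : ∃ y : B, maximalIdeal B = Ideal.span {y, z} := by
  obtain ⟨y0, z0, hm⟩ := hB.gen
  have hzm := hz
  rw [hm] at hzm
  obtain ⟨α, β, h1⟩ := Ideal.mem_span_pair.1 hzm
  have hy0 : y0 ∈ maximalIdeal B := by rw [hm]; exact Ideal.subset_span (Or.inl rfl)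
  have hz0 : z0 ∈ maximalIdeal B := by rw [hm]; exact Ideal.subset_span (Or.inr rfl)
  by_cases hα : IsUnit α
  · obtain ⟨v, rfl⟩ := hα
    have hv : (↑v⁻¹ : B) * v = 1 := v.inv_mul
    refine ⟨z0, le_antisymm ?_ ?_⟩
    · rw [hm, Ideal.span_le]
      rintro w (rfl | rfl)
      · rw [SetLike.mem_coe, Ideal.mem_span_pair]
        exact ⟨-(↑v⁻¹ * β), ↑v⁻¹, by rw [← h1]; linear_combination w * hv⟩
      · exact Ideal.subset_span (Or.inl rfl)
    · rw [Ideal.span_le]
      rintro w (rfl | rfl)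
      · exact hz0
      · exact hz
  · by_cases hβ : IsUnit β
    · obtain ⟨v, rfl⟩ := hβ
      have hv : (↑v⁻¹ : B) * v = 1 := v.inv_mul
      refine ⟨y0, le_antisymm ?_ ?_⟩
      · rw [hm, Ideal.span_le]
        rintro w (rfl | rfl)
        · exact Ideal.subset_span (Or.inl rfl)
        · rw [SetLike.mem_coe, Ideal.mem_span_pair]
          exact ⟨-(↑v⁻¹ * α), ↑v⁻¹, by rw [← h1]; linear_combination w * hv⟩
      · rw [Ideal.span_le]
        rintro w (rfl | rfl)
        · exact hy0
        · exact hz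
    · exfalso
      apply hz2
      rw [← h1, pow_two]
      exact Ideal.add_mem _ (Ideal.mul_mem_mul ((mem_maximalIdeal α).2 hα) hy0)
        (Ideal.mul_mem_mul ((mem_maximalIdeal β).2 hβ) hz0)

omit [IsNoetherianRing B] in
theorem RegB_z (y z : B) (h : maximalIdeal B = Ideal.span {y, z}) : z ∈ maximalIdeal B := by
  rw [h]
  exact Ideal.subset_span (Or.inr rfl)

omit [IsNoetherianRing B] in
theorem RegB_y (y z : B) (h : maximalIdeal B = Ideal.span {y, z}) : y ∈ maximalIdeal B := by
  rw [h]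
  exact Ideal.subset_span (Or.inl rfl)

omit [IsNoetherianRing B] in
theorem not_mem_param (hB : Reg2 B) (y z : B) (h : maximalIdeal B = Ideal.span {y, z}) :
    y ∉ Ideal.span {z} := by
  intro hy
  refine hB.ht z (RegB_z y z h) 1 ?_
  rw [pow_one, h, Ideal.span_le]
  rintro w (rfl | rfl)
  · exact hy
  · exact Ideal.mem_span_singleton_self w

theorem exists_unit_pow (hB : Reg2 B) (y z : B) (h : maximalIdeal B = Ideal.span {y, z}) (x : B)
    (hx : x ∉ Ideal.span {z}) : ∃ (n : ℕ) (u : B), IsUnit u ∧ x - u * y ^ n ∈ Ideal.span {z} := by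
  classical
  have hex : ∃ n : ℕ, x ∉ Ideal.span {y ^ n, z} := by
    by_contra hcon
    push Not at hcon
    apply hx
    have hI : (Ideal.span {y} : Ideal B) ≠ ⊤ := by
      intro htop
      have h1 : (Ideal.span {y} : Ideal B) ≤ maximalIdeal B := by
        rw [Ideal.span_singleton_le_iff_mem]
        exact RegB_y y z h
      rw [htop, top_le_iff] at h1
      exact (maximalIdeal.isMaximal B).ne_top h1
    have hK := Ideal.iInf_pow_smul_eq_bot_of_isLocalRing (M := B ⧸ (Ideal.span {z} : Ideal B))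
      (Ideal.span {y} : Ideal B) hI
    have hmem : Submodule.Quotient.mk (p := (Ideal.span {z} : Ideal B)) x ∈
        (⨅ i : ℕ, (Ideal.span {y} : Ideal B) ^ i •
          (⊤ : Submodule B (B ⧸ (Ideal.span {z} : Ideal B)))) := by
      rw [Submodule.mem_iInf]
      intro n
      obtain ⟨a, b, hab⟩ := Ideal.mem_span_pair.1 (hcon n)
      have e : Submodule.Quotient.mk (p := (Ideal.span {z} : Ideal B)) x =
          (a * y ^ n) • Submodule.Quotient.mk (p := (Ideal.span {z} : Ideal B)) (1 : B) := by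
        rw [← Submodule.Quotient.mk_smul, Submodule.Quotient.eq, ← hab]
        rw [smul_eq_mul, mul_one, add_sub_cancel_left]
        exact Ideal.mul_mem_left _ _ (Ideal.mem_span_singleton_self z)
      rw [e]
      refine Submodule.smul_mem_smul ?_ Submodule.mem_top
      exact Ideal.mul_mem_left _ _ (Ideal.pow_mem_pow (Ideal.mem_span_singleton_self y) n)
    rw [hK, Submodule.mem_bot, Submodule.Quotient.mk_eq_zero] at hmem
    exact hmem
  have hspec := Nat.find_spec hex
  have hmin := fun m => Nat.find_min hex (m := m)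
  generalize Nat.find hex = n at hspec hmin
  cases n with
  | zero =>
    exfalso
    apply hspec
    rw [pow_zero, Ideal.mem_span_pair]
    exact ⟨x, 0, by ring⟩
  | succ k =>
    have hk : x ∈ Ideal.span {y ^ k, z} := by
      by_contra hcon
      exact hmin k (Nat.lt_succ_self k) hcon
    obtain ⟨u, c, huc⟩ := Ideal.mem_span_pair.1 hk
    refine ⟨k, u, ?_, ?_⟩
    · by_contra hu
      have hum : u ∈ maximalIdeal B := (mem_maximalIdeal u).2 hu
      rw [h] at hum
      obtain ⟨a, b, hab⟩ := Ideal.mem_span_pair.1 hum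
      apply hspec
      rw [Ideal.mem_span_pair]
      exact ⟨a, b * y ^ k + c, by rw [← huc, ← hab]; ring⟩
    · rw [← huc, add_sub_cancel_left]
      exact Ideal.mul_mem_left _ _ (Ideal.mem_span_singleton_self z)

theorem RegB_sup_pow {R : Type u} [CommRing R] (I J : Ideal R) (n : ℕ) :
    (I ⊔ J) ^ n ≤ I ^ n ⊔ J := by
  induction n with
  | zero => simp
  | succ n ih =>
    rw [pow_succ, pow_succ]
    refine (Ideal.mul_mono_left ih).trans ?_
    rw [Ideal.sup_mul, Ideal.mul_sup]
    refine sup_le (sup_le le_sup_left ?_) ?_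
    · exact Ideal.mul_le_right.trans le_sup_right
    · exact Ideal.mul_le_left.trans le_sup_right

theorem isPrime_param (hB : Reg2 B) (y z : B) (h : maximalIdeal B = Ideal.span {y, z}) :
    (Ideal.span {z}).IsPrime := by
  refine ⟨?_, ?_⟩
  · intro htop
    have h1 : (Ideal.span {z} : Ideal B) ≤ maximalIdeal B := by
      rw [Ideal.span_singleton_le_iff_mem]
      exact RegB_z y z h
    rw [htop, top_le_iff] at h1
    exact (maximalIdeal.isMaximal B).ne_top h1
  · intro x x' hxx
    by_contra hcon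
    rw [not_or] at hcon
    obtain ⟨n, u, hu, h1⟩ := exists_unit_pow hB y z h x hcon.1
    obtain ⟨n', u', hu', h2⟩ := exists_unit_pow hB y z h x' hcon.2
    have h3 : u * u' * y ^ (n + n') ∈ Ideal.span {z} := by
      have e : u * u' * y ^ (n + n') = x * x' - x' * (x - u * y ^ n)
          - u * y ^ n * (x' - u' * y ^ n') := by
        rw [pow_add]; ring
      rw [e]
      exact Ideal.sub_mem _ (Ideal.sub_mem _ hxx (Ideal.mul_mem_left _ _ h1))
        (Ideal.mul_mem_left _ _ h2)
    have h4 : y ^ (n + n') ∈ Ideal.span {z} := by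
      rwa [Ideal.unit_mul_mem_iff_mem _ (hu.mul hu')] at h3
    refine hB.ht z (RegB_z y z h) (n + n') ?_
    have e : (Ideal.span {y, z} : Ideal B) = Ideal.span {y} ⊔ Ideal.span {z} :=
      Ideal.span_insert y {z}
    rw [h, e]
    refine (RegB_sup_pow _ _ _).trans (sup_le ?_ le_rfl)
    rw [Ideal.span_singleton_pow, Ideal.span_singleton_le_iff_mem]
    exact h4

theorem two_gen (hB : Reg2 B) (y z : B) (h : maximalIdeal B = Ideal.span {y, z}) (I : Ideal B)
    (hz : z ∈ I) : ∃ g : B, I = Ideal.span {z, g} := by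
  classical
  have hzI : (Ideal.span {z} : Ideal B) ≤ I := (Ideal.span_singleton_le_iff_mem I).2 hz
  have hkey : ∀ w ∈ I, w ∉ Ideal.span {z} → ∃ (n : ℕ) (u : B), y ^ n ∈ I ∧
      w - u * y ^ n ∈ Ideal.span {z} := by
    intro w hw hwz
    obtain ⟨n, u, hu, h1⟩ := exists_unit_pow hB y z h w hwz
    refine ⟨n, u, ?_, h1⟩
    have h2 : u * y ^ n ∈ I := by
      have e : u * y ^ n = w - (w - u * y ^ n) := by ring
      rw [e]
      exact Ideal.sub_mem _ hw (hzI h1)
    rwa [Ideal.unit_mul_mem_iff_mem _ hu] at h2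
  by_cases hI : I ≤ Ideal.span {z}
  · refine ⟨0, ?_⟩
    rw [Set.pair_comm, Ideal.span_insert_zero]
    exact le_antisymm hI hzI
  · obtain ⟨w, hw, hwz⟩ := SetLike.not_le_iff_exists.1 hI
    have hex : ∃ n : ℕ, y ^ n ∈ I := by
      obtain ⟨n, _, hn, _⟩ := hkey w hw hwz
      exact ⟨n, hn⟩
    refine ⟨y ^ Nat.find hex, le_antisymm ?_ ?_⟩
    · intro x hx
      by_cases hxz : x ∈ Ideal.span {z}
      · obtain ⟨c, hc⟩ := Ideal.mem_span_singleton'.1 hxz
        exact Ideal.mem_span_pair.2 ⟨c, 0, by rw [hc]; ring⟩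
      · obtain ⟨n, u, hn, h1⟩ := hkey x hx hxz
        have hle : Nat.find hex ≤ n := Nat.find_min' hex hn
        obtain ⟨c, hc⟩ := Ideal.mem_span_singleton'.1 h1
        rw [Ideal.mem_span_pair]
        refine ⟨c, u * y ^ (n - Nat.find hex), ?_⟩
        rw [mul_assoc, ← pow_add, Nat.sub_add_cancel hle, hc]
        ring
    · rw [Ideal.span_le]
      rintro x (rfl | rfl)
      · exact hz
      · exact Nat.find_spec hex

end STCI.M5
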