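import Pool.Agent.H24.M5.Quad

/-!
# Row Six: lengths (project MP_204867_M5)

`length_lt`: `I < J` implies `length (B ⧸ J) + 1 ≤ length (B ⧸ I)`: exact sequence `0 → J/I → B/I → B/J → 0`
(`Module.length_eq_add_of_exact`, with `Submodule.mapQ`/`factor`), `J/I` nontrivial (`Module.length_pos`); or via
`Module.length_eq_coheight`/`Module.length_quotient`.
`six`: `I ≤ m^3 < (y^2) + m^3 < (y^2, y z) + m^3 < m^2 < (y) + m^2 < m < ⊤`, strict by `quad_indep` and `lin_indep`; so the length of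
`B ⧸ I` is at least `6`. `four`: `J < m^2 < (y) + m^2 < m < ⊤`.
-/

set_option autoImplicit false

namespace STCI.M5

open IsLocalRing

universe u

theorem length_lt {B : Type u} [CommRing B] (I J : Ideal B) (h : I < J) :
    Module.length B (B ⧸ J) + 1 ≤ Module.length B (B ⧸ I) := by
  rw [Module.length_quotient, Module.length_quotient]
  exact Order.coheight_add_one_le h

theorem Six_length_le {B : Type u} [CommRing B] (I J : Ideal B) (h : I ≤ J) :
    Module.length B (B ⧸ J) ≤ Module.length B (B ⧸ I) := by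
  rw [Module.length_quotient, Module.length_quotient]
  exact Order.coheight_anti h

variable {B : Type u} [CommRing B] [IsDomain B] [IsLocalRing B] [IsNoetherianRing B]

theorem Six_one_notMem : (1 : B) ∉ maximalIdeal B := by
  intro h
  exact (Ideal.ne_top_iff_one _).1 (IsLocalRing.maximalIdeal.isMaximal B).ne_top h

theorem Six_y_mem {y z : B} (h : maximalIdeal B = Ideal.span {y, z}) : y ∈ maximalIdeal B := by
  rw [h]; exact Ideal.subset_span (by simp)

theorem Six_z_mem {y z : B} (h : maximalIdeal B = Ideal.span {y, z}) : z ∈ maximalIdeal B := by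
  rw [h]; exact Ideal.subset_span (by simp)

/-- `length (B ⧸ m) ≥ 1` -/
theorem Six_len1 : 1 ≤ Module.length B (B ⧸ maximalIdeal B) := by
  have h := length_lt (maximalIdeal B) ⊤
    (lt_top_iff_ne_top.2 (IsLocalRing.maximalIdeal.isMaximal B).ne_top)
  exact le_trans (by simp) h

theorem Six_lt2 (hB : Reg2 B) {y z : B} (h : maximalIdeal B = Ideal.span {y, z}) :
    Ideal.span {y} ⊔ maximalIdeal B ^ 2 < maximalIdeal B := by
  refine lt_of_le_of_ne (sup_le ?_ (Ideal.pow_le_self (by norm_num))) ?_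
  · rw [Ideal.span_singleton_le_iff_mem]; exact Six_y_mem h
  · intro he
    have hz : z ∈ Ideal.span {y} ⊔ maximalIdeal B ^ 2 := by rw [he]; exact Six_z_mem h
    obtain ⟨a, ha, b, hb, hab⟩ := Submodule.mem_sup.1 hz
    obtain ⟨c, rfl⟩ := Ideal.mem_span_singleton'.1 ha
    have h2 : (-c) * y + 1 * z ∈ maximalIdeal B ^ 2 := by
      have : (-c) * y + 1 * z = b := by rw [← hab]; ring
      rw [this]; exact hb
    exact Six_one_notMem (lin_indep hB y z h _ _ h2).2

theorem Six_lt3 (hB : Reg2 B) {y z : B} (h : maximalIdeal B = Ideal.span {y, z}) :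
    maximalIdeal B ^ 2 < Ideal.span {y} ⊔ maximalIdeal B ^ 2 := by
  refine lt_of_le_of_ne le_sup_right ?_
  intro he
  have hy : y ∈ maximalIdeal B ^ 2 := by
    rw [he]; exact Ideal.mem_sup_left (Ideal.mem_span_singleton_self y)
  have h2 : 1 * y + 0 * z ∈ maximalIdeal B ^ 2 := by simpa using hy
  exact Six_one_notMem (lin_indep hB y z h _ _ h2).1

theorem Six_pow3_le : maximalIdeal B ^ 3 ≤ maximalIdeal B ^ 2 :=
  Ideal.pow_le_pow_right (by norm_num)

theorem Six_lt4 (hB : Reg2 B) {y z : B} (h : maximalIdeal B = Ideal.span {y, z}) :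
    Ideal.span {y ^ 2, y * z} ⊔ maximalIdeal B ^ 3 < maximalIdeal B ^ 2 := by
  have hym := Six_y_mem h
  have hzm := Six_z_mem h
  refine lt_of_le_of_ne (sup_le ?_ Six_pow3_le) ?_
  · rw [Ideal.span_le]
    intro w hw
    rcases hw with rfl | rfl
    · exact Ideal.pow_mem_pow hym 2
    · rw [pow_two]; exact Ideal.mul_mem_mul hym hzm
  · intro he
    have hz : z ^ 2 ∈ Ideal.span {y ^ 2, y * z} ⊔ maximalIdeal B ^ 3 := by
      rw [he]; exact Ideal.pow_mem_pow hzm 2
    obtain ⟨a, ha, b, hb, hab⟩ := Submodule.mem_sup.1 hz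
    obtain ⟨c, d, rfl⟩ := Ideal.mem_span_pair.1 ha
    have h2 : (-c) * y ^ 2 + (-d) * (y * z) + 1 * z ^ 2 ∈ maximalIdeal B ^ 3 := by
      have : (-c) * y ^ 2 + (-d) * (y * z) + 1 * z ^ 2 = b := by rw [one_mul, ← hab]; ring
      rw [this]; exact hb
    exact Six_one_notMem (quad_indep hB y z h _ _ _ h2).2.2

theorem Six_lt5 (hB : Reg2 B) {y z : B} (h : maximalIdeal B = Ideal.span {y, z}) :
    Ideal.span {y ^ 2} ⊔ maximalIdeal B ^ 3 < Ideal.span {y ^ 2, y * z} ⊔ maximalIdeal B ^ 3 := by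
  refine lt_of_le_of_ne (sup_le_sup_right (Ideal.span_mono (by simp)) _) ?_
  intro he
  have hz : y * z ∈ Ideal.span {y ^ 2} ⊔ maximalIdeal B ^ 3 := by
    rw [he]; exact Ideal.mem_sup_left (Ideal.subset_span (by simp))
  obtain ⟨a, ha, b, hb, hab⟩ := Submodule.mem_sup.1 hz
  obtain ⟨c, rfl⟩ := Ideal.mem_span_singleton'.1 ha
  have h2 : (-c) * y ^ 2 + 1 * (y * z) + 0 * z ^ 2 ∈ maximalIdeal B ^ 3 := by
    have : (-c) * y ^ 2 + 1 * (y * z) + 0 * z ^ 2 = b := by rw [one_mul, ← hab]; ring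
    rw [this]; exact hb
  exact Six_one_notMem (quad_indep hB y z h _ _ _ h2).2.1

theorem Six_lt6 (hB : Reg2 B) {y z : B} (h : maximalIdeal B = Ideal.span {y, z}) :
    maximalIdeal B ^ 3 < Ideal.span {y ^ 2} ⊔ maximalIdeal B ^ 3 := by
  refine lt_of_le_of_ne le_sup_right ?_
  intro he
  have hy : y ^ 2 ∈ maximalIdeal B ^ 3 := by
    rw [he]; exact Ideal.mem_sup_left (Ideal.mem_span_singleton_self _)
  have h2 : 1 * y ^ 2 + 0 * (y * z) + 0 * z ^ 2 ∈ maximalIdeal B ^ 3 := by simpa using hy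
  exact Six_one_notMem (quad_indep hB y z h _ _ _ h2).1

theorem Six_len3 (hB : Reg2 B) {y z : B} (h : maximalIdeal B = Ideal.span {y, z}) :
    3 ≤ Module.length B (B ⧸ maximalIdeal B ^ 2) := by
  have h1 : 1 ≤ Module.length B (B ⧸ maximalIdeal B) := Six_len1
  have h2 := length_lt _ _ (Six_lt2 hB h)
  have h3 := length_lt _ _ (Six_lt3 hB h)
  calc (3 : ℕ∞) = 1 + 1 + 1 := by norm_num
    _ ≤ _ := le_trans (by gcongr) (le_trans (add_le_add_left h2 1) h3)

theorem Six_len6 (hB : Reg2 B) {y z : B} (h : maximalIdeal B = Ideal.span {y, z}) :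
    6 ≤ Module.length B (B ⧸ maximalIdeal B ^ 3) := by
  have h3 := Six_len3 hB h
  have h4 := length_lt _ _ (Six_lt4 hB h)
  have h5 := length_lt _ _ (Six_lt5 hB h)
  have h6 := length_lt _ _ (Six_lt6 hB h)
  calc (6 : ℕ∞) = 3 + 1 + 1 + 1 := by norm_num
    _ ≤ _ := le_trans (by gcongr) (le_trans (add_le_add_left (add_le_add_left h4 1) 1)
      (le_trans (add_le_add_left h5 1) h6))

theorem six (hB : Reg2 B) (I : Ideal B) (h : Module.length B (B ⧸ I) ≤ 5) :
    ¬ I ≤ maximalIdeal B ^ 3 := by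
  intro hI
  obtain ⟨y, z, hyz⟩ := hB.gen
  have h6 := (Six_len6 hB hyz).trans ((Six_length_le _ _ hI).trans h)
  exact absurd h6 (by decide)

theorem four (hB : Reg2 B) (J : Ideal B) (hJ : J ≤ maximalIdeal B ^ 2)
    (h : Module.length B (B ⧸ J) ≤ 3) : J = maximalIdeal B ^ 2 := by
  by_contra hne
  obtain ⟨y, z, hyz⟩ := hB.gen
  have h3 := Six_len3 hB hyz
  have h4 := (length_lt _ _ (lt_of_le_of_ne hJ hne)).trans h
  have h5 := (add_le_add_left h3 1).trans h4
  exact absurd h5 (by decide)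

end STCI.M5
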