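import Pool.Agent.H24.M5.Defs

/-!
# Row SymA: three generators and a rank lemma (project MP_204867_M5)

`three_gen`: `m = a + (l)` for an ideal `a`; then `a` has three generators. `m = (x1, x2, x3)` (`gen`), `x_i = a_i + c_i l`, `a_i ∈ a`,
`l = Σ α_i x_i`. If some `α_i` is a unit, say `α_1` (the other cases are symmetric), then `m = (l, x2, x3) = (l, a2, a3)`. If all
`α_i ∈ m`, then `l ∈ m^2` and `m ≤ (a1, a2, a3) + m^2`, so `m = (a1, a2, a3)` by Nakayama and `a = m = (a1, a2, a3)`.
In the first case: if `a = (a2, a3)` take `(a2, a3, 0)`. Otherwise let `n` be the least number such that there is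
`x ∈ a`, `x ∉ (a2, a3)` with `x - v l^n ∈ (a2, a3)` for a unit `v` (every `x ∉ (a2, a3)` has such a form: by Krull's intersection theorem in
the noetherian local ring `A ⧸ (a2, a3)`, whose maximal ideal is generated by the class of `l`, there is a largest `n` with
`x ∈ (l^n) + (a2, a3)`, and then the coefficient is a unit). Then `l^n ∈ a` and `a = (a2, a3, l^n)`.

`rank_lemma` (linear algebra over a field `κ`): `W = ker φ` has dimension at least `6 - 3 = 3`. Suppose no `c ∈ W` has linearly independent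
rows `c 0, c 1`; then every `c ∈ W` is `c i j = e i * v j`. Suppose `c = e ⊗ v`, `c' = e' ⊗ v'` in `W` with `e, e'` linearly independent; if
`v, v'` are linearly independent then `c + c'` has independent rows, contradiction; so for ALL such pairs `v, v'` are dependent. If there
is such a pair with `v ≠ 0 ≠ v'` then every `c'' = e'' ⊗ v''` in `W` has `v''` parallel to `v` (`e''` is independent from `e` or from `e'`), so
`W` is contained in `{u ⊗ v}`, of dimension `2`, contradiction. So all `e`'s (with `c ≠ 0`) are parallel to one `e ≠ 0`, and `W` is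
contained in the image of the injective map `v ↦ e ⊗ v` from `κ^3`, so equal to it (dimension `3`).
-/

set_option autoImplicit false

namespace STCI.M5

open IsLocalRing

universe u

/-- Krull: `y ∉ J` has the form `v l^n + j` with `v` a unit -/
theorem SymA_krull {A : Type u} [CommRing A] [IsLocalRing A] [IsNoetherianRing A] {J : Ideal A}
    {l : A} (hl : l ∈ maximalIdeal A) (hJ : J ≤ maximalIdeal A)
    (hm : maximalIdeal A ≤ Ideal.span {l} ⊔ J) {y : A} (hy : y ∉ J) :
    ∃ (n : ℕ) (v : A), IsUnit v ∧ y - v * l ^ n ∈ J := by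
  classical
  have hex : ∃ k : ℕ, y ∉ Ideal.span {l ^ k} ⊔ J := by
    by_contra hcon
    push Not at hcon
    have h1 : (Ideal.Quotient.mk J y : A ⧸ J) ∈
        (⨅ i : ℕ, maximalIdeal A ^ i • ⊤ : Submodule A (A ⧸ J)) := by
      rw [Submodule.mem_iInf]
      intro k
      obtain ⟨s, hs, j, hj, hsj⟩ := Submodule.mem_sup.1 (hcon k)
      obtain ⟨t, rfl⟩ := Ideal.mem_span_singleton'.1 hs
      have h2 : (Ideal.Quotient.mk J y : A ⧸ J) = (t * l ^ k) • (1 : A ⧸ J) := by
        rw [← hsj, map_add, Ideal.Quotient.eq_zero_iff_mem.2 hj, add_zero, Algebra.smul_def, mul_one]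
        rfl
      rw [h2]
      exact Submodule.smul_mem_smul (Ideal.mul_mem_left _ _ (Ideal.pow_mem_pow hl k))
        Submodule.mem_top
    rw [Ideal.iInf_pow_smul_eq_bot_of_isLocalRing _ (Ideal.IsPrime.ne_top'), Submodule.mem_bot,
      Ideal.Quotient.eq_zero_iff_mem] at h1
    exact hy h1
  have h0 : Nat.find hex ≠ 0 := by
    intro h0
    have := Nat.find_spec hex
    rw [h0] at this
    simp at this
  obtain ⟨n, hn⟩ := Nat.exists_eq_succ_of_ne_zero h0
  have hP : y ∈ Ideal.span {l ^ n} ⊔ J := by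
    by_contra hc
    have := Nat.find_min' hex hc
    omega
  have hN : y ∉ Ideal.span {l ^ (n + 1)} ⊔ J := by
    have := Nat.find_spec hex
    rwa [hn] at this
  obtain ⟨s, hs, j, hj, hsj⟩ := Submodule.mem_sup.1 hP
  obtain ⟨v, rfl⟩ := Ideal.mem_span_singleton'.1 hs
  refine ⟨n, v, ?_, ?_⟩
  · by_contra hv
    have hvm : v ∈ maximalIdeal A := (mem_maximalIdeal v).2 hv
    obtain ⟨s', hs', j', hj', hsj'⟩ := Submodule.mem_sup.1 (hm hvm)
    obtain ⟨w, rfl⟩ := Ideal.mem_span_singleton'.1 hs'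
    refine hN (Submodule.mem_sup.2 ⟨w * l ^ (n + 1), Ideal.mem_span_singleton'.2 ⟨w, rfl⟩,
      j' * l ^ n + j, J.add_mem (J.mul_mem_right _ hj') hj, ?_⟩)
    rw [← hsj, ← hsj']
    ring
  · rw [← hsj, add_sub_cancel_left]
    exact hj

theorem SymA_two {A : Type u} [CommRing A] [IsLocalRing A] [IsNoetherianRing A] {a : Ideal A}
    {l b c : A} (hl : l ∈ maximalIdeal A) (hb : b ∈ a) (hc : c ∈ a) (ha : a ≤ maximalIdeal A)
    (hm : maximalIdeal A ≤ Ideal.span {l} ⊔ Ideal.span {b, c}) :
    ∃ g : Fin 3 → A, a = Ideal.span (Set.range g) := by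
  classical
  have hJa : Ideal.span {b, c} ≤ a := by
    rw [Ideal.span_le]
    rintro z (rfl | rfl)
    · exact hb
    · exact hc
  have rg : ∀ x y z : A, Set.range ![x, y, z] = {x, y, z} := by
    intro x y z
    ext w
    simp only [Set.mem_range, Fin.exists_fin_succ, Set.mem_insert_iff, Set.mem_singleton_iff]
    simp [eq_comm]
  by_cases h : ∃ n : ℕ, l ^ n ∈ a
  · have hn := Nat.find_spec h
    set n := Nat.find h with hnd
    refine ⟨![l ^ n, b, c], ?_⟩
    rw [rg]
    refine le_antisymm ?_ ?_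
    · intro y hy
      by_cases hyJ : y ∈ Ideal.span {b, c}
      · exact Ideal.span_mono (Set.subset_insert _ _) hyJ
      · obtain ⟨k, v, hv, hvk⟩ := SymA_krull hl (hJa.trans ha) hm hyJ
        have h1 : l ^ k ∈ a := by
          have h2 : v * l ^ k ∈ a := by
            have := a.sub_mem hy (hJa hvk)
            rwa [sub_sub_cancel] at this
          obtain ⟨w, rfl⟩ := hv
          have := a.mul_mem_left (↑w⁻¹ : A) h2
          rwa [← mul_assoc, Units.inv_mul, one_mul] at this
        have h3 : n ≤ k := Nat.find_min' h h1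
        obtain ⟨r, rfl⟩ := Nat.exists_eq_add_of_le h3
        have e : y = (v * l ^ r) * l ^ n + (y - v * l ^ (n + r)) := by ring
        rw [e]
        refine Ideal.add_mem _ (Ideal.mul_mem_left _ _ (Ideal.subset_span (Set.mem_insert _ _))) ?_
        exact Ideal.span_mono (Set.subset_insert _ _) hvk
    · rw [Ideal.span_le]
      rintro z (rfl | rfl | rfl)
      · exact hn
      · exact hb
      · exact hc
  · refine ⟨![0, b, c], ?_⟩
    rw [rg]
    refine le_antisymm ?_ ?_
    · intro y hy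
      by_cases hyJ : y ∈ Ideal.span {b, c}
      · exact Ideal.span_mono (Set.subset_insert _ _) hyJ
      · exfalso
        obtain ⟨k, v, hv, hvk⟩ := SymA_krull hl (hJa.trans ha) hm hyJ
        refine h ⟨k, ?_⟩
        have h2 : v * l ^ k ∈ a := by
          have := a.sub_mem hy (hJa hvk)
          rwa [sub_sub_cancel] at this
        obtain ⟨w, rfl⟩ := hv
        have := a.mul_mem_left (↑w⁻¹ : A) h2
        rwa [← mul_assoc, Units.inv_mul, one_mul] at this
    · rw [Ideal.span_le]
      rintro z (rfl | rfl | rfl)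
      · exact a.zero_mem
      · exact hb
      · exact hc

theorem SymA_one {A : Type u} [CommRing A] [IsLocalRing A] [IsNoetherianRing A] {a : Ideal A}
    {l x y z α β γ : A} (hg : maximalIdeal A = Ideal.span {x, y, z})
    (h : maximalIdeal A = a ⊔ Ideal.span {l}) (hl : α * x + β * y + γ * z = l) (hα : IsUnit α) :
    ∃ g : Fin 3 → A, a = Ideal.span (Set.range g) := by
  have hlm : l ∈ maximalIdeal A := by
    rw [h]
    exact Ideal.mem_sup_right (Ideal.mem_span_singleton_self l)
  have ha : a ≤ maximalIdeal A := by rw [h]; exact le_sup_left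
  have hdec : ∀ w ∈ maximalIdeal A, ∃ b ∈ a, ∃ t, w = b + t * l := by
    intro w hw
    rw [h] at hw
    obtain ⟨b, hb, s, hs, rfl⟩ := Submodule.mem_sup.1 hw
    obtain ⟨t, rfl⟩ := Ideal.mem_span_singleton'.1 hs
    exact ⟨b, hb, t, rfl⟩
  have hy : y ∈ maximalIdeal A := by
    rw [hg]
    exact Ideal.subset_span (by simp)
  have hz : z ∈ maximalIdeal A := by
    rw [hg]
    exact Ideal.subset_span (by simp)
  obtain ⟨b, hb, t, rfl⟩ := hdec y hy
  obtain ⟨c, hc, s, rfl⟩ := hdec z hz
  refine SymA_two hlm hb hc ha ?_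
  have hL : l ∈ Ideal.span {l} ⊔ Ideal.span {b, c} :=
    Ideal.mem_sup_left (Ideal.mem_span_singleton_self l)
  have hB : b ∈ Ideal.span {l} ⊔ Ideal.span {b, c} :=
    Ideal.mem_sup_right (Ideal.subset_span (by simp))
  have hC : c ∈ Ideal.span {l} ⊔ Ideal.span {b, c} :=
    Ideal.mem_sup_right (Ideal.subset_span (by simp))
  have hY : b + t * l ∈ Ideal.span {l} ⊔ Ideal.span {b, c} :=
    Ideal.add_mem _ hB (Ideal.mul_mem_left _ _ hL)
  have hZ : c + s * l ∈ Ideal.span {l} ⊔ Ideal.span {b, c} :=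
    Ideal.add_mem _ hC (Ideal.mul_mem_left _ _ hL)
  rw [hg, Ideal.span_le]
  rintro w (rfl | rfl | rfl)
  · obtain ⟨v, rfl⟩ := hα
    have e : w = (↑v⁻¹ : A) * (l - β * (b + t * l) - γ * (c + s * l)) := by
      have h1 : l - β * (b + t * l) - γ * (c + s * l) = (↑v : A) * w := by
        linear_combination -hl
      rw [h1, ← mul_assoc, Units.inv_mul, one_mul]
    rw [e]
    exact Ideal.mul_mem_left _ _ (Ideal.sub_mem _ (Ideal.sub_mem _ hL (Ideal.mul_mem_left _ _ hY))
      (Ideal.mul_mem_left _ _ hZ))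
  · exact hY
  · exact hZ

theorem three_gen {A : Type u} [CommRing A] [IsLocalRing A] [IsNoetherianRing A] (hA : Reg3 A)
    (a : Ideal A) (l : A) (h : maximalIdeal A = a ⊔ Ideal.span {l}) :
    ∃ g : Fin 3 → A, a = Ideal.span (Set.range g) := by
  obtain ⟨x, y, z, hg⟩ := hA.gen
  have hlm : l ∈ maximalIdeal A := by
    rw [h]
    exact Ideal.mem_sup_right (Ideal.mem_span_singleton_self l)
  have ha : a ≤ maximalIdeal A := by rw [h]; exact le_sup_left
  have hl : l ∈ Ideal.span {x, y, z} := hg ▸ hlm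
  obtain ⟨α, l', hl', e1⟩ := Ideal.mem_span_insert.1 hl
  obtain ⟨β, γ, e2⟩ := Ideal.mem_span_pair.1 hl'
  have e : α * x + β * y + γ * z = l := by
    rw [e1, ← e2]
    ring
  by_cases hα : IsUnit α
  · exact SymA_one hg h e hα
  by_cases hβ : IsUnit β
  · have hg' : maximalIdeal A = Ideal.span {y, x, z} := by rw [hg, Set.insert_comm]
    exact SymA_one (α := β) (β := α) (γ := γ) hg' h (by rw [← e]; ring) hβ
  by_cases hγ : IsUnit γ
  · have hg' : maximalIdeal A = Ideal.span {z, x, y} := by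
      rw [hg]
      congr 1
      ext w
      simp only [Set.mem_insert_iff, Set.mem_singleton_iff]
      tauto
    exact SymA_one (α := γ) (β := α) (γ := β) hg' h (by rw [← e]; ring) hγ
  -- all coefficients in the maximal ideal: `l ∈ m ^ 2`, `m ≤ a`
  have hx : x ∈ maximalIdeal A := by rw [hg]; exact Ideal.subset_span (by simp)
  have hy : y ∈ maximalIdeal A := by rw [hg]; exact Ideal.subset_span (by simp)
  have hz : z ∈ maximalIdeal A := by rw [hg]; exact Ideal.subset_span (by simp)
  have hl2 : l ∈ maximalIdeal A * maximalIdeal A := by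
    rw [← e]
    exact Ideal.add_mem _ (Ideal.add_mem _ (Ideal.mul_mem_mul ((mem_maximalIdeal α).2 hα) hx)
      (Ideal.mul_mem_mul ((mem_maximalIdeal β).2 hβ) hy))
      (Ideal.mul_mem_mul ((mem_maximalIdeal γ).2 hγ) hz)
  have hma : maximalIdeal A ≤ a := by
    refine Submodule.le_of_le_smul_of_le_jacobson_bot (I := maximalIdeal A)
      (IsNoetherian.noetherian _) (maximalIdeal_le_jacobson _) ?_
    rw [smul_eq_mul]
    nth_rewrite 1 [h]
    refine sup_le_sup_left ?_ a
    rw [Ideal.span_le]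
    rintro w rfl
    exact hl2
  refine ⟨![x, y, z], ?_⟩
  have rg : Set.range ![x, y, z] = {x, y, z} := by
    ext w
    simp only [Set.mem_range, Fin.exists_fin_succ, Set.mem_insert_iff, Set.mem_singleton_iff]
    simp [eq_comm]
  rw [rg, ← hg]
  exact le_antisymm ha hma

/-! ## linear algebra -/

theorem SymA_pair {κ : Type u} [Field κ] {V : Type u} [AddCommGroup V] [Module κ V] {x y : V}
    (h : ¬ LinearIndependent κ ![x, y]) (hx : x ≠ 0) : ∃ t : κ, y = t • x := by
  rw [LinearIndependent.pair_iff' hx] at h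
  push Not at h
  obtain ⟨t, ht⟩ := h
  exact ⟨t, ht.symm⟩

theorem SymA_inj {κ : Type u} [Field κ] {V : Type u} [AddCommGroup V] [Module κ V]
    [FiniteDimensional κ V] (A B : V →ₗ[κ] V) (hA : Function.Injective A) :
    (∃ x y : V, A x + B y = 0 ∧ LinearIndependent κ ![x, y]) ∨ ∃ μ : κ, ∀ v, μ • A v + B v = 0 := by
  by_cases hcon : ∃ x y : V, A x + B y = 0 ∧ LinearIndependent κ ![x, y]
  · exact Or.inl hcon
  right
  let e := LinearEquiv.ofInjectiveEndo A hA
  have he : ∀ v, A (e.symm v) = v := fun v => e.apply_symm_apply v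
  let M : V →ₗ[κ] V := e.symm.toLinearMap ∘ₗ B
  have hM : ∀ v, A (M v) = B v := fun v => he (B v)
  obtain ⟨μ, hμ⟩ := M.exists_eq_smul_id_of_forall_notLinearIndependent fun v hv => by
    refine hcon ⟨-M v, v, by rw [map_neg, hM, neg_add_cancel], ?_⟩
    rw [LinearIndependent.pair_iff] at hv ⊢
    intro s t hst
    have := hv t (-s) (by rw [← hst]; module)
    exact ⟨neg_eq_zero.1 this.2, this.1⟩
  refine ⟨-μ, fun v => ?_⟩
  rw [← hM, hμ]
  simp

theorem SymA_sing {κ : Type u} [Field κ] {V : Type u} [AddCommGroup V] [Module κ V]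
    [FiniteDimensional κ V] (hV : Module.finrank κ V = 3) (A B : V →ₗ[κ] V)
    (hA : LinearMap.ker A ≠ ⊥) (hB : LinearMap.ker B ≠ ⊥) :
    ∃ x y : V, A x + B y = 0 ∧ LinearIndependent κ ![x, y] := by
  by_contra hcon
  have key : ∀ x y : V, A x + B y = 0 → ¬ LinearIndependent κ ![x, y] := fun x y h1 h2 =>
    hcon ⟨x, y, h1, h2⟩
  obtain ⟨v0, hv0, hv0n⟩ := (Submodule.ne_bot_iff _).1 hA
  obtain ⟨v1, hv1, hv1n⟩ := (Submodule.ne_bot_iff _).1 hB
  rw [LinearMap.mem_ker] at hv0 hv1
  obtain ⟨t, ht⟩ := SymA_pair (key v0 v1 (by rw [hv0, hv1, add_zero])) hv0n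
  have ht0 : t ≠ 0 := by
    rintro rfl
    rw [zero_smul] at ht
    exact hv1n ht
  have hBv0 : B v0 = 0 := by
    rw [ht, map_smul] at hv1
    exact (smul_eq_zero.1 hv1).resolve_left ht0
  have kA : ∀ x, A x = 0 → x ∈ Submodule.span κ {v0} := by
    intro x hx
    rcases eq_or_ne x 0 with rfl | hx0
    · exact Submodule.zero_mem _
    · obtain ⟨s, hs⟩ := SymA_pair (key x v0 (by rw [hx, hBv0, add_zero])) hx0
      have hs0 : s ≠ 0 := by
        rintro rfl
        rw [zero_smul] at hs
        exact hv0n hs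
      rw [Submodule.mem_span_singleton]
      exact ⟨s⁻¹, by rw [hs, smul_smul, inv_mul_cancel₀ hs0, one_smul]⟩
  have kB : ∀ y, B y = 0 → y ∈ Submodule.span κ {v0} := by
    intro y hy
    obtain ⟨s, hs⟩ := SymA_pair (key v0 y (by rw [hy, hv0, add_zero])) hv0n
    rw [Submodule.mem_span_singleton]
    exact ⟨s, hs.symm⟩
  have fA : Module.finrank κ (LinearMap.ker A) ≤ 1 := by
    have : LinearMap.ker A ≤ Submodule.span κ {v0} := fun x hx => kA x (LinearMap.mem_ker.1 hx)
    exact (Submodule.finrank_mono this).trans (finrank_span_singleton hv0n).le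
  have fB : Module.finrank κ (LinearMap.ker B) ≤ 1 := by
    have : LinearMap.ker B ≤ Submodule.span κ {v0} := fun x hx => kB x (LinearMap.mem_ker.1 hx)
    exact (Submodule.finrank_mono this).trans (finrank_span_singleton hv0n).le
  have rA := LinearMap.finrank_range_add_finrank_ker A
  have rB := LinearMap.finrank_range_add_finrank_ker B
  have hint : LinearMap.range A ⊓ LinearMap.range B ≠ ⊥ := by
    intro h0
    have h1 := Submodule.finrank_sup_add_finrank_inf_eq (LinearMap.range A) (LinearMap.range B)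
    rw [h0, finrank_bot] at h1
    have h2 := Submodule.finrank_le (LinearMap.range A ⊔ LinearMap.range B)
    omega
  obtain ⟨y, hy, hy0⟩ := (Submodule.ne_bot_iff _).1 hint
  obtain ⟨⟨c0, hc0⟩, ⟨c1, hc1⟩⟩ := hy
  have hc0n : c0 ≠ 0 := by
    rintro rfl
    rw [map_zero] at hc0
    exact hy0 hc0.symm
  obtain ⟨p, hp⟩ := SymA_pair (key c0 (-c1) (by rw [map_neg, hc0, hc1, add_neg_cancel])) hc0n
  obtain ⟨q, hq⟩ := SymA_pair (key c0 (-c1 + v0)
    (by rw [map_add, map_neg, hBv0, hc0, hc1, add_zero, add_neg_cancel])) hc0n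
  have h1 : v0 = (q - p) • c0 := by
    rw [hp] at hq
    rw [sub_smul, ← hq]
    abel
  have h2 : q - p ≠ 0 := by
    intro h0
    rw [h0, zero_smul] at h1
    exact hv0n h1
  rw [h1, map_smul] at hv0
  have h3 := (smul_eq_zero.1 hv0).resolve_left h2
  rw [hc0] at h3
  exact hy0 h3

theorem rank_lemma {κ : Type u} [Field κ] (φ : (Fin 2 → Fin 3 → κ) →ₗ[κ] (Fin 3 → κ)) :
    (∃ c, φ c = 0 ∧ LinearIndependent κ c) ∨
      ∃ e : Fin 2 → κ, e ≠ 0 ∧ ∀ v : Fin 3 → κ, φ (fun i j => e i * v j) = 0 := by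
  let A : (Fin 3 → κ) →ₗ[κ] (Fin 3 → κ) := φ ∘ₗ LinearMap.single κ (fun _ : Fin 2 => (Fin 3 → κ)) 0
  let B : (Fin 3 → κ) →ₗ[κ] (Fin 3 → κ) := φ ∘ₗ LinearMap.single κ (fun _ : Fin 2 => (Fin 3 → κ)) 1
  have hφ : ∀ x y : Fin 3 → κ, φ ![x, y] = A x + B y := by
    intro x y
    show φ ![x, y] = φ (Pi.single 0 x) + φ (Pi.single 1 y)
    rw [← map_add]
    congr 1
    funext i
    fin_cases i <;> simp
  have hfin : Module.finrank κ (Fin 3 → κ) = 3 := by simp
  have done1 : (∃ x y : Fin 3 → κ, A x + B y = 0 ∧ LinearIndependent κ ![x, y]) →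
      ∃ c, φ c = 0 ∧ LinearIndependent κ c := by
    rintro ⟨x, y, h1, h2⟩
    exact ⟨![x, y], by rw [hφ, h1], h2⟩
  by_cases hA : LinearMap.ker A = ⊥
  · rcases SymA_inj A B (LinearMap.ker_eq_bot.1 hA) with h | ⟨μ, hμ⟩
    · exact Or.inl (done1 h)
    · refine Or.inr ⟨![μ, 1], fun h0 => ?_, fun v => ?_⟩
      · have := congrFun h0 1
        simp at this
      · have e : (fun (i : Fin 2) (j : Fin 3) => (![μ, 1] : Fin 2 → κ) i * v j) = ![μ • v, v] := by
          funext i j
          fin_cases i <;> simp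
        rw [e, hφ, map_smul]
        exact hμ v
  by_cases hB : LinearMap.ker B = ⊥
  · rcases SymA_inj B A (LinearMap.ker_eq_bot.1 hB) with ⟨x, y, h1, h2⟩ | ⟨μ, hμ⟩
    · refine Or.inl (done1 ⟨y, x, by rw [add_comm]; exact h1, ?_⟩)
      rw [LinearIndependent.pair_iff] at h2 ⊢
      intro s t hst
      have := h2 t s (by rw [add_comm]; exact hst)
      exact ⟨this.2, this.1⟩
    · refine Or.inr ⟨![1, μ], fun h0 => ?_, fun v => ?_⟩
      · have := congrFun h0 0
        simp at this
      · have e : (fun (i : Fin 2) (j : Fin 3) => (![1, μ] : Fin 2 → κ) i * v j) = ![v, μ • v] := by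
          funext i j
          fin_cases i <;> simp
        rw [e, hφ, map_smul, add_comm]
        exact hμ v
  exact Or.inl (done1 (SymA_sing hfin A B hA hB))

end STCI.M5
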